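import Pool.Agent.Helper65_Jessen.BadSet

set_option autoImplicit false

open Complex Metric Real Set Filter Topology MeasureTheory
open scoped ENNReal

namespace Pool.Agent.Helper65_Jessen

variable {n : ℕ}

lemma amgm_ind {u : ℝ≥0∞} {lam : ℝ} (hlam : 0 < lam) :
    u ≤ ENNReal.ofReal lam * u ^ 2 + ENNReal.ofReal lam⁻¹ := by
  rcases le_total u (ENNReal.ofReal lam⁻¹) with h | h
  · exact h.trans le_add_self
  · refine le_trans ?_ le_self_add
    have h1 : ENNReal.ofReal lam * ENNReal.ofReal lam⁻¹ = 1 := by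
      rw [← ENNReal.ofReal_mul hlam.le, mul_inv_cancel₀ hlam.ne', ENNReal.ofReal_one]
    calc u = (ENNReal.ofReal lam * ENNReal.ofReal lam⁻¹) * u := by rw [h1, one_mul]
      _ ≤ (ENNReal.ofReal lam * u) * u := by gcongr
      _ = ENNReal.ofReal lam * u ^ 2 := by ring

lemma bad_measure {p : Fin n → ℝ} {r : ℝ} {F : (Fin n → ℂ) → ℂ} (H : Core p r F)
    (i₀ i₁ : Fin n) : ∃ δ : ℝ≥0∞, δ ≠ 0 ∧ ∀ ρ : ℝ, 0 < ρ → ρ ≤ r / 4 → ∀ x₀ : Fin n → ℝ,
      ENNReal.ofReal (r / 8) ^ n * (ENNReal.ofReal (ρ / π) * ENNReal.ofReal r) ≤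
        ∫⁻ x' in cube x₀ (r / 8), ∫⁻ τ in Icc (-r) r, Jd F i₀ ρ x' (yc p i₀ i₁ τ) →
      δ ≤ ∫⁻ x in cube x₀ (r / 8), ∫⁻ τ in Icc (-r) r,
        (Bad F p r i₀ i₁ ρ (x₀ i₀)).indicator 1 (x, τ) := by
  have hr := H.hr
  have hr1 := H.hr1
  obtain ⟨C, hC, hul⟩ := H.ul2
  set C' : ℝ := C.toReal + 1 with hC'
  have hC'0 : 0 < C' := by have := ENNReal.toReal_nonneg (a := C); linarith
  have hCC' : C ≤ ENNReal.ofReal C' := by
    rw [ENNReal.le_ofReal_iff_toReal_le hC hC'0.le]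
    linarith
  set K1 : ℝ := (r / 4) * ((r / 8) ^ n * ((1 / π) * r)) / 12 with hK1
  have hπ := Real.pi_pos
  have hK10 : 0 < K1 := by positivity
  set lam : ℝ := K1 / (4 * r * C') with hlam
  have hlam0 : 0 < lam := by positivity
  refine ⟨ENNReal.ofReal (lam * (K1 / 2)), ?_, ?_⟩
  · rw [Ne, ENNReal.ofReal_eq_zero, not_le]; positivity
  intro ρ hρ hρr x₀ hlow
  -- measurability
  have hJ : Measurable (fun v : (Fin n → ℝ) × ℝ => Jd F i₀ ρ v.1 (yc p i₀ i₁ v.2)) := by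
    have h1 : Measurable (fun v : (Fin n → ℝ) × ℝ => (v.1, yc p i₀ i₁ v.2)) :=
      (continuous_fst.prodMk ((continuous_yc p i₀ i₁).comp continuous_snd)).measurable
    exact (measurable_Jd H.meas i₀ ρ).comp h1
  have hB : Measurable (fun v : (Fin n → ℝ) × ℝ =>
      (Bad F p r i₀ i₁ ρ (x₀ i₀)).indicator (1 : (Fin n → ℝ) × ℝ → ℝ≥0∞) v) :=
    measurable_one.indicator (measurableSet_Bad H.meas p r i₀ i₁ ρ (x₀ i₀))
  have hN : Measurable (fun v : (Fin n → ℝ) × ℝ => nlog (F (xiy v.1 (yc p i₀ i₁ v.2)))) := by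
    have h1 : Continuous (fun v : (Fin n → ℝ) × ℝ => xiy v.1 (yc p i₀ i₁ v.2)) :=
      continuous_xiy.comp (continuous_fst.prodMk ((continuous_yc p i₀ i₁).comp continuous_snd))
    exact measurable_nlog.comp (H.meas.comp h1.measurable)
  have hB1 : ∀ τ : ℝ, Measurable (fun x : Fin n → ℝ => (Bad F p r i₀ i₁ ρ (x₀ i₀)).indicator
      (1 : (Fin n → ℝ) × ℝ → ℝ≥0∞) (x, τ)) := fun τ => hB.comp measurable_prodMk_right
  have hN1 : ∀ τ : ℝ, Measurable (fun x : Fin n → ℝ => nlog (F (xiy x (yc p i₀ i₁ τ)))) :=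
    fun τ => hN.comp measurable_prodMk_right
  -- step 1
  have s1 : ENNReal.ofReal (r / 4) * (ENNReal.ofReal (r / 8) ^ n *
      (ENNReal.ofReal (ρ / π) * ENNReal.ofReal r)) ≤ ENNReal.ofReal (12 * ρ) *
      ∫⁻ τ in Icc (-r) r, ∫⁻ x in cube x₀ (r / 8),
        (Bad F p r i₀ i₁ ρ (x₀ i₀)).indicator 1 (x, τ) * nlog (F (xiy x (yc p i₀ i₁ τ))) := by
    calc ENNReal.ofReal (r / 4) * (ENNReal.ofReal (r / 8) ^ n *
      (ENNReal.ofReal (ρ / π) * ENNReal.ofReal r))
        ≤ ENNReal.ofReal (r / 4) * ∫⁻ x' in cube x₀ (r / 8), ∫⁻ τ in Icc (-r) r,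
          Jd F i₀ ρ x' (yc p i₀ i₁ τ) := by gcongr
      _ = ∫⁻ τ in Icc (-r) r, ENNReal.ofReal (r / 4) * ∫⁻ x' in cube x₀ (r / 8),
          Jd F i₀ ρ x' (yc p i₀ i₁ τ) := by
          rw [lintegral_const_mul' _ _ ENNReal.ofReal_ne_top]
          rw [lintegral_lintegral_swap (f := fun x τ => Jd F i₀ ρ x (yc p i₀ i₁ τ))
            hJ.aemeasurable]
      _ ≤ ∫⁻ τ in Icc (-r) r, ENNReal.ofReal (12 * ρ) * ∫⁻ x in cube x₀ (r / 8),
        (Bad F p r i₀ i₁ ρ (x₀ i₀)).indicator 1 (x, τ) * nlog (F (xiy x (yc p i₀ i₁ τ))) := by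
          apply setLIntegral_mono' measurableSet_Icc
          intro τ hτ
          exact cube_ineq H i₀ i₁ hρ hρr x₀ (abs_le.2 ⟨by linarith [hτ.1], hτ.2⟩)
      _ = _ := by rw [lintegral_const_mul' _ _ ENNReal.ofReal_ne_top]
  -- step 2
  have s2 : ENNReal.ofReal K1 ≤ ∫⁻ τ in Icc (-r) r, ∫⁻ x in cube x₀ (r / 8),
        (Bad F p r i₀ i₁ ρ (x₀ i₀)).indicator 1 (x, τ) * nlog (F (xiy x (yc p i₀ i₁ τ))) := by
    have e1 : ENNReal.ofReal (r / 4) * (ENNReal.ofReal (r / 8) ^ n *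
      (ENNReal.ofReal (ρ / π) * ENNReal.ofReal r)) =
        ENNReal.ofReal (12 * ρ) * ENNReal.ofReal K1 := by
      rw [← ENNReal.ofReal_pow (by positivity), ← ENNReal.ofReal_mul (by positivity),
        ← ENNReal.ofReal_mul (by positivity), ← ENNReal.ofReal_mul (by positivity),
        ← ENNReal.ofReal_mul (by positivity)]
      congr 1
      rw [hK1]
      field_simp
    rw [e1] at s1
    rwa [ENNReal.mul_le_mul_iff_right] at s1
    · rw [Ne, ENNReal.ofReal_eq_zero, not_le]; positivity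
    · exact ENNReal.ofReal_ne_top
  -- step 3
  set μB := ∫⁻ τ in Icc (-r) r, ∫⁻ x in cube x₀ (r / 8),
        (Bad F p r i₀ i₁ ρ (x₀ i₀)).indicator (1 : (Fin n → ℝ) × ℝ → ℝ≥0∞) (x, τ) with hμB
  have s3 : ENNReal.ofReal K1 ≤ ENNReal.ofReal (K1 / 2) + ENNReal.ofReal lam⁻¹ * μB := by
    calc ENNReal.ofReal K1 ≤ _ := s2
      _ ≤ ∫⁻ τ in Icc (-r) r, (ENNReal.ofReal lam * C + ENNReal.ofReal lam⁻¹ *
          ∫⁻ x in cube x₀ (r / 8), (Bad F p r i₀ i₁ ρ (x₀ i₀)).indicator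
            (1 : (Fin n → ℝ) × ℝ → ℝ≥0∞) (x, τ)) := by
          apply setLIntegral_mono' measurableSet_Icc
          intro τ hτ
          have hτ' : |τ| ≤ r := abs_le.2 ⟨by linarith [hτ.1], hτ.2⟩
          calc ∫⁻ x in cube x₀ (r / 8),
              (Bad F p r i₀ i₁ ρ (x₀ i₀)).indicator 1 (x, τ) * nlog (F (xiy x (yc p i₀ i₁ τ)))
              ≤ ∫⁻ x in cube x₀ (r / 8), (ENNReal.ofReal lam *
                (nlog (F (xiy x (yc p i₀ i₁ τ)))) ^ 2 + ENNReal.ofReal lam⁻¹ *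
                (Bad F p r i₀ i₁ ρ (x₀ i₀)).indicator (1 : (Fin n → ℝ) × ℝ → ℝ≥0∞) (x, τ)) := by
                apply lintegral_mono
                intro x
                simp only
                by_cases hb : (x, τ) ∈ Bad F p r i₀ i₁ ρ (x₀ i₀)
                · rw [indicator_of_mem hb]
                  simp only [Pi.one_apply, one_mul, mul_one]
                  exact amgm_ind hlam0
                · rw [indicator_of_notMem hb, zero_mul]
                  exact bot_le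
            _ = ENNReal.ofReal lam * (∫⁻ x in cube x₀ (r / 8),
                (nlog (F (xiy x (yc p i₀ i₁ τ)))) ^ 2) + ENNReal.ofReal lam⁻¹ *
                ∫⁻ x in cube x₀ (r / 8), (Bad F p r i₀ i₁ ρ (x₀ i₀)).indicator
                  (1 : (Fin n → ℝ) × ℝ → ℝ≥0∞) (x, τ) := by
                rw [lintegral_add_left (((hN1 τ).pow_const 2).const_mul _),
                  lintegral_const_mul' _ _ ENNReal.ofReal_ne_top,
                  lintegral_const_mul' _ _ ENNReal.ofReal_ne_top]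
            _ ≤ _ := by
                gcongr
                apply hul
                intro j
                exact (yc_near p i₀ i₁ hr hr1 hτ' j).trans (by linarith)
      _ = ENNReal.ofReal lam * C * ENNReal.ofReal (2 * r) + ENNReal.ofReal lam⁻¹ * μB := by
          rw [lintegral_add_left measurable_const, setLIntegral_const,
            lintegral_const_mul' _ _ ENNReal.ofReal_ne_top, Real.volume_Icc]
          have e3 : r - -r = 2 * r := by ring
          rw [e3, hμB]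
      _ ≤ ENNReal.ofReal lam * ENNReal.ofReal C' * ENNReal.ofReal (2 * r) +
          ENNReal.ofReal lam⁻¹ * μB := by gcongr
      _ = _ := by
          rw [← ENNReal.ofReal_mul (by positivity), ← ENNReal.ofReal_mul (by positivity)]
          congr 2
          rw [hlam]
          field_simp
          ring
  have s4 : ENNReal.ofReal (K1 / 2) ≤ ENNReal.ofReal lam⁻¹ * μB := by
    have e2 : ENNReal.ofReal K1 = ENNReal.ofReal (K1 / 2) + ENNReal.ofReal (K1 / 2) := by
      rw [← ENNReal.ofReal_add (by positivity) (by positivity)]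
      congr 1; ring
    rw [e2] at s3
    exact (ENNReal.add_le_add_iff_left ENNReal.ofReal_ne_top).1 s3
  have s5 : ENNReal.ofReal (lam * (K1 / 2)) ≤ μB := by
    rw [ENNReal.ofReal_mul hlam0.le]
    calc ENNReal.ofReal lam * ENNReal.ofReal (K1 / 2)
        ≤ ENNReal.ofReal lam * (ENNReal.ofReal lam⁻¹ * μB) := by gcongr
      _ = μB := by
        rw [← mul_assoc, ← ENNReal.ofReal_mul hlam0.le, mul_inv_cancel₀ hlam0.ne',
          ENNReal.ofReal_one, one_mul]
  refine s5.trans (le_of_eq ?_)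
  rw [hμB, lintegral_lintegral_swap (f := fun τ x => (Bad F p r i₀ i₁ ρ (x₀ i₀)).indicator
    (1 : (Fin n → ℝ) × ℝ → ℝ≥0∞) (x, τ)) (hB.comp measurable_swap).aemeasurable]

end Pool.Agent.Helper65_Jessen
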