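import Pool.Agent.Helper65_Jessen.GoodCube

set_option autoImplicit false

open Complex Metric Real Set Filter Topology MeasureTheory
open scoped ENNReal

namespace Pool.Agent.Helper65_Jessen

variable {n : ℕ}

/-- The integral of the defect over a segment in the direction `i₀`. -/
noncomputable def Sd (F : (Fin n → ℂ) → ℂ) (p : Fin n → ℝ) (r : ℝ) (i₀ i₁ : Fin n) (ρ c₀ : ℝ)
    (x : Fin n → ℝ) (τ : ℝ) : ℝ≥0∞ :=
  ∫⁻ s in Icc (c₀ - r / 8) (c₀ + r / 8), Jd F i₀ ρ (Function.update x i₀ s) (yc p i₀ i₁ τ)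

lemma measurable_Sd {F : (Fin n → ℂ) → ℂ} (hF : Measurable F) (p : Fin n → ℝ) (r : ℝ)
    (i₀ i₁ : Fin n) (ρ c₀ : ℝ) :
    Measurable (fun v : (Fin n → ℝ) × ℝ => Sd F p r i₀ i₁ ρ c₀ v.1 v.2) := by
  unfold Sd
  have h1 : Measurable (fun v : ((Fin n → ℝ) × ℝ) × ℝ =>
      Jd F i₀ ρ (Function.update v.1.1 i₀ v.2) (yc p i₀ i₁ v.1.2)) := by
    have h2 : Continuous (fun v : ((Fin n → ℝ) × ℝ) × ℝ =>
      ((Function.update v.1.1 i₀ v.2, yc p i₀ i₁ v.1.2) : (Fin n → ℝ) × (Fin n → ℝ))) := by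
      apply Continuous.prodMk
      · exact (continuous_fst.comp continuous_fst).update i₀ continuous_snd
      · exact (continuous_yc p i₀ i₁).comp (continuous_snd.comp continuous_fst)
    exact (measurable_Jd hF i₀ ρ).comp h2.measurable
  exact h1.lintegral_prod_right'

lemma Sd_update (F : (Fin n → ℂ) → ℂ) (p : Fin n → ℝ) (r : ℝ) (i₀ i₁ : Fin n) (ρ c₀ : ℝ)
    (x : Fin n → ℝ) (s τ : ℝ) :
    Sd F p r i₀ i₁ ρ c₀ (Function.update x i₀ s) τ = Sd F p r i₀ i₁ ρ c₀ x τ := by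
  unfold Sd
  simp only [Function.update_idem]

lemma xiy_update (x y : Fin n → ℝ) (i₀ : Fin n) (s : ℝ) :
    xiy (Function.update x i₀ s) y = Function.update (xiy x y) i₀ ((s:ℂ) + (y i₀ : ℂ) * I) := by
  ext j
  by_cases hj : j = i₀
  · subst hj; simp [xiy]
  · simp [xiy, Function.update_of_ne hj]

lemma upd_strip {p : Fin n → ℝ} {r : ℝ} {i₀ : Fin n} {x y : Fin n → ℝ} (hr : 0 < r)
    (hy : ∀ j, |y j - p j| ≤ r) {ζ : ℂ} (hζ : |ζ.im - p i₀| < 4 * r) :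
    Function.update (xiy x y) i₀ ζ ∈ strip p (4 * r) := by
  intro j
  by_cases hj : j = i₀
  · subst hj; simpa using hζ
  · simp only [Function.update_of_ne hj, xiy]
    have h1 := hy j
    have h2 : ((x j : ℂ) + (y j : ℂ) * I).im = y j := by simp
    rw [h2]
    linarith

/-- Core slice estimate. -/
lemma slice_ineq_ind {p : Fin n → ℝ} {r : ℝ} {F : (Fin n → ℂ) → ℂ} (H : Core p r F)
    (i₀ i₁ : Fin n) {ρ : ℝ} (hρ : 0 < ρ) (hρr : ρ ≤ r / 4) (c₀ : ℝ) (x : Fin n → ℝ) {τ : ℝ}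
    (hτ : |τ| ≤ r) (ind : ℝ≥0∞)
    (hind : (∃ ζ : ℂ, |ζ.re - c₀| ≤ r / 8 + ρ ∧ |ζ.im - yc p i₀ i₁ τ i₀| ≤ ρ ∧
      F (Function.update (xiy x (yc p i₀ i₁ τ)) i₀ ζ) = 0) → ind = 1) :
    ENNReal.ofReal (r / 4) * Sd F p r i₀ i₁ ρ c₀ x τ ≤
      ind * ENNReal.ofReal (12 * ρ) * ∫⁻ s in Icc (c₀ - r / 8) (c₀ + r / 8),
        nlog (F (xiy (Function.update x i₀ s) (yc p i₀ i₁ τ))) := by
  have hr := H.hr
  have hr1 := H.hr1
  have hyn := yc_near p i₀ i₁ hr hr1 hτ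
  set y := yc p i₀ i₁ τ with hy
  have hball : ∀ s ∈ Icc (c₀ - r / 8) (c₀ + r / 8),
      ∀ ζ ∈ closedBall ((s:ℂ) + (y i₀ : ℂ) * I) (2 * r),
      Function.update (xiy x y) i₀ ζ ∈ strip p (4 * r) := by
    intro s _ ζ hζ
    apply upd_strip hr hyn
    rw [mem_closedBall, dist_eq_norm] at hζ
    have h1 := (Complex.abs_im_le_norm _).trans hζ
    simp only [Complex.sub_im, Complex.add_im, Complex.ofReal_im, Complex.mul_im,
      Complex.ofReal_re, Complex.I_im, mul_one, Complex.I_re, mul_zero, add_zero, zero_add] at h1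
    have h2 := hyn i₀
    rw [abs_le] at h1 h2
    rw [abs_lt]
    constructor <;> linarith [h1.1, h1.2, h2.1, h2.2]
  have h := defect_segment (f := fun ζ => F (Function.update (xiy x y) i₀ ζ)) (R := 2 * r)
    (ρ := ρ) (α := c₀ - r / 8) (β := c₀ + r / 8) (b := y i₀) hρ (by linarith) (by linarith)
    (fun s hs => H.analytic_update _ _ _ (hball s hs)) (fun s _ ζ _ => H.bdd _) ind ?_
  · have e1 : c₀ + r / 8 - (c₀ - r / 8) = r / 4 := by ring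
    rw [e1] at h
    refine (le_of_eq ?_).trans (h.trans (le_of_eq ?_))
    · congr 1
      unfold Sd Jd
      apply lintegral_congr
      intro s
      rw [xiy_update]
      simp only [Function.update_idem, Function.update_self]
      rfl
    · congr 1
      apply lintegral_congr
      intro s
      rw [xiy_update]
  · rintro ⟨ζ, h1, h2, h3, h4⟩
    apply hind
    refine ⟨ζ, ?_, h3, h4⟩
    rw [abs_le]
    constructor <;> linarith

/-- If the slice integral is positive there is a nearby zero. -/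
lemma bad_zero {p : Fin n → ℝ} {r : ℝ} {F : (Fin n → ℂ) → ℂ} (H : Core p r F)
    (i₀ i₁ : Fin n) {ρ : ℝ} (hρ : 0 < ρ) (hρr : ρ ≤ r / 4) (c₀ : ℝ) (x : Fin n → ℝ) {τ : ℝ}
    (hτ : |τ| ≤ r) (hpos : 0 < Sd F p r i₀ i₁ ρ c₀ x τ) :
    ∃ ζ : ℂ, |ζ.re - c₀| ≤ r / 8 + ρ ∧ |ζ.im - yc p i₀ i₁ τ i₀| ≤ ρ ∧
      F (Function.update (xiy x (yc p i₀ i₁ τ)) i₀ ζ) = 0 := by
  by_contra hcon
  have h := slice_ineq_ind H i₀ i₁ hρ hρr c₀ x hτ 0 (fun h => absurd h hcon)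
  rw [zero_mul, zero_mul, nonpos_iff_eq_zero, mul_eq_zero] at h
  have hr := H.hr
  rcases h with h | h
  · rw [ENNReal.ofReal_eq_zero] at h; linarith
  · exact hpos.ne' h

/-- The bad set. -/
def Bad (F : (Fin n → ℂ) → ℂ) (p : Fin n → ℝ) (r : ℝ) (i₀ i₁ : Fin n) (ρ c₀ : ℝ) :
    Set ((Fin n → ℝ) × ℝ) := {v | 0 < Sd F p r i₀ i₁ ρ c₀ v.1 v.2}

lemma measurableSet_Bad {F : (Fin n → ℂ) → ℂ} (hF : Measurable F) (p : Fin n → ℝ) (r : ℝ)
    (i₀ i₁ : Fin n) (ρ c₀ : ℝ) : MeasurableSet (Bad F p r i₀ i₁ ρ c₀) :=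
  measurableSet_lt measurable_const (measurable_Sd hF p r i₀ i₁ ρ c₀)

lemma slice_ineq {p : Fin n → ℝ} {r : ℝ} {F : (Fin n → ℂ) → ℂ} (H : Core p r F)
    (i₀ i₁ : Fin n) {ρ : ℝ} (hρ : 0 < ρ) (hρr : ρ ≤ r / 4) (c₀ : ℝ) (x : Fin n → ℝ) {τ : ℝ}
    (hτ : |τ| ≤ r) :
    ENNReal.ofReal (r / 4) * Sd F p r i₀ i₁ ρ c₀ x τ ≤
      (Bad F p r i₀ i₁ ρ c₀).indicator 1 (x, τ) * ENNReal.ofReal (12 * ρ) *
        ∫⁻ s in Icc (c₀ - r / 8) (c₀ + r / 8),
        nlog (F (xiy (Function.update x i₀ s) (yc p i₀ i₁ τ))) := by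
  by_cases hb : (x, τ) ∈ Bad F p r i₀ i₁ ρ c₀
  · rw [indicator_of_mem hb]
    exact slice_ineq_ind H i₀ i₁ hρ hρr c₀ x hτ 1 (fun _ => rfl)
  · have : Sd F p r i₀ i₁ ρ c₀ x τ = 0 := by
      by_contra h
      exact hb (pos_iff_ne_zero.2 h)
    rw [this, mul_zero]
    exact bot_le

/-- Integration of the slice estimate over a cube. -/
lemma cube_ineq {p : Fin n → ℝ} {r : ℝ} {F : (Fin n → ℂ) → ℂ} (H : Core p r F)
    (i₀ i₁ : Fin n) {ρ : ℝ} (hρ : 0 < ρ) (hρr : ρ ≤ r / 4) (x₀ : Fin n → ℝ) {τ : ℝ}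
    (hτ : |τ| ≤ r) :
    ENNReal.ofReal (r / 4) * ∫⁻ x in cube x₀ (r / 8), Jd F i₀ ρ x (yc p i₀ i₁ τ) ≤
      ENNReal.ofReal (12 * ρ) * ∫⁻ x in cube x₀ (r / 8),
        (Bad F p r i₀ i₁ ρ (x₀ i₀)).indicator 1 (x, τ) * nlog (F (xiy x (yc p i₀ i₁ τ))) := by
  have hcube : (volume : Measure (Fin n → ℝ)).restrict (cube x₀ (r / 8))
        = Measure.pi (fun i => (volume : Measure ℝ).restrict (Icc (x₀ i - r/8) (x₀ i + r/8))) := by
    rw [volume_pi, cube]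
    exact Measure.restrict_pi_pi (fun _ : Fin n => (volume : Measure ℝ)) _
  have hJm : Measurable (fun x : Fin n → ℝ => Jd F i₀ ρ x (yc p i₀ i₁ τ)) :=
    (measurable_Jd H.meas i₀ ρ).comp (measurable_id.prodMk measurable_const)
  have hBm : Measurable (fun x : Fin n → ℝ =>
      (Bad F p r i₀ i₁ ρ (x₀ i₀)).indicator (1 : (Fin n → ℝ) × ℝ → ℝ≥0∞) (x, τ)) :=
    (measurable_one.indicator (measurableSet_Bad H.meas p r i₀ i₁ ρ (x₀ i₀))).comp
      (measurable_id.prodMk measurable_const)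
  have hNm : Measurable (fun x : Fin n → ℝ => nlog (F (xiy x (yc p i₀ i₁ τ)))) :=
    measurable_nlog.comp (H.meas.comp
      (continuous_xiy.comp (continuous_id.prodMk continuous_const)).measurable)
  have hBNm : Measurable (fun x : Fin n → ℝ =>
      (Bad F p r i₀ i₁ ρ (x₀ i₀)).indicator (1 : (Fin n → ℝ) × ℝ → ℝ≥0∞) (x, τ) *
        nlog (F (xiy x (yc p i₀ i₁ τ)))) := hBm.mul hNm
  rw [hcube, ← lintegral_const_mul _ hJm, ← lintegral_const_mul _ hBNm]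
  apply lintegral_le_of_lmarginal_le {i₀} (hJm.const_mul _) (hBNm.const_mul _)
  rw [lmarginal_singleton, lmarginal_singleton]
  intro x
  simp only
  have hux : Measurable (fun s : ℝ => Function.update x i₀ s) :=
    (continuous_const.update i₀ continuous_id).measurable
  have hJu : Measurable (fun s : ℝ => Jd F i₀ ρ (Function.update x i₀ s) (yc p i₀ i₁ τ)) :=
    hJm.comp hux
  have hBNu : Measurable (fun s : ℝ => (Bad F p r i₀ i₁ ρ (x₀ i₀)).indicator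
      (1 : (Fin n → ℝ) × ℝ → ℝ≥0∞) (Function.update x i₀ s, τ) *
        nlog (F (xiy (Function.update x i₀ s) (yc p i₀ i₁ τ)))) := hBNm.comp hux
  have hNu : Measurable (fun s : ℝ => nlog (F (xiy (Function.update x i₀ s) (yc p i₀ i₁ τ)))) :=
    hNm.comp hux
  rw [lintegral_const_mul _ hJu, lintegral_const_mul _ hBNu]
  have h := slice_ineq H i₀ i₁ hρ hρr (x₀ i₀) x hτ
  refine h.trans (le_of_eq ?_)
  have h2 : ∀ s : ℝ, (Bad F p r i₀ i₁ ρ (x₀ i₀)).indicator (1 : (Fin n → ℝ) × ℝ → ℝ≥0∞)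
      (Function.update x i₀ s, τ) = (Bad F p r i₀ i₁ ρ (x₀ i₀)).indicator 1 (x, τ) := by
    intro s
    have h3 : (Function.update x i₀ s, τ) ∈ Bad F p r i₀ i₁ ρ (x₀ i₀) ↔
        (x, τ) ∈ Bad F p r i₀ i₁ ρ (x₀ i₀) := by
      simp only [Bad, mem_ofPred_eq, Sd_update]
    by_cases hb : (x, τ) ∈ Bad F p r i₀ i₁ ρ (x₀ i₀)
    · rw [indicator_of_mem hb, indicator_of_mem (h3.2 hb)]
      rfl
    · rw [indicator_of_notMem hb, indicator_of_notMem (fun h => hb (h3.1 h))]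
  simp only [h2]
  rw [lintegral_const_mul _ hNu]
  ring

end Pool.Agent.Helper65_Jessen
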