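import Pool.Agent.Helper65_Jessen.CoreFalse

set_option autoImplicit false

open Complex Metric Real Set Filter Topology MeasureTheory
open scoped ENNReal

namespace Pool.Agent.Helper65_Jessen

variable {n : ℕ}

theorem core_false {p : Fin n → ℝ} {r : ℝ} {F : (Fin n → ℂ) → ℂ} (H : Core p r F)
    {m : (Fin n → ℝ) → ℝ}
    (hlim : ∀ y : Fin n → ℝ, (∀ j, |y j - p j| ≤ 2 * r) → Tendsto (fun t : ℝ =>
      (ENNReal.ofReal (2 * t) ^ n)⁻¹ * ∫⁻ x in Qo n t, nlog (F (xiy x y))) atTop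
      (𝓝 (ENNReal.ofReal (m y)))) {i₀ i₁ : Fin n} (hne : i₀ ≠ i₁)
    (hc : ∀ ρ : ℝ, 0 < ρ → ρ ≤ r / 4 → ∀ τ ∈ Icc (-r) r,
      (ENNReal.ofReal (2 * π))⁻¹ * (∫⁻ θ in Ioc 0 (2 * π),
      ENNReal.ofReal (m (Function.update (yc p i₀ i₁ τ) i₀
        (yc p i₀ i₁ τ i₀ + ρ * Real.sin θ)))) + ENNReal.ofReal (ρ / π) ≤
        ENNReal.ofReal (m (yc p i₀ i₁ τ))) : False := by
  have hr := H.hr
  have hr1 := H.hr1
  have hπ := Real.pi_pos
  obtain ⟨δ, hδ0, hδ⟩ := bad_measure H i₀ i₁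
  set ρ : ℕ → ℝ := fun k => (r / 4) * (1 / (k + 1 : ℝ)) with hρdef
  have hρ : ∀ k, 0 < ρ k := fun k => by simp only [hρdef]; positivity
  have hρr : ∀ k, ρ k ≤ r / 4 := by
    intro k
    simp only [hρdef]
    apply mul_le_of_le_one_right (by positivity)
    rw [div_le_one (by positivity)]
    have : (0:ℝ) ≤ k := Nat.cast_nonneg k
    linarith
  have hρ0 : Tendsto ρ atTop (𝓝 0) := by
    have := (tendsto_one_div_add_atTop_nhds_zero_nat (𝕜 := ℝ)).const_mul (r / 4)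
    rwa [mul_zero] at this
  have hex : ∀ k, ∃ x : Fin n → ℝ, ENNReal.ofReal (r / 8) ^ n *
      (ENNReal.ofReal (ρ k / π) * ENNReal.ofReal r) ≤
      ∫⁻ x' in cube x (r / 8), ∫⁻ τ in Icc (-r) r, Jd F i₀ (ρ k) x' (yc p i₀ i₁ τ) := by
    intro k
    apply exists_good_cube H hlim i₀ i₁ (hρ k) ((hρr k).trans (by linarith)) _
      ENNReal.ofReal_ne_top (hc (ρ k) (hρ k) (hρr k))
    rw [Ne, ENNReal.ofReal_eq_zero, not_le]
    have := hρ k
    positivity
  choose xs hxs using hex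
  obtain ⟨φ, g, hφ, hgc, hun⟩ := normal_seq r hr H.diff (fun z _ => H.bdd z) xs
  -- shifted bad sets
  set B' : ℕ → Set ((Fin n → ℝ) × ℝ) := fun k =>
    {v | (v.1 + xs (φ k), v.2) ∈ Bad F p r i₀ i₁ (ρ (φ k)) (xs (φ k) i₀)} with hB'
  have hB'm : ∀ k, MeasurableSet (B' k) := by
    intro k
    have h1 : Measurable (fun v : (Fin n → ℝ) × ℝ => (v.1 + xs (φ k), v.2)) := by fun_prop
    exact h1 (measurableSet_Bad H.meas p r i₀ i₁ (ρ (φ k)) (xs (φ k) i₀))
  set μU : Measure ((Fin n → ℝ) × ℝ) := (volume.restrict (cube (0 : Fin n → ℝ) (r / 8))).prod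
    (volume.restrict (Icc (-r) r)) with hμU
  have hcubefin : volume (cube (0 : Fin n → ℝ) (r / 8)) ≠ ⊤ := by
    rw [volume_cube]; exact ENNReal.pow_ne_top ENNReal.ofReal_ne_top
  have : IsFiniteMeasure (volume.restrict (cube (0 : Fin n → ℝ) (r / 8))) := by
    refine ⟨?_⟩
    rw [Measure.restrict_apply_univ]
    exact lt_top_iff_ne_top.2 hcubefin
  have : IsFiniteMeasure μU := by rw [hμU]; infer_instance
  have hBμ : ∀ k, δ ≤ ∫⁻ v, (B' k).indicator (1 : (Fin n → ℝ) × ℝ → ℝ≥0∞) v ∂μU := by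
    intro k
    have h1 := hδ (ρ (φ k)) (hρ _) (hρr _) (xs (φ k)) (hxs (φ k))
    refine h1.trans (le_of_eq ?_)
    rw [hμU, lintegral_prod _ (measurable_one.indicator (hB'm k)).aemeasurable]
    rw [← cube_translate (fun x => ∫⁻ τ in Icc (-r) r,
      (Bad F p r i₀ i₁ (ρ (φ k)) (xs (φ k) i₀)).indicator 1 (x, τ)) (xs (φ k))]
    rfl
  set W : (Fin n → ℝ) × ℝ → ℝ≥0∞ := fun v =>
    limsup (fun k => (B' k).indicator (1 : (Fin n → ℝ) × ℝ → ℝ≥0∞) v) atTop with hW
  have hWm : Measurable W := Measurable.limsup (fun k => measurable_one.indicator (hB'm k))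
  have hWδ : δ ≤ ∫⁻ v, W v ∂μU := by
    have h1 := limsup_lintegral_le (μ := μU)
      (f := fun k => (B' k).indicator (1 : (Fin n → ℝ) × ℝ → ℝ≥0∞)) (fun _ => 1)
      (fun k => measurable_one.indicator (hB'm k)) ?_ ?_
    · refine le_trans ?_ h1
      calc δ = limsup (fun _ : ℕ => δ) atTop := (limsup_const δ).symm
        _ ≤ _ := limsup_le_limsup (Eventually.of_forall hBμ)
    · intro k
      apply Eventually.of_forall
      intro v
      simp only
      exact indicator_le_self' (fun _ _ => zero_le_one) v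
    · rw [lintegral_const, one_mul]
      exact measure_ne_top _ _
  have hWfreq : ∀ v, W v ≠ 0 → ∃ᶠ k in atTop, v ∈ B' k := by
    intro v hv
    by_contra hcon
    rw [not_frequently] at hcon
    apply hv
    simp only [hW]
    have h1 : (fun k => (B' k).indicator (1 : (Fin n → ℝ) × ℝ → ℝ≥0∞) v) =ᶠ[atTop] fun _ => 0 := by
      filter_upwards [hcon] with k hk
      exact indicator_of_notMem hk _
    rw [limsup_congr h1, limsup_const]
  -- the integral of `W` vanishes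
  set f : (Fin n → ℝ) → ℝ≥0∞ := fun x => ∫⁻ τ in Icc (-r) r, W (x, τ) with hf
  have hfm : Measurable f := hWm.lintegral_prod_right'
  have hWf : ∫⁻ v, W v ∂μU = ∫⁻ x in cube (0 : Fin n → ℝ) (r / 8), f x := by
    rw [hμU, lintegral_prod _ hWm.aemeasurable]
  have hne0 := ae_limit_ne_zero H (xs := fun k => xs (φ k)) (g := g)
    (fun z hz => hun.tendsto_at hz)
  have hzero : ∫⁻ x in cube (0 : Fin n → ℝ) (r / 8), f x = 0 := by
    apply slices_zero hfm (by positivity) i₁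
    filter_upwards [hne0, ae_restrict_mem (measurableSet_cube _ _)] with x hx hxc
    have hxc' := mem_cube_zero.1 hxc
    have hnull := slice_null hr H.diff hgc hun hne hxc' hx
    have hWu : Measurable (fun q : ℝ × ℝ => W (Function.update x i₁ q.1, q.2)) := by
      apply hWm.comp
      have h0 : Continuous (fun q : ℝ × ℝ => Function.update x i₁ q.1) :=
        (continuous_const (y := x)).update i₁ continuous_fst
      exact (h0.prodMk continuous_snd).measurable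
    have h1 : ∫⁻ s in Icc (-(r / 8)) (r / 8), f (Function.update x i₁ s) =
        ∫⁻ q in (Icc (-(r / 8)) (r / 8)) ×ˢ (Icc (-r) r), W (Function.update x i₁ q.1, q.2) := by
      have h2 : (volume : Measure (ℝ × ℝ)).restrict ((Icc (-(r / 8)) (r / 8)) ×ˢ (Icc (-r) r)) =
          ((volume : Measure ℝ).restrict (Icc (-(r / 8)) (r / 8))).prod
            ((volume : Measure ℝ).restrict (Icc (-r) r)) := by
        rw [Measure.prod_restrict]; rfl
      rw [h2, lintegral_prod _ hWu.aemeasurable]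
    rw [h1, lintegral_eq_zero_iff hWu]
    rw [EventuallyEq, ae_restrict_iff' (measurableSet_Icc.prod measurableSet_Icc)]
    have h3 : ∀ᵐ q : ℝ × ℝ, q ∉ {q : ℝ × ℝ | |q.1| ≤ r / 8 ∧ |q.2| ≤ r ∧ ∃ ζ : ℂ, |ζ.re| ≤ r / 2 ∧
      ζ.im = p i₀ - q.2 ^ 2 ∧ |q.2 ^ 2| ≤ r ∧
      g (Function.update (xiy (Function.update x i₁ q.1) (yc p i₀ i₁ q.2)) i₀ ζ) = 0} :=
      measure_eq_zero_iff_ae_notMem.1 hnull
    filter_upwards [h3] with q hq hqm
    by_contra hWq
    apply hq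
    have hq1 : |q.1| ≤ r / 8 := abs_le.2 ⟨hqm.1.1, hqm.1.2⟩
    have hq2 : |q.2| ≤ r := abs_le.2 ⟨hqm.2.1, hqm.2.2⟩
    have hWq' : W (Function.update x i₁ q.1, q.2) ≠ 0 := hWq
    have hfr0 := hWfreq (Function.update x i₁ q.1, q.2) hWq'
    have hfr : ∃ᶠ k in atTop, (Function.update x i₁ q.1 + xs (φ k), q.2) ∈
        Bad F p r i₀ i₁ (ρ (φ k)) (xs (φ k) i₀) := by
      refine hfr0.mono (fun k hk => ?_)
      rw [hB'] at hk
      exact hk
    have hxq : ∀ j, |Function.update x i₁ q.1 j| ≤ r / 8 := by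
      intro j
      by_cases hj : j = i₁
      · subst hj; simpa using hq1
      · rw [Function.update_of_ne hj]; exact hxc' j
    exact ⟨hq1, hq2, limit_zero H hρ hρr hρ0 hφ hgc hun hxq hq2 hfr⟩
  rw [hWf, hzero] at hWδ
  exact hδ0 (le_antisymm hWδ bot_le)

end Pool.Agent.Helper65_Jessen
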