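import Pool.Agent.Helper65_Jessen.Defect

set_option autoImplicit false

open Complex Metric Real Set Filter Topology MeasureTheory
open scoped ENNReal

namespace Pool.Agent.Helper65_Jessen

variable {ι : Type*} [Fintype ι] [DecidableEq ι]

/-- The point `x + i y` of `ℂ^ι`. -/
def cpx (x y : ι → ℝ) : ι → ℂ := fun i => (x i : ℂ) + (y i : ℂ) * I

/-- The closed cube with centre `x` and half side length `σ`. -/
def cube (x : ι → ℝ) (σ : ℝ) : Set (ι → ℝ) := Set.pi univ fun i => Icc (x i - σ) (x i + σ)

omit [DecidableEq ι] in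
lemma measurableSet_cube (x : ι → ℝ) (σ : ℝ) : MeasurableSet (cube x σ) :=
  MeasurableSet.univ_pi (fun _ => measurableSet_Icc)

omit [DecidableEq ι] [Fintype ι] in
lemma measurable_cpx_left (y : ι → ℝ) : Measurable (fun x : ι → ℝ => cpx x y) := by
  unfold cpx
  fun_prop

theorem cube_L2 {R : ℝ} (hR : 0 < R) : ∃ K : ℝ≥0∞, K ≠ 0 ∧ K ≠ ⊤ ∧
    ∀ (f : (ι → ℂ) → ℂ) (x y : ι → ℝ) (z₀ : ι → ℂ), Measurable f →
      (∀ z : ι → ℂ, (∀ i, ‖z i - cpx x y i‖ ≤ R / 8) → ∀ i,
        AnalyticOnNhd ℂ (fun ζ => f (Function.update z i ζ)) (closedBall (z i) R) ∧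
        ∀ ζ ∈ closedBall (z i) R, ‖f (Function.update z i ζ)‖ ≤ 1) →
      (∀ i, ‖z₀ i - cpx x y i‖ ≤ R / 8) →
      ∫⁻ x' in cube x (R / 8), (nlog (f (cpx x' y))) ^ 2 ≤ K * (nlog (f z₀)) ^ 2 := by
  obtain ⟨K, hK0, hKtop, hK⟩ := L2_segment hR
  refine ⟨K ^ (Fintype.card ι), pow_ne_zero _ hK0, ENNReal.pow_ne_top hKtop, ?_⟩
  intro f x y z₀ hfm hf hz₀
  classical
  set P : Set (ι → ℂ) := {z | ∀ i, ‖z i - cpx x y i‖ ≤ R / 8} with hP
  have hPm : MeasurableSet P := by
    have : P = ⋂ i, {z : ι → ℂ | ‖z i - cpx x y i‖ ≤ R / 8} := by ext z; simp [hP]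
    rw [this]
    apply MeasurableSet.iInter
    intro i
    apply measurableSet_le <;> fun_prop
  set F : (ι → ℂ) → ℝ≥0∞ := fun z => if z ∈ P then (nlog (f z)) ^ 2 else ⊤ with hF
  have hFm : Measurable F := by
    apply Measurable.ite hPm _ measurable_const
    exact (measurable_nlog.comp hfm).pow_const 2
  set φ : (i : ι) → ℝ → ℂ := fun i s => (s : ℂ) + (y i : ℂ) * I with hφ
  have hφm : ∀ i, Measurable (φ i) := by intro i; simp only [hφ]; fun_prop
  set μ : ι → Measure ℂ := fun i => (volume.restrict (Icc (x i - R/8) (x i + R/8))).map (φ i) with hμ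
  have hkey : ∀ (i : ι) (z : ι → ℂ), ∫⁻ ζ, F (Function.update z i ζ) ∂(μ i) ≤ K * F z := by
    intro i z
    by_cases hz : z ∈ P
    swap
    · have : F z = ⊤ := by simp [hF, hz]
      rw [this, ENNReal.mul_top hK0]
      exact le_top
    rw [hμ]
    simp only
    have hFu : Measurable (fun ζ => F (Function.update z i ζ)) :=
      hFm.comp (measurable_update z)
    rw [lintegral_map hFu (hφm i)]
    have hFz : F z = (nlog (f z)) ^ 2 := by simp [hF, hz]
    have h1 := hK (fun ζ => f (Function.update z i ζ)) (z i) (y i) (x i - R/8) (x i + R/8)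
      (hf z hz i).1 (hf z hz i).2 ?_
    · rw [hFz]
      simp only [Function.update_eq_self] at h1
      refine le_trans (le_of_eq ?_) h1
      apply setLIntegral_congr_fun measurableSet_Icc
      intro s hs
      have hmem : Function.update z i (φ i s) ∈ P := by
        intro j
        by_cases hj : j = i
        · subst hj
          rw [Function.update_self]
          simp only [hφ, cpx]
          have : ((s:ℂ) + (y j : ℂ) * I) - ((x j : ℂ) + (y j : ℂ) * I) = ((s - x j : ℝ) : ℂ) := by
            push_cast; ring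
          rw [this, Complex.norm_real, Real.norm_eq_abs, abs_le]
          constructor <;> linarith [hs.1, hs.2]
        · rw [Function.update_of_ne hj]
          exact hz j
      simp only [hF, hmem, if_true]
      rfl
    · intro s hs
      rw [mem_closedBall, dist_eq_norm]
      have h2 := hz i
      have h3 : ((s:ℂ) + (y i : ℂ) * I) - z i
          = ((s - x i : ℝ) : ℂ) - (z i - cpx x y i) := by
        simp only [cpx]; push_cast; ring
      rw [h3]
      calc ‖((s - x i : ℝ) : ℂ) - (z i - cpx x y i)‖ ≤ ‖((s - x i : ℝ) : ℂ)‖ + ‖z i - cpx x y i‖ :=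
            norm_sub_le _ _
        _ ≤ R / 8 + R / 8 := by
            gcongr
            rw [Complex.norm_real, Real.norm_eq_abs, abs_le]
            constructor <;> linarith [hs.1, hs.2]
        _ = R / 4 := by ring
  have hfin : ∀ i, IsFiniteMeasure (μ i) := by
    intro i
    have : IsFiniteMeasure (volume.restrict (Icc (x i - R/8) (x i + R/8))) := inferInstance
    exact Measure.isFiniteMeasure_map _ _
  have hind : ∀ (s : Finset ι) (z : ι → ℂ), (∫⋯∫⁻_s, F ∂μ) z ≤ K ^ s.card * F z := by
    intro s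
    induction s using Finset.induction_on with
    | empty => intro z; simp
    | insert i s hi ih =>
      intro z
      rw [lmarginal_insert _ hFm hi, Finset.card_insert_of_notMem hi]
      calc ∫⁻ ζ, (∫⋯∫⁻_s, F ∂μ) (Function.update z i ζ) ∂(μ i)
          ≤ ∫⁻ ζ, K ^ s.card * F (Function.update z i ζ) ∂(μ i) := lintegral_mono (fun ζ => ih _)
        _ = K ^ s.card * ∫⁻ ζ, F (Function.update z i ζ) ∂(μ i) :=
            lintegral_const_mul _ (hFm.comp (measurable_update z))
        _ ≤ K ^ s.card * (K * F z) := by gcongr; exact hkey i z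
        _ = _ := by rw [pow_succ]; ring
  have hfinal := hind Finset.univ z₀
  rw [lmarginal_univ] at hfinal
  have hz₀P : z₀ ∈ P := hz₀
  have hFz₀ : F z₀ = (nlog (f z₀)) ^ 2 := by simp [hF, hz₀P]
  rw [hFz₀, Finset.card_univ] at hfinal
  refine le_trans (le_of_eq ?_) hfinal
  have hpi : Measure.pi μ = ((volume : Measure (ι → ℝ)).restrict (cube x (R/8))).map
      (fun x' i => φ i (x' i)) := by
    have h1 : (volume : Measure (ι → ℝ)).restrict (cube x (R/8))
        = Measure.pi (fun i => (volume : Measure ℝ).restrict (Icc (x i - R/8) (x i + R/8))) := by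
      rw [volume_pi, cube]
      exact Measure.restrict_pi_pi (fun _ : ι => (volume : Measure ℝ)) _
    rw [h1, Measure.pi_map_pi (fun i => (hφm i).aemeasurable)]
  rw [hpi, lintegral_map hFm (by fun_prop)]
  apply setLIntegral_congr_fun (measurableSet_cube x (R/8))
  intro x' hx'
  have hmem : (fun i => φ i (x' i)) ∈ P := by
    intro j
    have hj := hx' j (mem_univ j)
    simp only [hφ, cpx]
    have : ((x' j:ℂ) + (y j : ℂ) * I) - ((x j : ℂ) + (y j : ℂ) * I) = ((x' j - x j : ℝ) : ℂ) := by
      push_cast; ring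
    rw [this, Complex.norm_real, Real.norm_eq_abs, abs_le]
    constructor <;> linarith [hj.1, hj.2]
  simp only [hF, hmem, if_true]
  rfl

end Pool.Agent.Helper65_Jessen
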