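import Pool.Agent.Helper65_Jessen.SegmentL2

set_option autoImplicit false

open Complex MeromorphicOn Metric Real Set Filter Topology MeasureTheory InnerProductSpace
open scoped ENNReal

namespace Pool.Agent.Helper65_Jessen

/-- Circle average of `-log|f|` as an extended nonnegative real number. -/
noncomputable def cav (f : ℂ → ℂ) (p : ℂ) (ρ : ℝ) : ℝ≥0∞ :=
  (ENNReal.ofReal (2 * π))⁻¹ * ∫⁻ θ in Ioc 0 (2 * π), nlog (f (circleMap p ρ θ))

lemma cav_eq {f : ℂ → ℂ} {p : ℂ} {ρ : ℝ} (hρ : 0 < ρ) (hf : AnalyticOnNhd ℂ f (closedBall p ρ))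
    (hb : ∀ z ∈ closedBall p ρ, ‖f z‖ ≤ 1) (hfp : f p ≠ 0) :
    cav f p ρ = ENNReal.ofReal (circleAverage (fun z => - Real.log ‖f z‖) p ρ) := by
  have hci : CircleIntegrable (fun z => - Real.log ‖f z‖) p ρ := by
    have : CircleIntegrable (fun z => Real.log ‖f z‖) p ρ := by
      apply MeromorphicOn.circleIntegrable_log_norm
      rw [abs_of_pos hρ]
      exact (hf.mono sphere_subset_closedBall).meromorphicOn
    exact this.neg
  have hne : ∀ᵐ θ ∂(volume.restrict (Ioc 0 (2 * π))), f (circleMap p ρ θ) ≠ 0 := by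
    have e1 : ∀ᶠ z in codiscreteWithin (sphere p |ρ|), f z ≠ 0 := by
      rw [abs_of_pos hρ]
      have := hf.preimage_zero_mem_codiscreteWithin hfp (mem_closedBall_self hρ.le)
        (isConnected_closedBall hρ.le)
      exact codiscreteWithin_mono sphere_subset_closedBall this
    have e2 := codiscreteWithin_mono (Set.subset_univ (Ioc 0 (2 * π)))
      (circleMap_preimage_codiscrete (c := p) hρ.ne' e1)
    exact ae_restrict_le_codiscreteWithin measurableSet_Ioc e2
  have h1 : ∫⁻ θ in Ioc 0 (2 * π), nlog (f (circleMap p ρ θ))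
      = ENNReal.ofReal (∫ θ in (0:ℝ)..(2 * π), - Real.log ‖f (circleMap p ρ θ)‖) := by
    rw [intervalIntegral.integral_of_le (by positivity), ofReal_integral_eq_lintegral_ofReal]
    · apply lintegral_congr_ae
      filter_upwards [hne] with θ hθ
      rw [nlog_of_ne hθ]
    · have := (intervalIntegrable_iff_integrableOn_Ioc_of_le (by positivity)).1 hci
      exact this
    · filter_upwards with θ
      have := Real.log_nonpos (norm_nonneg _)
        (hb _ (sphere_subset_closedBall (circleMap_mem_sphere p hρ.le θ)))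
      simp only [Pi.zero_apply]
      linarith
  unfold cav
  rw [h1, circleAverage, smul_eq_mul, ENNReal.ofReal_mul (p := (2 * π)⁻¹) (by positivity),
    ENNReal.ofReal_inv_of_pos (by positivity)]

lemma defect_eq {f : ℂ → ℂ} {p : ℂ} {ρ : ℝ} (hρ : 0 < ρ) (hf : AnalyticOnNhd ℂ f (closedBall p ρ))
    (hb : ∀ z ∈ closedBall p ρ, ‖f z‖ ≤ 1) (hfp : f p ≠ 0) :
    nlog (f p) - cav f p ρ = ENNReal.ofReal
      (∑ᶠ u, divisor f (closedBall p ρ) u * Real.log (ρ * ‖p - u‖⁻¹)) := by
  have h := AnalyticOnNhd.circleAverage_log_norm (c := p) hρ.ne' (by rwa [abs_of_pos hρ]) hfp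
  rw [abs_of_pos hρ] at h
  rw [cav_eq hρ hf hb hfp, nlog_of_ne hfp]
  have h2 : circleAverage (fun z => - Real.log ‖f z‖) p ρ
      = - circleAverage (fun z => Real.log ‖f z‖) p ρ := by
    have : (fun z => - Real.log ‖f z‖) = fun z => (-1 : ℝ) • Real.log ‖f z‖ := by ext z; simp
    rw [this, circleAverage_fun_smul]; simp
  rw [← ENNReal.ofReal_sub]
  · congr 1
    rw [h2, h]; ring
  · apply circleAverage_nonneg_of_nonneg
    intro x hx
    rw [abs_of_pos hρ] at hx
    have := Real.log_nonpos (norm_nonneg _) (hb x (sphere_subset_closedBall hx))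
    linarith

/-- `log y ≤ 2 √y` for positive `y`. -/
lemma log_le_two_sqrt {y : ℝ} (hy : 0 < y) : Real.log y ≤ 2 * y ^ (1/2 : ℝ) := by
  have := Real.log_le_rpow_div hy.le (show (0:ℝ) < 1/2 by norm_num)
  linarith

lemma zeros_finite {f : ℂ → ℂ} {c : ℂ} {R : ℝ} (hR : 0 ≤ R)
    (hf : AnalyticOnNhd ℂ f (closedBall c R)) {w : ℂ} (hw : w ∈ closedBall c R) (hfw : f w ≠ 0) :
    {z | z ∈ closedBall c R ∧ f z = 0}.Finite := by
  have hfin := (divisor f (closedBall c R)).finiteSupport (isCompact_closedBall c R)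
  apply hfin.subset
  rintro z ⟨hz, hfz⟩
  have htop := order_ne_top hR hf hw hfw ⟨z, hz⟩
  have h1 : meromorphicOrderAt f z ≠ 0 := by
    intro h
    exact (hf z hz).meromorphicNFAt.meromorphicOrderAt_eq_zero_iff.1 h hfz
  rw [Function.mem_support, divisor_apply hf.meromorphicOn hz]
  intro h3
  rcases (WithTop.untop₀_eq_zero).1 h3 with h4 | h4
  · exact h1 h4
  · exact htop h4

lemma divisor_eq_of_mem {f : ℂ → ℂ} {U V : Set ℂ} (hU : AnalyticOnNhd ℂ f U)
    (hV : AnalyticOnNhd ℂ f V) {z : ℂ} (hzU : z ∈ U) (hzV : z ∈ V) :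
    divisor f U z = divisor f V z := by
  rw [divisor_apply hU.meromorphicOn hzU, divisor_apply hV.meromorphicOn hzV]

lemma defect_segment {f : ℂ → ℂ} {R ρ α β b : ℝ} (hρ : 0 < ρ) (hαβ : α < β)
    (hsize : (β - α) + ρ ≤ R / 4)
    (hf : ∀ x ∈ Icc α β, AnalyticOnNhd ℂ f (closedBall ((x:ℂ) + b * I) R))
    (hb : ∀ x ∈ Icc α β, ∀ z ∈ closedBall ((x:ℂ) + b * I) R, ‖f z‖ ≤ 1)
    (ind : ℝ≥0∞) (hind : (∃ ζ : ℂ, α - ρ ≤ ζ.re ∧ ζ.re ≤ β + ρ ∧ |ζ.im - b| ≤ ρ ∧ f ζ = 0) →
      ind = 1) :
    ENNReal.ofReal (β - α) *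
      ∫⁻ x in Icc α β, (nlog (f ((x:ℂ) + b * I)) - cav f ((x:ℂ) + b * I) ρ)
    ≤ ind * ENNReal.ofReal (12 * ρ) * ∫⁻ x in Icc α β, nlog (f ((x:ℂ) + b * I)) := by
  have hR : 0 < R := by linarith
  -- distances on the segment
  have hdist : ∀ x ∈ Icc α β, ∀ y ∈ Icc α β, ‖((x:ℂ) + b * I) - ((y:ℂ) + b * I)‖ ≤ β - α := by
    intro x hx y hy
    have : ((x:ℂ) + b * I) - ((y:ℂ) + b * I) = ((x - y : ℝ) : ℂ) := by push_cast; ring
    rw [this, Complex.norm_real, Real.norm_eq_abs, abs_le]
    constructor <;> linarith [hx.1, hx.2, hy.1, hy.2]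
  by_cases hz : ∃ ζ : ℂ, α - ρ ≤ ζ.re ∧ ζ.re ≤ β + ρ ∧ |ζ.im - b| ≤ ρ ∧ f ζ = 0
  swap
  · -- no zeros: the defect vanishes
    have h0 : ∀ x ∈ Icc α β, (nlog (f ((x:ℂ) + b * I)) - cav f ((x:ℂ) + b * I) ρ) = 0 := by
      intro x hx
      set p : ℂ := (x:ℂ) + b * I with hp
      have hsub : closedBall p ρ ⊆ closedBall p R := closedBall_subset_closedBall (by linarith)
      have hzf : ∀ z ∈ closedBall p ρ, f z ≠ 0 := by
        intro z hzz hfz
        apply hz
        rw [mem_closedBall, dist_eq_norm] at hzz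
        have h1 := (abs_re_le_norm (z - p)).trans hzz
        have h2 := (abs_im_le_norm (z - p)).trans hzz
        have hpre : p.re = x := by simp [hp]
        have hpim : p.im = b := by simp [hp]
        rw [Complex.sub_re, hpre] at h1
        rw [Complex.sub_im, hpim] at h2
        have h3 := abs_le.1 h1
        exact ⟨z, by linarith [hx.1, h3.1], by linarith [hx.2, h3.2], h2, hfz⟩
      have hfp := hzf p (mem_closedBall_self hρ.le)
      rw [defect_eq hρ ((hf x hx).mono hsub) (fun z hz => hb x hx z (hsub hz)) hfp]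
      rw [finsum_eq_zero_of_forall_eq_zero]
      · simp
      intro u
      by_cases hu : u ∈ closedBall p ρ
      · have : divisor f (closedBall p ρ) u = 0 := by
          rw [divisor_apply ((hf x hx).mono hsub).meromorphicOn hu,
            ((hf x hx).mono hsub u hu).meromorphicNFAt.meromorphicOrderAt_eq_zero_iff.2 (hzf u hu)]
          rfl
        rw [this]; simp
      · rw [Function.locallyFinsuppWithin.apply_eq_zero_of_notMem _ hu]; simp
    rw [setLIntegral_congr_fun measurableSet_Icc h0]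
    simp
  rw [hind hz, one_mul]
  by_cases hall : ∀ x ∈ Icc α β, f ((x:ℂ) + b * I) = 0
  · have h1 : ∫⁻ x in Icc α β, nlog (f ((x:ℂ) + b * I)) = ⊤ := by
      rw [setLIntegral_congr_fun measurableSet_Icc (g := fun _ => (⊤:ℝ≥0∞))]
      · rw [setLIntegral_const, Real.volume_Icc, ENNReal.top_mul]
        simp [hαβ]
      · intro x hx
        simp only [hall x hx, nlog_zero]
    rw [h1, ENNReal.mul_top (by simp [hρ])]
    exact le_top
  push Not at hall
  obtain ⟨x₀, hx₀, hfx₀⟩ := hall
  set c₀ : ℂ := (x₀:ℂ) + b * I with hc₀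
  have hsub0 : closedBall c₀ (R/4) ⊆ closedBall c₀ R := closedBall_subset_closedBall (by linarith)
  have hf0 : AnalyticOnNhd ℂ f (closedBall c₀ (R/4)) := (hf x₀ hx₀).mono hsub0
  set D := divisor f (closedBall c₀ (R/4)) with hD
  have hfin : D.support.Finite := D.finiteSupport (isCompact_closedBall _ _)
  set S := hfin.toFinset with hS
  have hDnn : ∀ i, (0:ℝ) ≤ (D i : ℝ) := by
    intro i
    have := (AnalyticOnNhd.divisor_nonneg hf0) i
    exact_mod_cast this
  have hSball : ∀ i ∈ S, i ∈ closedBall c₀ (R/4) := by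
    intro i hi
    by_contra hcon
    have : D i = 0 := Function.locallyFinsuppWithin.apply_eq_zero_of_notMem _ hcon
    simp [hS, this] at hi
  set N : ℝ := ∑ u ∈ S, (D u : ℝ) with hN
  have hNnn : 0 ≤ N := Finset.sum_nonneg (fun i _ => hDnn i)
  -- a.e. nonvanishing
  have hne : ∀ᵐ (x : ℝ) ∂(volume.restrict (Icc α β)), f ((x:ℂ) + b * I) ≠ 0 := by
    have hfz := zeros_finite (by linarith) hf0 (mem_closedBall_self (by linarith)) hfx₀
    rw [ae_restrict_iff' measurableSet_Icc, ae_iff]
    apply measure_mono_null (t := Complex.re '' {z | z ∈ closedBall c₀ (R/4) ∧ f z = 0})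
    · intro x hx
      simp only [mem_ofPred_eq, Classical.not_imp, not_not] at hx
      refine ⟨(x:ℂ) + b * I, ⟨?_, hx.2⟩, by simp⟩
      rw [mem_closedBall, dist_eq_norm]
      exact (hdist x hx.1 x₀ hx₀).trans (by linarith)
    · exact (hfz.image _).measure_zero _
  -- number of zeros
  have hNle : ∀ x ∈ Icc α β, f ((x:ℂ) + b * I) ≠ 0 →
      N * Real.log 2 ≤ - Real.log ‖f ((x:ℂ) + b * I)‖ := by
    intro x hx hfx
    set c' : ℂ := (x:ℂ) + b * I with hc'
    have hsub2 : closedBall c' (R/2) ⊆ closedBall c' R := closedBall_subset_closedBall (by linarith)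
    have hsub3 : closedBall c₀ (R/4) ⊆ closedBall c' (R/2) := by
      intro z hz
      rw [mem_closedBall, dist_eq_norm] at hz ⊢
      have := hdist x₀ hx₀ x hx
      calc ‖z - c'‖ = ‖(z - c₀) + (c₀ - c')‖ := by congr 1; ring
        _ ≤ ‖z - c₀‖ + ‖c₀ - c'‖ := norm_add_le _ _
        _ ≤ R / 4 + (β - α) := add_le_add hz this
        _ ≤ R / 2 := by linarith
    have h1 := AnalyticOnNhd.sum_divisor_le (c := c') (r := R/2) (R := R) (M := 1) (f := f)
      (by rw [abs_of_pos (by linarith)]; linarith)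
      (by rw [abs_of_pos (by linarith : (0:ℝ) < R/2), abs_of_pos hR]; linarith) le_rfl
      (by rw [abs_of_pos hR]; exact hf x hx) hfx
      (by rw [abs_of_pos hR]; exact fun z hz => hb x hx z (sphere_subset_closedBall hz))
    rw [abs_of_pos (by linarith : (0:ℝ) < R/2)] at h1
    have h2 : R / (R/2) = 2 := by field_simp
    rw [h2, one_div, Real.log_inv, le_div_iff₀ (Real.log_pos (by norm_num))] at h1
    refine le_trans ?_ h1
    gcongr
    have hf2 : AnalyticOnNhd ℂ f (closedBall c' (R/2)) := (hf x hx).mono hsub2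
    have hfin2 := (divisor f (closedBall c' (R/2))).finiteSupport (isCompact_closedBall c' (R/2))
    have h3 : ∑ᶠ u, divisor f (closedBall c' (R/2)) u
        = ∑ u ∈ hfin2.toFinset, divisor f (closedBall c' (R/2)) u := by
      apply finsum_eq_sum_of_support_subset
      simp
    rw [h3]
    push_cast
    calc N = ∑ u ∈ S, ((divisor f (closedBall c' (R/2)) u : ℤ) : ℝ) := by
          apply Finset.sum_congr rfl
          intro u hu
          rw [hD, divisor_eq_of_mem hf0 hf2 (hSball u hu) (hsub3 (hSball u hu))]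
      _ ≤ _ := by
          apply Finset.sum_le_sum_of_subset_of_nonneg
          · intro u hu
            have h4 : D u ≠ 0 := by simpa [hS] using hu
            rw [hD, divisor_eq_of_mem hf0 hf2 (hSball u hu) (hsub3 (hSball u hu))] at h4
            simpa using h4
          · intro u _ _
            have := (AnalyticOnNhd.divisor_nonneg hf2) u
            exact_mod_cast this
  -- pointwise bound of the defect
  set h : ℝ → ℝ≥0∞ := fun t => (Icc (-ρ) ρ).indicator
    (fun t => ENNReal.ofReal ((ρ / |t|) ^ (1/2 : ℝ))) t with hh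
  have hnull : ∀ᵐ (x : ℝ) ∂(volume : Measure ℝ), ∀ u ∈ S, x ≠ u.re := by
    rw [Finset.eventually_all]
    intro i _
    have : {x : ℝ | ¬ (x ≠ i.re)} = {i.re} := by
      ext s
      simp
    rw [ae_iff, this]
    simp
  have hdef : ∀ᵐ (x : ℝ) ∂(volume.restrict (Icc α β)),
      (nlog (f ((x:ℂ) + b * I)) - cav f ((x:ℂ) + b * I) ρ)
        ≤ ∑ u ∈ S, ENNReal.ofReal (2 * (D u : ℝ)) * h (x - u.re) := by
    filter_upwards [hne, ae_restrict_of_ae hnull, self_mem_ae_restrict measurableSet_Icc]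
      with x hfx hxu hx
    set p : ℂ := (x:ℂ) + b * I with hp
    have hpre : p.re = x := by simp [hp]
    have hsub : closedBall p ρ ⊆ closedBall p R := closedBall_subset_closedBall (by linarith)
    have hfpρ : AnalyticOnNhd ℂ f (closedBall p ρ) := (hf x hx).mono hsub
    have hsub4 : closedBall p ρ ⊆ closedBall c₀ (R/4) := by
      intro z hz
      rw [mem_closedBall, dist_eq_norm] at hz ⊢
      have := hdist x hx x₀ hx₀
      calc ‖z - c₀‖ = ‖(z - p) + (p - c₀)‖ := by congr 1; ring
        _ ≤ ‖z - p‖ + ‖p - c₀‖ := norm_add_le _ _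
        _ ≤ ρ + (β - α) := add_le_add hz this
        _ ≤ R / 4 := by linarith
    rw [defect_eq hρ hfpρ (fun z hz => hb x hx z (hsub hz)) hfx]
    have h1 : ∑ᶠ u, divisor f (closedBall p ρ) u * Real.log (ρ * ‖p - u‖⁻¹)
        = ∑ u ∈ S, (divisor f (closedBall p ρ) u : ℝ) * Real.log (ρ * ‖p - u‖⁻¹) := by
      apply finsum_eq_sum_of_support_subset
      intro u hu
      rw [Function.mem_support] at hu
      have hu1 : divisor f (closedBall p ρ) u ≠ 0 := by
        intro h0; apply hu; rw [h0]; simp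
      have hu2 : u ∈ closedBall p ρ := by
        by_contra hcon
        exact hu1 (Function.locallyFinsuppWithin.apply_eq_zero_of_notMem _ hcon)
      rw [divisor_eq_of_mem hfpρ hf0 hu2 (hsub4 hu2), ← hD] at hu1
      simpa [hS] using hu1
    rw [h1]
    have hle : ∑ u ∈ S, (divisor f (closedBall p ρ) u : ℝ) * Real.log (ρ * ‖p - u‖⁻¹)
        ≤ ∑ u ∈ S, (2 * (D u : ℝ)) * (Icc (-ρ) ρ).indicator
          (fun t : ℝ => (ρ / |t|) ^ (1/2 : ℝ)) (x - u.re) := by
      apply Finset.sum_le_sum
      intro u hu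
      by_cases hup : u ∈ closedBall p ρ
      · rw [divisor_eq_of_mem hfpρ hf0 hup (hsub4 hup), ← hD]
        rw [mem_closedBall, dist_eq_norm] at hup
        have h2 : |x - u.re| ≤ ‖p - u‖ := by
          have := abs_re_le_norm (p - u)
          rwa [Complex.sub_re, hpre] at this
        have h3 : 0 < |x - u.re| := abs_pos.2 (sub_ne_zero.2 (hxu u hu))
        have h4 : |x - u.re| ≤ ρ := h2.trans (by rw [norm_sub_rev]; exact hup)
        rw [indicator_of_mem (show x - u.re ∈ Icc (-ρ) ρ from abs_le.1 h4)]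
        have h5 : Real.log (ρ * ‖p - u‖⁻¹) ≤ 2 * (ρ / |x - u.re|) ^ (1/2 : ℝ) := by
          calc Real.log (ρ * ‖p - u‖⁻¹) ≤ Real.log (ρ / |x - u.re|) := by
                apply Real.log_le_log
                · have : 0 < ‖p - u‖ := by linarith
                  positivity
                · rw [div_eq_mul_inv]
                  gcongr
            _ ≤ _ := log_le_two_sqrt (by positivity)
        calc (D u : ℝ) * Real.log (ρ * ‖p - u‖⁻¹)
            ≤ (D u : ℝ) * (2 * (ρ / |x - u.re|) ^ (1/2 : ℝ)) := by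
              have := hDnn u
              gcongr
          _ = _ := by ring
      · rw [Function.locallyFinsuppWithin.apply_eq_zero_of_notMem _ hup]
        have h6 := hDnn u
        have h7 : 0 ≤ (Icc (-ρ) ρ).indicator (fun t : ℝ => (ρ / |t|) ^ (1/2 : ℝ)) (x - u.re) := by
          apply indicator_nonneg
          intro t _
          positivity
        simp only [Int.cast_zero, zero_mul]
        positivity
    refine (ENNReal.ofReal_le_ofReal hle).trans ?_
    rw [ENNReal.ofReal_sum_of_nonneg]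
    swap
    · intro u _
      have h6 := hDnn u
      have h7 : 0 ≤ (Icc (-ρ) ρ).indicator (fun t : ℝ => (ρ / |t|) ^ (1/2 : ℝ)) (x - u.re) := by
        apply indicator_nonneg
        intro t _
        positivity
      positivity
    apply Finset.sum_le_sum
    intro u _
    rw [ENNReal.ofReal_mul (by have := hDnn u; positivity)]
    gcongr
    simp only [hh]
    by_cases hm : (x - u.re) ∈ Icc (-ρ) ρ
    · rw [indicator_of_mem hm, indicator_of_mem hm]
    · rw [indicator_of_notMem hm]; simp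
  have hhmeas : Measurable h := by
    simp only [hh]
    apply Measurable.indicator _ measurableSet_Icc
    fun_prop
  have hhint : ∀ u : ℂ, ∫⁻ x in Icc α β, h (x - u.re) ≤ ENNReal.ofReal (4 * ρ) := by
    intro u
    calc ∫⁻ x in Icc α β, h (x - u.re) ≤ ∫⁻ x, h (x - u.re) := setLIntegral_le_lintegral _ _
      _ = ∫⁻ x, h x := lintegral_sub_right_eq_self _ _
      _ = ∫⁻ t in Icc (-ρ) ρ, ENNReal.ofReal ((ρ / |t|) ^ (1/2 : ℝ)) := by
          simp only [hh]
          rw [lintegral_indicator measurableSet_Icc]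
      _ ≤ ENNReal.ofReal (4 * √ρ * √ρ) := lint_sqrt_Icc hρ hρ
      _ = ENNReal.ofReal (4 * ρ) := by
          rw [mul_assoc, Real.mul_self_sqrt hρ.le]
  have hstep1 : ∫⁻ x in Icc α β, (nlog (f ((x:ℂ) + b * I)) - cav f ((x:ℂ) + b * I) ρ)
      ≤ ENNReal.ofReal (8 * ρ) * ENNReal.ofReal N := by
    refine (lintegral_mono_ae hdef).trans ?_
    rw [lintegral_finsetSum]
    swap
    · intro u _; fun_prop
    calc ∑ u ∈ S, (∫⁻ x in Icc α β, ENNReal.ofReal (2 * (D u : ℝ)) * h (x - u.re))
        ≤ ∑ u ∈ S, ENNReal.ofReal (2 * (D u : ℝ)) * ENNReal.ofReal (4 * ρ) := by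
          apply Finset.sum_le_sum
          intro u _
          rw [lintegral_const_mul _ (by fun_prop)]
          gcongr
          exact hhint u
      _ = ENNReal.ofReal (8 * ρ) * ENNReal.ofReal N := by
          rw [← Finset.sum_mul, ← ENNReal.ofReal_sum_of_nonneg, ← Finset.mul_sum, ← hN,
            ← ENNReal.ofReal_mul (by positivity), ← ENNReal.ofReal_mul (by positivity)]
          · congr 1; ring
          · intro u _
            have := hDnn u
            positivity
  have hstep2 : ENNReal.ofReal (β - α) * ENNReal.ofReal (N * Real.log 2)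
      ≤ ∫⁻ x in Icc α β, nlog (f ((x:ℂ) + b * I)) := by
    calc ENNReal.ofReal (β - α) * ENNReal.ofReal (N * Real.log 2)
        = ∫⁻ x in Icc α β, ENNReal.ofReal (N * Real.log 2) := by
          rw [setLIntegral_const, Real.volume_Icc, mul_comm]
      _ ≤ _ := by
          apply lintegral_mono_ae
          filter_upwards [hne, self_mem_ae_restrict measurableSet_Icc] with x hfx hx
          rw [nlog_of_ne hfx]
          exact ENNReal.ofReal_le_ofReal (hNle x hx hfx)
  calc ENNReal.ofReal (β - α) *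
        ∫⁻ x in Icc α β, (nlog (f ((x:ℂ) + b * I)) - cav f ((x:ℂ) + b * I) ρ)
      ≤ ENNReal.ofReal (β - α) * (ENNReal.ofReal (8 * ρ) * ENNReal.ofReal N) := by gcongr
    _ ≤ ENNReal.ofReal (β - α) * (ENNReal.ofReal (12 * ρ) * ENNReal.ofReal (N * Real.log 2)) := by
        refine mul_le_mul_right ?_ _
        rw [← ENNReal.ofReal_mul (by positivity), ← ENNReal.ofReal_mul (by positivity)]
        apply ENNReal.ofReal_le_ofReal
        have := Real.log_two_gt_d9
        have h8 : 8 ≤ 12 * Real.log 2 := by linarith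
        calc 8 * ρ * N ≤ (12 * Real.log 2) * ρ * N := by gcongr
          _ = 12 * ρ * (N * Real.log 2) := by ring
    _ = ENNReal.ofReal (12 * ρ) * (ENNReal.ofReal (β - α) * ENNReal.ofReal (N * Real.log 2)) := by
        ring
    _ ≤ _ := by gcongr

end Pool.Agent.Helper65_Jessen
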