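import Pool.Agent.Helper65_Jessen.NonDeg
import Pool.Agent.Helper65_Jessen.CubeL2
import Pool.Agent.Helper65_Jessen.Defect

set_option autoImplicit false

open Complex Metric Real Set Filter Topology MeasureTheory
open scoped ENNReal

namespace Pool.Agent.Helper65_Jessen

variable {n : ℕ}

/-- A measurable function bounded by `1`, holomorphic in a strip, almost periodic there, and not
identically zero. -/
structure Core (p : Fin n → ℝ) (r : ℝ) (F : (Fin n → ℂ) → ℂ) : Prop where
  hr : 0 < r
  hr1 : r ≤ 1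
  meas : Measurable F
  diff : DifferentiableOn ℂ F (strip p (4 * r))
  bdd : ∀ z, ‖F z‖ ≤ 1
  ap : APon p (3 * r) F
  nz : ∃ z₀ ∈ strip p (3 * r), F z₀ ≠ 0

lemma xiy_eq_cpx (x y : Fin n → ℝ) : xiy x y = cpx x y := rfl

lemma Core.analytic_update {p : Fin n → ℝ} {r : ℝ} {F : (Fin n → ℂ) → ℂ} (H : Core p r F)
    (z : Fin n → ℂ) (i : Fin n) (S : Set ℂ) (hS : ∀ ζ ∈ S, Function.update z i ζ ∈ strip p (4 * r)) :
    AnalyticOnNhd ℂ (fun ζ => F (Function.update z i ζ)) S := by
  have hcont : Continuous (fun ζ : ℂ => Function.update z i ζ) := continuous_const.update i continuous_id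
  have hU : IsOpen {ζ : ℂ | Function.update z i ζ ∈ strip p (4 * r)} :=
    (isOpen_strip p (4 * r)).preimage hcont
  have hd : DifferentiableOn ℂ (fun ζ => F (Function.update z i ζ))
      {ζ : ℂ | Function.update z i ζ ∈ strip p (4 * r)} := by
    apply H.diff.comp (t := strip p (4 * r))
    · apply Differentiable.differentiableOn
      rw [differentiable_pi]
      intro j
      by_cases hj : j = i
      · subst hj; simp only [Function.update_self]; exact differentiable_id
      · simp only [Function.update_of_ne hj]; fun_prop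
    · intro ζ hζ; exact hζ
  exact (hd.analyticOnNhd hU).mono hS

lemma Core.ul2 {p : Fin n → ℝ} {r : ℝ} {F : (Fin n → ℂ) → ℂ} (H : Core p r F) :
    ∃ C : ℝ≥0∞, C ≠ ⊤ ∧ ∀ x y : Fin n → ℝ, (∀ j, |y j - p j| ≤ 2 * r) →
      ∫⁻ x' in cube x (r / 8), (nlog (F (xiy x' y))) ^ 2 ≤ C := by
  have hr := H.hr
  obtain ⟨z₀, hz₀, hFz₀⟩ := H.nz
  obtain ⟨η, hη, hnd⟩ := nondeg hr (show (0:ℝ) < r / 8 by positivity) H.diff
    (fun z _ => H.bdd z) H.ap hz₀ hFz₀
  obtain ⟨K, hK0, hKtop, hK⟩ := cube_L2 (ι := Fin n) hr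
  refine ⟨K * (ENNReal.ofReal (- Real.log η)) ^ 2, ENNReal.mul_ne_top hKtop
    (ENNReal.pow_ne_top ENNReal.ofReal_ne_top), ?_⟩
  intro x y hy
  obtain ⟨z', hz', hFz'⟩ := hnd x y hy
  have h1 := hK F x y z' H.meas ?_ hz'
  · refine h1.trans ?_
    gcongr
    have hne : F z' ≠ 0 := by
      intro h0; rw [h0, norm_zero] at hFz'; linarith
    rw [nlog_of_ne hne]
    apply ENNReal.ofReal_le_ofReal
    have := Real.log_le_log hη hFz'
    linarith
  · intro z hz i
    have hupd : ∀ ζ ∈ closedBall (z i) r, Function.update z i ζ ∈ strip p (4 * r) := by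
      intro ζ hζ j
      have hzj : ∀ j, |(z j).im - y j| ≤ r / 8 := by
        intro j
        have h2 := (Complex.abs_im_le_norm (z j - cpx x y j)).trans (hz j)
        simpa [cpx] using h2
      by_cases hj : j = i
      · subst hj
        simp only [Function.update_self]
        rw [mem_closedBall, dist_eq_norm] at hζ
        have h3 := (Complex.abs_im_le_norm (ζ - z j)).trans hζ
        simp only [Complex.sub_im] at h3
        have h4 := hzj j
        have h5 := hy j
        rw [abs_lt]
        rw [abs_le] at h3 h4 h5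
        constructor <;> linarith [h3.1, h3.2, h4.1, h4.2, h5.1, h5.2]
      · simp only [Function.update_of_ne hj]
        have h4 := hzj j
        have h5 := hy j
        rw [abs_lt]
        rw [abs_le] at h4 h5
        constructor <;> linarith [h4.1, h4.2, h5.1, h5.2]
    exact ⟨H.analytic_update z i _ hupd, fun ζ _ => H.bdd _⟩

/-- Uniform local `L¹` bound. -/
lemma Core.ul1 {p : Fin n → ℝ} {r : ℝ} {F : (Fin n → ℂ) → ℂ} (H : Core p r F) :
    ∃ C : ℝ≥0∞, C ≠ ⊤ ∧ ∀ x y : Fin n → ℝ, (∀ j, |y j - p j| ≤ 2 * r) →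
      ∫⁻ x' in cube x (r / 8), nlog (F (xiy x' y)) ≤ C := by
  obtain ⟨C, hC, h⟩ := H.ul2
  have hr := H.hr
  refine ⟨ENNReal.ofReal (r / 4) ^ n + C, ENNReal.add_ne_top.2 ⟨ENNReal.pow_ne_top
    ENNReal.ofReal_ne_top, hC⟩, ?_⟩
  intro x y hy
  have hvol : volume (cube x (r / 8)) = ENNReal.ofReal (r / 4) ^ n := by
    unfold cube
    rw [volume_pi_pi]
    simp only [Real.volume_Icc]
    have : ∀ i, x i + r / 8 - (x i - r / 8) = r / 4 := fun i => by ring
    simp [this]
  calc ∫⁻ x' in cube x (r / 8), nlog (F (xiy x' y))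
      ≤ ∫⁻ x' in cube x (r / 8), (1 + (nlog (F (xiy x' y))) ^ 2) := by
        apply lintegral_mono
        intro x'
        simp only
        rcases le_total (nlog (F (xiy x' y))) 1 with h1 | h1
        · exact h1.trans le_self_add
        · calc nlog (F (xiy x' y)) = nlog (F (xiy x' y)) * 1 := (mul_one _).symm
            _ ≤ nlog (F (xiy x' y)) * nlog (F (xiy x' y)) := by gcongr
            _ = (nlog (F (xiy x' y))) ^ 2 := by ring
            _ ≤ _ := le_add_self
    _ = ENNReal.ofReal (r / 4) ^ n + ∫⁻ x' in cube x (r / 8), (nlog (F (xiy x' y))) ^ 2 := by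
        rw [lintegral_add_left measurable_const]
        simp [hvol]
    _ ≤ _ := by gcongr; exact h x y hy

end Pool.Agent.Helper65_Jessen
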