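import Pool.Agent.Helper65_Jessen.LimitAE

set_option autoImplicit false

open Complex Metric Real Set Filter Topology MeasureTheory
open scoped ENNReal

namespace Pool.Agent.Helper65_Jessen

variable {n : ℕ}

/-- If the integral over the slices in the direction `i` vanishes almost everywhere then the
integral vanishes. -/
lemma slices_zero {f : (Fin n → ℝ) → ℝ≥0∞} (hf : Measurable f) {σ : ℝ} (hσ : 0 < σ) (i : Fin n)
    (h : ∀ᵐ x ∂(volume.restrict (cube (0 : Fin n → ℝ) σ)),
      ∫⁻ s in Icc (-σ) σ, f (Function.update x i s) = 0) :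
    ∫⁻ x in cube (0 : Fin n → ℝ) σ, f x = 0 := by
  have hcube : (volume : Measure (Fin n → ℝ)).restrict (cube 0 σ)
        = Measure.pi (fun _ => (volume : Measure ℝ).restrict (Icc (-σ) σ)) := by
    have : cube (0 : Fin n → ℝ) σ = Set.pi univ (fun _ => Icc (-σ) σ) := by
      simp [cube]
    rw [volume_pi, this]
    exact Measure.restrict_pi_pi (fun _ : Fin n => (volume : Measure ℝ)) _
  set c : ℝ≥0∞ := (ENNReal.ofReal (2 * σ))⁻¹ with hc
  have hc1 : c * ENNReal.ofReal (2 * σ) = 1 := by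
    rw [hc, ENNReal.inv_mul_cancel]
    · rw [Ne, ENNReal.ofReal_eq_zero, not_le]; positivity
    · exact ENNReal.ofReal_ne_top
  have hctop : c ≠ ⊤ := by
    rw [hc, Ne, ENNReal.inv_eq_top, ENNReal.ofReal_eq_zero, not_le]; positivity
  have hfu : Measurable (fun v : (Fin n → ℝ) × ℝ => f (Function.update v.1 i v.2)) := by
    apply hf.comp
    exact (continuous_fst.update i continuous_snd).measurable
  have hNm : Measurable (fun x : Fin n → ℝ => ∫⁻ s in Icc (-σ) σ, f (Function.update x i s)) :=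
    hfu.lintegral_prod_right'
  have hle : ∫⁻ x in cube (0 : Fin n → ℝ) σ, f x ≤ ∫⁻ x in cube (0 : Fin n → ℝ) σ,
      c * ∫⁻ s in Icc (-σ) σ, f (Function.update x i s) := by
    rw [hcube]
    apply lintegral_le_of_lmarginal_le {i} hf (hNm.const_mul c)
    rw [lmarginal_singleton, lmarginal_singleton]
    intro x
    simp only [Function.update_idem]
    rw [setLIntegral_const, Real.volume_Icc]
    have e1 : σ - -σ = 2 * σ := by ring
    rw [e1, mul_comm c, mul_assoc, hc1, mul_one]
  have hz : ∫⁻ x in cube (0 : Fin n → ℝ) σ,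
      c * ∫⁻ s in Icc (-σ) σ, f (Function.update x i s) = 0 := by
    rw [lintegral_const_mul' _ _ hctop]
    rw [(lintegral_eq_zero_iff hNm).2 h, mul_zero]
  exact le_antisymm (hle.trans hz.le) bot_le

/-- A limit point of zeros gives a zero of the limit function on the hypersurface. -/
lemma limit_zero {p : Fin n → ℝ} {r : ℝ} {F : (Fin n → ℂ) → ℂ} (H : Core p r F)
    {i₀ i₁ : Fin n} {xs : ℕ → Fin n → ℝ} {ρ : ℕ → ℝ} (hρ : ∀ k, 0 < ρ k) (hρr : ∀ k, ρ k ≤ r / 4)
    (hρ0 : Tendsto ρ atTop (𝓝 0)) {g : (Fin n → ℂ) → ℂ} {φ : ℕ → ℕ} (hφ : StrictMono φ)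
    (hgc : ContinuousOn g (kbox p r (3 * r)))
    (hlim : TendstoUniformlyOn (fun k z => F (shift (xs (φ k)) z)) g atTop (kbox p r (3 * r)))
    {x : Fin n → ℝ} (hx : ∀ j, |x j| ≤ r / 8) {τ : ℝ} (hτ : |τ| ≤ r)
    (hfreq : ∃ᶠ k in atTop, (x + xs (φ k), τ) ∈ Bad F p r i₀ i₁ (ρ (φ k)) (xs (φ k) i₀)) :
    ∃ ζ : ℂ, |ζ.re| ≤ r / 2 ∧ ζ.im = p i₀ - τ ^ 2 ∧ |τ ^ 2| ≤ r ∧
      g (Function.update (xiy x (yc p i₀ i₁ τ)) i₀ ζ) = 0 := by
  have hr := H.hr
  have hr1 := H.hr1
  obtain ⟨ψ, hψ, hP⟩ := extraction_of_frequently_atTop hfreq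
  have hyn := yc_near p i₀ i₁ hr hr1 hτ
  set y := yc p i₀ i₁ τ with hy
  have hex : ∀ k, ∃ ζ : ℂ, |ζ.re| ≤ r / 2 ∧ |ζ.im - y i₀| ≤ ρ (φ (ψ k)) ∧
      F (shift (xs (φ (ψ k))) (Function.update (xiy x y) i₀ ζ)) = 0 := by
    intro k
    obtain ⟨ζ, h1, h2, h3⟩ := bad_zero H i₀ i₁ (hρ (φ (ψ k))) (hρr _) _ _ hτ (hP k)
    refine ⟨ζ - (xs (φ (ψ k)) i₀ : ℂ), ?_, ?_, ?_⟩
    · rw [Complex.sub_re, Complex.ofReal_re]
      have := hρr (φ (ψ k))
      linarith
    · rw [Complex.sub_im, Complex.ofReal_im, sub_zero]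
      exact h2
    · rw [← h3]
      congr 1
      ext j
      by_cases hj : j = i₀
      · subst hj
        simp [shift]
      · simp only [shift, Function.update_of_ne hj, xiy, Pi.add_apply]
        push_cast
        ring
  choose ζ hζ1 hζ2 hζ3 using hex
  -- compactness
  set K : Set ℂ := closedBall (((y i₀ : ℝ) : ℂ) * I) r with hK
  have hζK : ∀ k, ζ k ∈ K := by
    intro k
    rw [hK, mem_closedBall, dist_eq_norm]
    calc ‖ζ k - ((y i₀ : ℝ) : ℂ) * I‖ ≤ |(ζ k - ((y i₀ : ℝ) : ℂ) * I).re| +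
          |(ζ k - ((y i₀ : ℝ) : ℂ) * I).im| := Complex.norm_le_abs_re_add_abs_im _
      _ = |(ζ k).re| + |(ζ k).im - y i₀| := by simp
      _ ≤ r / 2 + r / 4 := add_le_add (hζ1 k) ((hζ2 k).trans (hρr _))
      _ ≤ r := by linarith
  obtain ⟨ζ', hζ'K, χ, hχ, hζlim⟩ := (isCompact_closedBall _ _).tendsto_subseq hζK
  refine ⟨ζ', ?_, ?_, ?_, ?_⟩
  · have h1 : Tendsto (fun k => |(ζ (χ k)).re|) atTop (𝓝 |ζ'.re|) := by
      have : Continuous (fun z : ℂ => |z.re|) := by fun_prop
      exact (this.tendsto _).comp hζlim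
    exact le_of_tendsto h1 (Eventually.of_forall (fun k => hζ1 _))
  · have h1 : Tendsto (fun k => |(ζ (χ k)).im - y i₀|) atTop (𝓝 |ζ'.im - y i₀|) := by
      have : Continuous (fun z : ℂ => |z.im - y i₀|) := by fun_prop
      exact (this.tendsto _).comp hζlim
    have h2 : Tendsto (fun k => ρ (φ (ψ (χ k)))) atTop (𝓝 0) :=
      hρ0.comp (hφ.tendsto_atTop.comp (hψ.tendsto_atTop.comp hχ.tendsto_atTop))
    have h3 : |ζ'.im - y i₀| ≤ 0 := le_of_tendsto_of_tendsto h1 h2
      (Eventually.of_forall (fun k => hζ2 _))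
    have h4 : ζ'.im - y i₀ = 0 := abs_eq_zero.1 (le_antisymm h3 (abs_nonneg _))
    have h5 : y i₀ = p i₀ - τ ^ 2 := yc_i₀ p i₀ i₁ τ
    linarith
  · have h1 : |τ ^ 2| = |τ| ^ 2 := by rw [abs_pow]
    rw [h1]
    have := abs_nonneg τ
    nlinarith
  · -- points in the box
    have hbox : ∀ ξ ∈ K, Function.update (xiy x y) i₀ ξ ∈ kbox p r (3 * r) := by
      intro ξ hξ
      rw [hK, mem_closedBall, dist_eq_norm] at hξ
      have h1 := (Complex.abs_re_le_norm _).trans hξ
      have h2 := (Complex.abs_im_le_norm _).trans hξ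
      have h1' : |ξ.re| ≤ r := by simpa using h1
      have h2' : |ξ.im - y i₀| ≤ r := by simpa using h2
      constructor
      · intro j
        by_cases hj : j = i₀
        · subst hj; simpa using h1'
        · simp only [Function.update_of_ne hj]
          have : (xiy x y j).re = x j := by simp [xiy]
          rw [this]
          exact (hx j).trans (by linarith)
      · intro j
        by_cases hj : j = i₀
        · subst hj
          simp only [Function.update_self]
          calc |ξ.im - p j| = |(ξ.im - y j) + (y j - p j)| := by ring_nf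
            _ ≤ |ξ.im - y j| + |y j - p j| := abs_add_le _ _
            _ ≤ r + r := add_le_add h2' (hyn j)
            _ ≤ 3 * r := by linarith
        · simp only [Function.update_of_ne hj]
          have : (xiy x y j).im = y j := by simp [xiy]
          rw [this]
          exact (hyn j).trans (by linarith)
    have hcu : Continuous (fun ξ : ℂ => Function.update (xiy x y) i₀ ξ) :=
      continuous_const.update i₀ continuous_id
    have hlim' : TendstoUniformlyOn (fun k z => F (shift (xs (φ (ψ (χ k)))) z)) g atTop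
        (kbox p r (3 * r)) := by
      intro u hu
      exact (hψ.tendsto_atTop.comp hχ.tendsto_atTop).eventually (hlim u hu)
    have h1 : Tendsto (fun k => F (shift (xs (φ (ψ (χ k)))) (Function.update (xiy x y) i₀ (ζ (χ k)))))
        atTop (𝓝 (g (Function.update (xiy x y) i₀ ζ'))) := by
      apply hlim'.tendsto_comp (hgc _ (hbox _ hζ'K))
      rw [tendsto_nhdsWithin_iff]
      refine ⟨(hcu.tendsto _).comp hζlim, Eventually.of_forall (fun k => hbox _ (hζK _))⟩
    have h2 : Tendsto (fun k => F (shift (xs (φ (ψ (χ k)))) (Function.update (xiy x y) i₀ (ζ (χ k)))))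
        atTop (𝓝 0) := by
      have : (fun k => F (shift (xs (φ (ψ (χ k)))) (Function.update (xiy x y) i₀ (ζ (χ k))))) =
          fun _ => 0 := by
        ext k; exact hζ3 (χ k)
      rw [this]
      exact tendsto_const_nhds
    exact tendsto_nhds_unique h1 h2

end Pool.Agent.Helper65_Jessen
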