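import Mathlib

set_option autoImplicit false

open Filter Topology MeasureTheory

namespace Pool.Agent.Helper65_Jessen

/-- The tube `T_E = {z ∈ ℂⁿ : Im z ∈ E}` over a set `E ⊆ ℝⁿ`. -/
def tube {n : ℕ} (E : Set (Fin n → ℝ)) : Set (Fin n → ℂ) :=
  {z | (fun j => (z j).im) ∈ E}

/-- The translate `z + h` of `z ∈ ℂⁿ` by a real vector `h ∈ ℝⁿ`. -/
def shift {n : ℕ} (h : Fin n → ℝ) (z : Fin n → ℂ) : Fin n → ℂ := fun j => z j + (h j : ℂ)

/-- The point `x + i y` of `ℂⁿ`, for `x, y ∈ ℝⁿ`. -/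
def xiy {n : ℕ} (x y : Fin n → ℝ) : Fin n → ℂ := fun j => (x j : ℂ) + (y j : ℂ) * Complex.I

/-- `f` is almost periodic in the tube `T_G`: for every `ε > 0` and every `E` compactly contained
in `G` there is `ℓ > 0` such that every open cube with centre `a` and half side `ℓ` contains some
`h` with `sup_{z ∈ T_E} |f (z + h) - f z| < ε`. -/
def AlmostPeriodic {n : ℕ} (G : Set (Fin n → ℝ)) (f : (Fin n → ℂ) → ℂ) : Prop :=
  ∀ ε : ℝ, 0 < ε → ∀ E : Set (Fin n → ℝ), IsCompact (closure E) → closure E ⊆ G →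
    ∃ ℓ : ℝ, 0 < ℓ ∧ ∀ a : Fin n → ℝ, ∃ h : Fin n → ℝ, (∀ j, |h j - a j| < ℓ) ∧
      ∃ δ < ε, ∀ z ∈ tube E, ‖f (shift h z) - f z‖ ≤ δ

/-- `φ` is a Jessen function on `G`: there is a function `f`, holomorphic and almost periodic in
the tube `T_G` and not identically zero there, such that for every `y ∈ G` the mean value of
`ln |f (x + i y)|` over the cubes `{|x_j| < t}` tends to `φ y` as `t → ∞`. -/
def IsJessenFunction {n : ℕ} (G : Set (Fin n → ℝ)) (φ : (Fin n → ℝ) → ℝ) : Prop :=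
  ∃ f : (Fin n → ℂ) → ℂ, DifferentiableOn ℂ f (tube G) ∧ AlmostPeriodic G f ∧
    (∃ z ∈ tube G, f z ≠ 0) ∧
    ∀ y ∈ G, Tendsto
      (fun t : ℝ => (1 / (2 * t) ^ n) * ∫ x in {x : Fin n → ℝ | ∀ j, |x j| < t},
        Real.log ‖f (xiy x y)‖) atTop (𝓝 (φ y))

end Pool.Agent.Helper65_Jessen
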