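import Pool.Agent.Helper65_Jessen.TwoDim

set_option autoImplicit false

open Complex Metric Real Set Filter Topology MeasureTheory

namespace Pool.Agent.Helper65_Jessen

/-- Iterated derivative in the first variable. -/
noncomputable def hmi (h : ℂ → ℂ → ℂ) : ℕ → ℂ → ℂ → ℂ
  | 0 => h
  | m + 1 => fun ζ w => deriv (fun ξ => hmi h m ξ w) ζ

lemma hmi_eq (h : ℂ → ℂ → ℂ) (m : ℕ) (w : ℂ) :
    (fun ζ => hmi h m ζ w) = iteratedDeriv m (fun ξ => h ξ w) := by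
  induction m with
  | zero => ext ζ; simp [hmi]
  | succ m ih =>
    ext ζ
    rw [iteratedDeriv_succ, ← ih]
    rfl

lemma hmi_sepHol {D₀ D₁ : Set ℂ} (hD₀ : IsOpen D₀) (hD₁ : IsOpen D₁) {h : ℂ → ℂ → ℂ}
    (H : SepHol D₀ D₁ h) (m : ℕ) : SepHol D₀ D₁ (hmi h m) := by
  induction m with
  | zero => exact H
  | succ m ih => exact ih.deriv1 hD₀ hD₁

/-- Zeros of a nonzero function holomorphic on a connected open set: countable. -/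
lemma countable_zeros {D : Set ℂ} (hD : IsOpen D) (hc : IsPreconnected D) {g : ℂ → ℂ}
    (hg : DifferentiableOn ℂ g D) {w₁ : ℂ} (hw₁ : w₁ ∈ D) (hne : g w₁ ≠ 0) :
    {w | w ∈ D ∧ g w = 0}.Countable := by
  have hA : AnalyticOnNhd ℂ g D := hg.analyticOnNhd hD
  have hloc : ∀ w ∈ {w | w ∈ D ∧ g w = 0}, ∃ O ∈ 𝓝 w, O ∩ {w | w ∈ D ∧ g w = 0} ⊆ {w} := by
    intro w hw
    rcases (hA w hw.1).eventually_eq_zero_or_eventually_ne_zero with h0 | h0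
    · exfalso
      exact hne (hA.eqOn_zero_of_preconnected_of_eventuallyEq_zero hc hw.1 h0 hw₁)
    · rw [eventually_nhdsWithin_iff] at h0
      refine ⟨_, h0, ?_⟩
      rintro w' ⟨h1, h2⟩
      by_contra h3
      exact h1 h3 h2.2
  choose! O hO hO2 using hloc
  obtain ⟨t, ht, htc, hcov⟩ := TopologicalSpace.countable_cover_nhdsWithin
    (s := {w | w ∈ D ∧ g w = 0}) (f := O) (fun x hx => mem_nhdsWithin_of_mem_nhds (hO x hx))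
  apply Set.Countable.mono _ htc
  intro w hw
  obtain ⟨x, hx, hx2⟩ := mem_iUnion₂.1 (hcov hw)
  have := hO2 x (ht hx) ⟨hx2, hw⟩
  rw [mem_singleton_iff] at this
  rw [this]
  exact hx

/-- The set of `w` over which a nonzero separately holomorphic function of two variables
vanishes on the hypersurface is null. -/
lemma global_null {D₀ D₁ : Set ℂ} (hD₀ : IsOpen D₀) (hD₁ : IsOpen D₁) (hc₀ : IsPreconnected D₀)
    (hc₁ : IsPreconnected D₁) {h : ℂ → ℂ → ℂ} (H : SepHol D₀ D₁ h) {ζ₁ w₁ : ℂ} (hζ₁ : ζ₁ ∈ D₀)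
    (hw₁ : w₁ ∈ D₁) (hne : h ζ₁ w₁ ≠ 0) (p₀ p₁ : ℝ) :
    volume {q : ℝ × ℝ | (q.1:ℂ) + (q.2:ℂ) * I ∈ D₁ ∧ ∃ ζ ∈ D₀,
      ζ.im = p₀ - (q.2 - p₁) ^ 2 ∧ h ζ ((q.1:ℂ) + (q.2:ℂ) * I) = 0} = 0 := by
  set W : ℝ × ℝ → ℂ := fun q => (q.1:ℂ) + (q.2:ℂ) * I with hW
  have hWinj : Function.Injective W := by
    intro q q' hqq
    have h1 := congrArg Complex.re hqq
    have h2 := congrArg Complex.im hqq
    simp [hW] at h1 h2
    exact Prod.ext h1 h2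
  -- exceptional set
  have hN : volume {q : ℝ × ℝ | W q ∈ {w | w ∈ D₁ ∧ h ζ₁ w = 0}} = 0 := by
    apply Set.Countable.measure_zero
    exact (countable_zeros hD₁ hc₁ (H.d2 ζ₁ hζ₁) hw₁ hne).preimage hWinj
  -- for each m
  have hm : ∀ m : ℕ, volume {q : ℝ × ℝ | W q ∈ D₁ ∧ ∃ ζ ∈ D₀, ζ.im = p₀ - (q.2 - p₁) ^ 2 ∧
      hmi h m ζ (W q) = 0 ∧ hmi h (m+1) ζ (W q) ≠ 0} = 0 := by
    intro m
    have hloc : ∀ v ∈ {v : ℂ × ℂ | v.1 ∈ D₀ ∧ v.2 ∈ D₁ ∧ hmi h m v.1 v.2 = 0 ∧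
        hmi h (m+1) v.1 v.2 ≠ 0}, ∃ O ∈ 𝓝 v, volume {q : ℝ × ℝ | ∃ ζ : ℂ, (ζ, W q) ∈ O ∧
      ζ.im = p₀ - (q.2 - p₁) ^ 2 ∧ hmi h m ζ (W q) = 0} = 0 := by
      rintro ⟨ζ, w⟩ ⟨h1, h2, h3, h4⟩
      exact local_null hD₀ hD₁ (hmi_sepHol hD₀ hD₁ H m) h1 h2 h3 h4 p₀ p₁
    choose! O hO hO2 using hloc
    obtain ⟨t, ht, htc, hcov⟩ := TopologicalSpace.countable_cover_nhdsWithin
      (s := {v : ℂ × ℂ | v.1 ∈ D₀ ∧ v.2 ∈ D₁ ∧ hmi h m v.1 v.2 = 0 ∧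
        hmi h (m+1) v.1 v.2 ≠ 0}) (f := O) (fun x hx => mem_nhdsWithin_of_mem_nhds (hO x hx))
    apply measure_mono_null (t := ⋃ x ∈ t, {q : ℝ × ℝ | ∃ ζ : ℂ, (ζ, W q) ∈ O x ∧
      ζ.im = p₀ - (q.2 - p₁) ^ 2 ∧ hmi h m ζ (W q) = 0})
    · rintro q ⟨h1, ζ, h2, h3, h4, h5⟩
      obtain ⟨x, hx, hx2⟩ := mem_iUnion₂.1 (hcov (show ((ζ, W q) : ℂ × ℂ) ∈ _ from ⟨h2, h1, h4, h5⟩))
      exact mem_iUnion₂.2 ⟨x, hx, ζ, hx2, h3, h4⟩
    · rw [measure_biUnion_null_iff htc]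
      intro x hx
      exact hO2 x (ht hx)
  apply measure_mono_null (t := {q : ℝ × ℝ | W q ∈ {w | w ∈ D₁ ∧ h ζ₁ w = 0}} ∪
    ⋃ m : ℕ, {q : ℝ × ℝ | W q ∈ D₁ ∧ ∃ ζ ∈ D₀, ζ.im = p₀ - (q.2 - p₁) ^ 2 ∧
      hmi h m ζ (W q) = 0 ∧ hmi h (m+1) ζ (W q) ≠ 0})
  · rintro q ⟨h1, ζ, h2, h3, h4⟩
    by_cases h5 : h ζ₁ (W q) = 0
    · left; exact ⟨h1, h5⟩
    · right
      have hA : AnalyticOnNhd ℂ (fun ξ => h ξ (W q)) D₀ := (H.d1 _ h1).analyticOnNhd hD₀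
      have hord : analyticOrderAt (fun ξ => h ξ (W q)) ζ ≠ ⊤ := by
        intro htop
        rw [analyticOrderAt_eq_top] at htop
        exact h5 (hA.eqOn_zero_of_preconnected_of_eventuallyEq_zero hc₀ h2 htop hζ₁)
      obtain ⟨N, hN⟩ := ENat.ne_top_iff_exists.1 hord
      have hN' := (analyticOrderAt_eq_nat_iff_iteratedDeriv_eq_zero (hA ζ h2)).1 hN.symm
      have hN0 : N ≠ 0 := by
        rintro rfl
        exact hN'.2 (by simpa using h4)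
      obtain ⟨m, rfl⟩ := Nat.exists_eq_succ_of_ne_zero hN0
      refine mem_iUnion.2 ⟨m, h1, ζ, h2, h3, ?_, ?_⟩
      · have := congrFun (hmi_eq h m (W q)) ζ
        rw [this]
        exact hN'.1 m (Nat.lt_succ_self m)
      · have := congrFun (hmi_eq h (m+1) (W q)) ζ
        rw [this]
        exact hN'.2
  · rw [measure_union_null_iff]
    refine ⟨hN, ?_⟩
    rw [measure_iUnion_null_iff]
    exact hm

end Pool.Agent.Helper65_Jessen
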