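import Pool.Agent.Helper65_Jessen.MeanDefect

set_option autoImplicit false

open Complex Metric Real Set Filter Topology MeasureTheory
open scoped ENNReal

namespace Pool.Agent.Helper65_Jessen

variable {n : ℕ}

/-- The curve on the hypersurface `y₀ - p₀ + (y₁ - p₁)² = 0`. -/
noncomputable def yc (p : Fin n → ℝ) (i₀ i₁ : Fin n) (τ : ℝ) : Fin n → ℝ :=
  Function.update (Function.update p i₁ (p i₁ + τ)) i₀ (p i₀ - τ ^ 2)

lemma continuous_yc (p : Fin n → ℝ) (i₀ i₁ : Fin n) : Continuous (yc p i₀ i₁) := by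
  unfold yc
  apply Continuous.update
  · apply continuous_const.update
    fun_prop
  · fun_prop

lemma yc_i₀ (p : Fin n → ℝ) (i₀ i₁ : Fin n) (τ : ℝ) : yc p i₀ i₁ τ i₀ = p i₀ - τ ^ 2 := by
  simp [yc]

lemma yc_i₁ (p : Fin n → ℝ) {i₀ i₁ : Fin n} (hne : i₀ ≠ i₁) (τ : ℝ) :
    yc p i₀ i₁ τ i₁ = p i₁ + τ := by
  simp [yc, Function.update_of_ne hne.symm]

lemma yc_of_ne (p : Fin n → ℝ) {i₀ i₁ j : Fin n} (h0 : j ≠ i₀) (h1 : j ≠ i₁) (τ : ℝ) :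
    yc p i₀ i₁ τ j = p j := by
  simp [yc, Function.update_of_ne h0, Function.update_of_ne h1]

lemma yc_near (p : Fin n → ℝ) (i₀ i₁ : Fin n) {r τ : ℝ} (hr : 0 < r) (hr1 : r ≤ 1)
    (hτ : |τ| ≤ r) (j : Fin n) : |yc p i₀ i₁ τ j - p j| ≤ r := by
  by_cases hj : j = i₀
  · subst hj
    rw [yc_i₀]
    have h1 : p j - τ ^ 2 - p j = -(|τ| ^ 2) := by rw [sq_abs]; ring
    rw [h1, abs_neg, abs_of_nonneg (by positivity)]
    have := abs_nonneg τ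
    nlinarith
  · by_cases hj1 : j = i₁
    · subst hj1
      rw [yc_i₁ p (fun h => hj h.symm)]
      simpa using hτ
    · rw [yc_of_ne p hj hj1]
      simp [hr.le]

lemma exists_good_cube {p : Fin n → ℝ} {r : ℝ} {F : (Fin n → ℂ) → ℂ} (H : Core p r F)
    {m : (Fin n → ℝ) → ℝ}
    (hlim : ∀ y : Fin n → ℝ, (∀ j, |y j - p j| ≤ 2 * r) → Tendsto (fun t : ℝ =>
      (ENNReal.ofReal (2 * t) ^ n)⁻¹ * ∫⁻ x in Qo n t, nlog (F (xiy x y))) atTop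
      (𝓝 (ENNReal.ofReal (m y)))) (i₀ i₁ : Fin n) {ρ : ℝ} (hρ : 0 < ρ) (hρr : ρ ≤ r)
    {c : ℝ≥0∞} (hc0 : c ≠ 0) (hctop : c ≠ ⊤)
    (hc : ∀ τ ∈ Icc (-r) r, (ENNReal.ofReal (2 * π))⁻¹ * (∫⁻ θ in Ioc 0 (2 * π),
      ENNReal.ofReal (m (Function.update (yc p i₀ i₁ τ) i₀
        (yc p i₀ i₁ τ i₀ + ρ * Real.sin θ)))) + c ≤ ENNReal.ofReal (m (yc p i₀ i₁ τ))) :
    ∃ x : Fin n → ℝ, ENNReal.ofReal (r / 8) ^ n * (c * ENNReal.ofReal r) ≤
      ∫⁻ x' in cube x (r / 8), ∫⁻ τ in Icc (-r) r, Jd F i₀ ρ x' (yc p i₀ i₁ τ) := by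
  have hr := H.hr
  have hr1 := H.hr1
  have hJ : Measurable (fun v : (Fin n → ℝ) × ℝ => Jd F i₀ ρ v.1 (yc p i₀ i₁ v.2)) := by
    have h1 : Measurable (fun v : (Fin n → ℝ) × ℝ => (v.1, yc p i₀ i₁ v.2)) :=
      (continuous_fst.prodMk ((continuous_yc p i₀ i₁).comp continuous_snd)).measurable
    exact (measurable_Jd H.meas i₀ ρ).comp h1
  set a : ℕ → ℝ → ℝ≥0∞ := fun k τ => (ENNReal.ofReal (2 * (k + 1 : ℝ)) ^ n)⁻¹ *
      ∫⁻ x in Qo n (k + 1 : ℝ), Jd F i₀ ρ x (yc p i₀ i₁ τ) with ha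
  have ham : ∀ k, Measurable (a k) := by
    intro k
    apply Measurable.const_mul
    exact hJ.lintegral_prod_left'
  have h1 : c * ENNReal.ofReal (2 * r) ≤ liminf (fun k => ∫⁻ τ in Icc (-r) r, a k τ) atTop := by
    calc c * ENNReal.ofReal (2 * r) = ∫⁻ τ in Icc (-r) r, c := by
          rw [setLIntegral_const, Real.volume_Icc]
          congr 2
          ring
      _ ≤ ∫⁻ τ in Icc (-r) r, liminf (fun k => a k τ) atTop := by
          apply setLIntegral_mono' measurableSet_Icc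
          intro τ hτ
          exact mean_defect H hlim i₀ hρ hρr
            (fun j => yc_near p i₀ i₁ hr hr1 (abs_le.2 ⟨by linarith [hτ.1], hτ.2⟩) j) (hc τ hτ)
      _ ≤ _ := lintegral_liminf_le ham
  have h2 : c * ENNReal.ofReal r < liminf (fun k => ∫⁻ τ in Icc (-r) r, a k τ) atTop := by
    refine lt_of_lt_of_le ?_ h1
    rw [ENNReal.mul_lt_mul_iff_right hc0 hctop, ENNReal.ofReal_lt_ofReal_iff (by positivity)]
    linarith
  obtain ⟨k, hk⟩ := (eventually_lt_of_lt_liminf h2).exists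
  have hinv : (ENNReal.ofReal (2 * (k + 1 : ℝ)) ^ n)⁻¹ ≠ ⊤ := by
    rw [Ne, ENNReal.inv_eq_top]
    apply pow_ne_zero
    rw [Ne, ENNReal.ofReal_eq_zero, not_le]
    positivity
  have h3 : ∫⁻ τ in Icc (-r) r, a k τ = (ENNReal.ofReal (2 * (k + 1 : ℝ)) ^ n)⁻¹ *
      ∫⁻ x in Qo n (k + 1 : ℝ), ∫⁻ τ in Icc (-r) r, Jd F i₀ ρ x (yc p i₀ i₁ τ) := by
    simp only [ha]
    rw [lintegral_const_mul' _ _ hinv]
    congr 1
    rw [lintegral_lintegral_swap (f := fun x τ => Jd F i₀ ρ x (yc p i₀ i₁ τ)) hJ.aemeasurable]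
  rw [h3] at hk
  have hk0 : (0:ℝ) ≤ k := Nat.cast_nonneg k
  exact exists_cube (hJ.lintegral_prod_right') (by positivity) (by linarith) hk

end Pool.Agent.Helper65_Jessen
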