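import Pool.Agent.Helper65_Jessen.SepHol

set_option autoImplicit false

open Complex Metric Real Set Filter Topology MeasureTheory

namespace Pool.Agent.Helper65_Jessen

lemma hasDerivAt_horiz {Φ : ℂ → ℂ} {c : ℂ} {s t : ℝ} (h : HasDerivAt Φ c ((s:ℂ) + (t:ℂ) * I)) :
    HasDerivAt (fun s : ℝ => Φ ((s:ℂ) + (t:ℂ) * I)) c s := by
  have h1 : HasDerivAt (fun z : ℂ => Φ (z + (t:ℂ) * I)) c (s:ℂ) := by
    have h2 : HasDerivAt (fun z : ℂ => z + (t:ℂ) * I) 1 (s:ℂ) := (hasDerivAt_id _).add_const _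
    have h3 := h.comp (s:ℂ) h2
    rw [mul_one] at h3
    exact h3
  exact h1.comp_ofReal

lemma hasDerivAt_vert {Φ : ℂ → ℂ} {c : ℂ} {s t : ℝ} (h : HasDerivAt Φ c ((s:ℂ) + (t:ℂ) * I)) :
    HasDerivAt (fun t : ℝ => Φ ((s:ℂ) + (t:ℂ) * I)) (c * I) t := by
  have h1 : HasDerivAt (fun z : ℂ => Φ ((s:ℂ) + z * I)) (c * I) (t:ℂ) := by
    have h2 : HasDerivAt (fun z : ℂ => (s:ℂ) + z * I) I (t:ℂ) := by
      have := ((hasDerivAt_id (t:ℂ)).mul_const I).const_add (s:ℂ)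
      simpa using this
    exact h.comp (t:ℂ) h2
  exact h1.comp_ofReal

lemma hasDerivAt_im {F : ℝ → ℂ} {c : ℂ} {s : ℝ} (h : HasDerivAt F c s) :
    HasDerivAt (fun s => (F s).im) c.im s := by
  have := (Complex.imCLM.hasFDerivAt (x := F s)).comp_hasDerivAt s h
  exact this

lemma hasDerivAt_re {F : ℝ → ℂ} {c : ℂ} {s : ℝ} (h : HasDerivAt F c s) :
    HasDerivAt (fun s => (F s).re) c.re s := by
  have := (Complex.reCLM.hasFDerivAt (x := F s)).comp_hasDerivAt s h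
  exact this

/-- No holomorphic function has imaginary part `p₀ - (Im w - p₁)²` on an open rectangle. -/
lemma no_graph {ψ : ℂ → ℂ} {V : Set ℂ} {a b c d p₀ p₁ : ℝ} (hab : a < b) (hcd : c < d)
    (hV : IsOpen V) (hψ : DifferentiableOn ℂ ψ V)
    (hsub : ∀ s ∈ Ioo a b, ∀ t ∈ Ioo c d, (s:ℂ) + (t:ℂ) * I ∈ V)
    (h : ∀ s ∈ Ioo a b, ∀ t ∈ Ioo c d, (ψ ((s:ℂ) + (t:ℂ) * I)).im = p₀ - (t - p₁) ^ 2) : False := by
  have hd1 : ∀ s ∈ Ioo a b, ∀ t ∈ Ioo c d,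
      HasDerivAt ψ (deriv ψ ((s:ℂ) + (t:ℂ) * I)) ((s:ℂ) + (t:ℂ) * I) := fun s hs t ht =>
    (hψ.differentiableAt (hV.mem_nhds (hsub s hs t ht))).hasDerivAt
  have hd2 : ∀ s ∈ Ioo a b, ∀ t ∈ Ioo c d,
      HasDerivAt (deriv ψ) (deriv (deriv ψ) ((s:ℂ) + (t:ℂ) * I)) ((s:ℂ) + (t:ℂ) * I) :=
    fun s hs t ht =>
    ((hψ.deriv hV).differentiableAt (hV.mem_nhds (hsub s hs t ht))).hasDerivAt
  have H1 : ∀ s ∈ Ioo a b, ∀ t ∈ Ioo c d, (deriv ψ ((s:ℂ) + (t:ℂ) * I)).im = 0 := by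
    intro s hs t ht
    have h1 := hasDerivAt_im (hasDerivAt_horiz (hd1 s hs t ht))
    have h2 : HasDerivAt (fun s : ℝ => (ψ ((s:ℂ) + (t:ℂ) * I)).im) 0 s := by
      have h3 : (fun s : ℝ => (ψ ((s:ℂ) + (t:ℂ) * I)).im) =ᶠ[𝓝 s] fun _ => p₀ - (t - p₁) ^ 2 := by
        filter_upwards [isOpen_Ioo.mem_nhds hs] with s' hs'
        exact h s' hs' t ht
      exact (hasDerivAt_const s _).congr_of_eventuallyEq h3
    exact h1.unique h2
  have H2 : ∀ s ∈ Ioo a b, ∀ t ∈ Ioo c d, (deriv ψ ((s:ℂ) + (t:ℂ) * I)).re = - (2 * (t - p₁)) := by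
    intro s hs t ht
    have h1 := hasDerivAt_im (hasDerivAt_vert (hd1 s hs t ht))
    have h2 : HasDerivAt (fun t : ℝ => (ψ ((s:ℂ) + (t:ℂ) * I)).im) (- (2 * (t - p₁))) t := by
      have h3 : (fun t : ℝ => (ψ ((s:ℂ) + (t:ℂ) * I)).im) =ᶠ[𝓝 t] fun t => p₀ - (t - p₁) ^ 2 := by
        filter_upwards [isOpen_Ioo.mem_nhds ht] with t' ht'
        exact h s hs t' ht'
      have h4 : HasDerivAt (fun t : ℝ => p₀ - (t - p₁) ^ 2) (- (2 * (t - p₁))) t := by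
        have h5 : HasDerivAt (fun t : ℝ => (t - p₁) ^ 2) (2 * (t - p₁)) t := by
          have h7 : HasDerivAt (fun t : ℝ => t - p₁) 1 t := (hasDerivAt_id t).sub_const p₁
          have := h7.pow 2
          refine HasDerivAt.congr_deriv this ?_
          simp
        exact h5.const_sub p₀
      exact h4.congr_of_eventuallyEq h3
    have h6 := h1.unique h2
    simpa using h6
  obtain ⟨s₀, hs₀⟩ := nonempty_Ioo.2 hab
  obtain ⟨t₀, ht₀⟩ := nonempty_Ioo.2 hcd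
  have e1 : (deriv (deriv ψ) ((s₀:ℂ) + (t₀:ℂ) * I)).im = 0 := by
    have h1 := hasDerivAt_im (hasDerivAt_horiz (hd2 s₀ hs₀ t₀ ht₀))
    have h3 : (fun s : ℝ => (deriv ψ ((s:ℂ) + (t₀:ℂ) * I)).im) =ᶠ[𝓝 s₀] fun _ => (0:ℝ) := by
      filter_upwards [isOpen_Ioo.mem_nhds hs₀] with s' hs'
      exact H1 s' hs' t₀ ht₀
    exact h1.unique ((hasDerivAt_const s₀ _).congr_of_eventuallyEq h3)
  have e2 : - (deriv (deriv ψ) ((s₀:ℂ) + (t₀:ℂ) * I)).im = -2 := by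
    have h1 := hasDerivAt_re (hasDerivAt_vert (hd2 s₀ hs₀ t₀ ht₀))
    have h3 : (fun t : ℝ => (deriv ψ ((s₀:ℂ) + (t:ℂ) * I)).re) =ᶠ[𝓝 t₀]
        fun t => - (2 * (t - p₁)) := by
      filter_upwards [isOpen_Ioo.mem_nhds ht₀] with t' ht'
      exact H2 s₀ hs₀ t' ht'
    have h4 : HasDerivAt (fun t : ℝ => - (2 * (t - p₁))) (-2) t₀ := by
      have h7 : HasDerivAt (fun t : ℝ => t - p₁) 1 t₀ := (hasDerivAt_id t₀).sub_const p₁
      have := (h7.const_mul 2).neg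
      refine HasDerivAt.congr_deriv this ?_
      simp
    have := h1.unique (h4.congr_of_eventuallyEq h3)
    simpa using this
  rw [e1] at e2
  norm_num at e2

lemma analytic_horiz {ψ : ℂ → ℂ} {V : Set ℂ} {a b : ℝ} {t e : ℝ} (hV : IsOpen V)
    (hψ : DifferentiableOn ℂ ψ V) (hsub : ∀ s ∈ Ioo a b, (s:ℂ) + (t:ℂ) * I ∈ V) :
    AnalyticOnNhd ℝ (fun s : ℝ => (ψ ((s:ℂ) + (t:ℂ) * I)).im - e) (Ioo a b) := by
  intro s hs
  have h1 : AnalyticAt ℂ ψ ((s:ℂ) + (t:ℂ) * I) := hψ.analyticAt (hV.mem_nhds (hsub s hs))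
  have h2 : AnalyticAt ℝ ψ ((s:ℂ) + (t:ℂ) * I) := h1.restrictScalars
  have h3 : AnalyticAt ℝ (fun s : ℝ => (s:ℂ) + (t:ℂ) * I) s := by
    have : AnalyticAt ℝ (fun s : ℝ => (s:ℂ)) s := Complex.ofRealCLM.analyticAt s
    exact this.add analyticAt_const
  have h4 : AnalyticAt ℝ (fun s : ℝ => ψ ((s:ℂ) + (t:ℂ) * I)) s :=
    AnalyticAt.fun_comp h2 h3
  have h5 : AnalyticAt ℝ (fun s : ℝ => (ψ ((s:ℂ) + (t:ℂ) * I)).im) s :=
    AnalyticAt.fun_comp (Complex.imCLM.analyticAt _) h4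
  exact h5.sub analyticAt_const

lemma analytic_vert {ψ : ℂ → ℂ} {V : Set ℂ} {c d : ℝ} {s p₀ p₁ : ℝ} (hV : IsOpen V)
    (hψ : DifferentiableOn ℂ ψ V) (hsub : ∀ t ∈ Ioo c d, (s:ℂ) + (t:ℂ) * I ∈ V) :
    AnalyticOnNhd ℝ (fun t : ℝ => (ψ ((s:ℂ) + (t:ℂ) * I)).im - (p₀ - (t - p₁) ^ 2)) (Ioo c d) := by
  intro t ht
  have h1 : AnalyticAt ℂ ψ ((s:ℂ) + (t:ℂ) * I) := hψ.analyticAt (hV.mem_nhds (hsub t ht))
  have h2 : AnalyticAt ℝ ψ ((s:ℂ) + (t:ℂ) * I) := h1.restrictScalars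
  have h3 : AnalyticAt ℝ (fun t : ℝ => (s:ℂ) + (t:ℂ) * I) t := by
    have : AnalyticAt ℝ (fun t : ℝ => (t:ℂ)) t := Complex.ofRealCLM.analyticAt t
    exact analyticAt_const.add (this.mul analyticAt_const)
  have h4 : AnalyticAt ℝ (fun t : ℝ => ψ ((s:ℂ) + (t:ℂ) * I)) t :=
    AnalyticAt.fun_comp h2 h3
  have h5 : AnalyticAt ℝ (fun t : ℝ => (ψ ((s:ℂ) + (t:ℂ) * I)).im) t :=
    AnalyticAt.fun_comp (Complex.imCLM.analyticAt _) h4
  apply h5.sub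
  fun_prop

/-- The set of points of a rectangle over which a holomorphic graph lies on the hypersurface
`Im ζ = p₀ - (Im w - p₁)²` is a null set. -/
lemma graph_null {ψ : ℂ → ℂ} {V : Set ℂ} {a b c d p₀ p₁ : ℝ} (hab : a < b) (hcd : c < d)
    (hV : IsOpen V) (hψ : DifferentiableOn ℂ ψ V)
    (hsub : ∀ s ∈ Ioo a b, ∀ t ∈ Ioo c d, (s:ℂ) + (t:ℂ) * I ∈ V) :
    volume {q : ℝ × ℝ | q.1 ∈ Ioo a b ∧ q.2 ∈ Ioo c d ∧
      (ψ ((q.1:ℂ) + (q.2:ℂ) * I)).im = p₀ - (q.2 - p₁) ^ 2} = 0 := by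
  set A := {q : ℝ × ℝ | q.1 ∈ Ioo a b ∧ q.2 ∈ Ioo c d ∧
      (ψ ((q.1:ℂ) + (q.2:ℂ) * I)).im = p₀ - (q.2 - p₁) ^ 2} with hA
  set u : ℝ × ℝ → ℝ := fun q => (ψ ((q.1:ℂ) + (q.2:ℂ) * I)).im - (p₀ - (q.2 - p₁) ^ 2) with hu
  have hucont : ContinuousOn u (Ioo a b ×ˢ Ioo c d) := by
    have h1 : ContinuousOn (fun q : ℝ × ℝ => ψ ((q.1:ℂ) + (q.2:ℂ) * I)) (Ioo a b ×ˢ Ioo c d) := by
      apply hψ.continuousOn.comp (by fun_prop)
      intro q hq
      exact hsub q.1 hq.1 q.2 hq.2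
    apply ContinuousOn.sub
    · exact Complex.continuous_im.comp_continuousOn h1
    · fun_prop
  have hopen : IsOpen ((Ioo a b ×ˢ Ioo c d) ∩ u ⁻¹' {0}ᶜ) :=
    hucont.isOpen_inter_preimage (isOpen_Ioo.prod isOpen_Ioo) isOpen_compl_singleton
  have hAeq : A = (Ioo a b ×ˢ Ioo c d) \ ((Ioo a b ×ˢ Ioo c d) ∩ u ⁻¹' {0}ᶜ) := by
    ext q
    simp only [hA, hu, mem_ofPred_eq, Set.mem_sdiff, Set.mem_prod, mem_inter_iff, mem_preimage,
      mem_compl_iff, mem_singleton_iff, sub_eq_zero]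
    tauto
  have hAm : MeasurableSet A := by
    rw [hAeq]
    exact (measurableSet_Ioo.prod measurableSet_Ioo).diff hopen.measurableSet
  rw [Measure.volume_eq_prod, Measure.measure_prod_null hAm]
  by_contra hcon
  -- the set of bad abscissas is not null
  set B := {s : ℝ | s ∈ Ioo a b ∧ ∀ t ∈ Ioo c d, u (s, t) = 0} with hB
  have hBpos : volume B ≠ 0 := by
    intro hB0
    apply hcon
    have : ∀ᵐ s ∂(volume : Measure ℝ), s ∉ B := measure_eq_zero_iff_ae_notMem.1 hB0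
    filter_upwards [this] with s hs
    simp only [Pi.zero_apply]
    by_cases hsI : s ∈ Ioo a b
    · have han := analytic_vert (s := s) (p₀ := p₀) (p₁ := p₁) hV hψ (fun t ht => hsub s hsI t ht)
      rcases han.eqOn_zero_or_eventually_ne_zero_of_preconnected isPreconnected_Ioo with h | h
      · exfalso
        apply hs
        exact ⟨hsI, fun t ht => h ht⟩
      · have h2 := ae_restrict_le_codiscreteWithin (μ := (volume : Measure ℝ)) measurableSet_Ioo h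
        rw [mem_ae_iff, Measure.restrict_apply' measurableSet_Ioo] at h2
        refine measure_mono_null ?_ h2
        intro t ht
        simp only [hA, mem_preimage, mem_ofPred_eq] at ht
        refine ⟨?_, ht.2.1⟩
        simp only [mem_compl_iff, mem_ofPred_eq, not_not]
        rw [sub_eq_zero]
        exact ht.2.2
    · have : Prod.mk s ⁻¹' A = ∅ := by
        ext t
        simp only [hA, mem_preimage, mem_ofPred_eq, mem_empty_iff_false, iff_false]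
        intro h
        exact hsI h.1
      rw [this]; simp
  apply no_graph (p₀ := p₀) (p₁ := p₁) hab hcd hV hψ hsub
  intro s hs t ht
  have han := analytic_horiz (t := t) (e := p₀ - (t - p₁) ^ 2) hV hψ (fun s hs => hsub s hs t ht)
  rcases han.eqOn_zero_or_eventually_ne_zero_of_preconnected isPreconnected_Ioo with h | h
  · have := h hs
    simp only [Pi.zero_apply] at this
    linarith
  · exfalso
    have h2 := ae_restrict_le_codiscreteWithin (μ := (volume : Measure ℝ)) measurableSet_Ioo h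
    rw [mem_ae_iff, Measure.restrict_apply' measurableSet_Ioo] at h2
    apply hBpos
    refine measure_mono_null ?_ h2
    intro s' hs'
    refine ⟨?_, hs'.1⟩
    simp only [mem_compl_iff, mem_ofPred_eq, not_not]
    exact hs'.2 t ht

end Pool.Agent.Helper65_Jessen
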