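import Pool.Agent.Helper65_Jessen.PoissonJensen

set_option autoImplicit false

open Complex MeromorphicOn Metric Real Set Filter Topology MeasureTheory InnerProductSpace

namespace Pool.Agent.Helper65_Jessen

lemma normSq_identity (R : ℝ) (u z : ℂ) :
    ‖(R:ℂ) ^ 2 - (starRingEnd ℂ) u * z‖ ^ 2
      = R ^ 2 * ‖z - u‖ ^ 2 + (R ^ 2 - ‖z‖ ^ 2) * (R ^ 2 - ‖u‖ ^ 2) := by
  rw [← Complex.normSq_eq_norm_sq, ← Complex.normSq_eq_norm_sq, ← Complex.normSq_eq_norm_sq,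
    ← Complex.normSq_eq_norm_sq]
  rw [Complex.normSq_apply, Complex.normSq_apply, Complex.normSq_apply, Complex.normSq_apply]
  have h1 : ((R:ℂ) ^ 2 - (starRingEnd ℂ) u * z).re = R ^ 2 - (u.re * z.re + u.im * z.im) := by
    simp [pow_two]
  have h2 : ((R:ℂ) ^ 2 - (starRingEnd ℂ) u * z).im = - (u.re * z.im - u.im * z.re) := by
    simp [pow_two]; ring
  rw [h1, h2]
  simp only [Complex.sub_re, Complex.sub_im]
  ring

lemma norm_canonicalFactor (R : ℝ) (hR : 0 < R) (u z : ℂ) :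
    ‖canonicalFactor R u z‖ = ‖(R:ℂ) ^ 2 - (starRingEnd ℂ) u * z‖ / (R * ‖z - u‖) := by
  rw [canonicalFactor_apply, norm_div, norm_mul, Complex.norm_real, Real.norm_of_nonneg hR.le]

lemma norm_canonicalFactor_sq {R : ℝ} (hR : 0 < R) {u z : ℂ} (hzu : z ≠ u) :
    ‖canonicalFactor R u z‖ ^ 2
      = 1 + (R ^ 2 - ‖z‖ ^ 2) * (R ^ 2 - ‖u‖ ^ 2) / (R ^ 2 * ‖z - u‖ ^ 2) := by
  have h : 0 < ‖z - u‖ := norm_pos_iff.2 (sub_ne_zero.2 hzu)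
  rw [norm_canonicalFactor R hR, div_pow, normSq_identity, mul_pow]
  field_simp

lemma one_le_norm_canonicalFactor {R : ℝ} (hR : 0 < R) {u z : ℂ} (hzu : z ≠ u)
    (hz : ‖z‖ ≤ R) (hu : ‖u‖ ≤ R) : 1 ≤ ‖canonicalFactor R u z‖ := by
  have h := norm_canonicalFactor_sq hR hzu
  have h1 : 0 ≤ (R ^ 2 - ‖z‖ ^ 2) * (R ^ 2 - ‖u‖ ^ 2) / (R ^ 2 * ‖z - u‖ ^ 2) := by
    apply div_nonneg _ (by positivity)
    apply mul_nonneg
    · nlinarith [norm_nonneg z]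
    · nlinarith [norm_nonneg u]
  nlinarith [norm_nonneg (canonicalFactor R u z)]

lemma log_cF_nonneg {R : ℝ} (hR : 0 < R) {u z : ℂ} (hzu : z ≠ u)
    (hz : ‖z‖ ≤ R) (hu : ‖u‖ ≤ R) : 0 ≤ Real.log ‖canonicalFactor R u z‖ :=
  Real.log_nonneg (one_le_norm_canonicalFactor hR hzu hz hu)

lemma log_cF_le_large {R : ℝ} (hR : 0 < R) {u z : ℂ}
    (hz : ‖z‖ ≤ R / 4) (hu : ‖u‖ < R) (hu2 : R / 2 ≤ ‖u‖) :
    Real.log ‖canonicalFactor R u z‖ ≤ 16 * Real.log (R / ‖u‖) := by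
  have hd : R / 4 ≤ ‖z - u‖ := by
    have := norm_sub_norm_le u z
    rw [norm_sub_rev] at this
    linarith
  have hzu : z ≠ u := by
    intro h
    rw [h, sub_self, norm_zero] at hd
    linarith
  have hup : 0 < ‖u‖ := by linarith
  have hsq := norm_canonicalFactor_sq hR hzu
  have h1 := one_le_norm_canonicalFactor hR hzu (by linarith) hu.le
  have hpos : 0 < ‖canonicalFactor R u z‖ := by linarith
  have h2 : Real.log (‖canonicalFactor R u z‖ ^ 2) ≤ ‖canonicalFactor R u z‖ ^ 2 - 1 :=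
    Real.log_le_sub_one_of_pos (by positivity)
  rw [Real.log_pow] at h2
  have h3 : (R ^ 2 - ‖z‖ ^ 2) * (R ^ 2 - ‖u‖ ^ 2) / (R ^ 2 * ‖z - u‖ ^ 2)
      ≤ 16 * (1 - (‖u‖ / R) ^ 2) := by
    have hd' : 0 < ‖z - u‖ := by linarith
    rw [div_le_iff₀ (by positivity), div_pow]
    have h4 : 0 ≤ R ^ 2 - ‖u‖ ^ 2 := by nlinarith [norm_nonneg u]
    have h5 : (R / 4) ^ 2 ≤ ‖z - u‖ ^ 2 := by gcongr
    have h6 : 16 * (1 - ‖u‖ ^ 2 / R ^ 2) * (R ^ 2 * ‖z - u‖ ^ 2)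
        = 16 * (R ^ 2 - ‖u‖ ^ 2) * ‖z - u‖ ^ 2 := by
      field_simp
    rw [h6]
    have h7 : (R ^ 2 - ‖z‖ ^ 2) ≤ R ^ 2 := by nlinarith [norm_nonneg z]
    have h8 : R ^ 2 ≤ 16 * ‖z - u‖ ^ 2 := by nlinarith
    calc (R ^ 2 - ‖z‖ ^ 2) * (R ^ 2 - ‖u‖ ^ 2) ≤ R ^ 2 * (R ^ 2 - ‖u‖ ^ 2) := by gcongr
      _ ≤ (16 * ‖z - u‖ ^ 2) * (R ^ 2 - ‖u‖ ^ 2) := by gcongr
      _ = _ := by ring
  have h9 : 1 - (‖u‖ / R) ^ 2 ≤ 2 * Real.log (R / ‖u‖) := by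
    have h10 : Real.log ((‖u‖ / R) ^ 2) ≤ (‖u‖ / R) ^ 2 - 1 :=
      Real.log_le_sub_one_of_pos (by positivity)
    rw [Real.log_pow, Real.log_div hup.ne' hR.ne'] at h10
    rw [Real.log_div hR.ne' hup.ne']
    push_cast at h10
    linarith
  push_cast at h2
  linarith

lemma log_cF_le_small {R : ℝ} (hR : 0 < R) {u z : ℂ}
    (hz : ‖z‖ ≤ R / 4) (hu : ‖u‖ < R / 2) (hzu : z ≠ u) :
    Real.log ‖canonicalFactor R u z‖ ≤ Real.log (2 * R / ‖z - u‖) := by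
  have hd : 0 < ‖z - u‖ := norm_pos_iff.2 (sub_ne_zero.2 hzu)
  have h1 := one_le_norm_canonicalFactor hR hzu (by linarith) (by linarith)
  apply Real.log_le_log (by linarith)
  rw [norm_canonicalFactor R hR]
  have h2 : ‖(R:ℂ) ^ 2 - (starRingEnd ℂ) u * z‖ ≤ 2 * R ^ 2 := by
    calc ‖(R:ℂ) ^ 2 - (starRingEnd ℂ) u * z‖ ≤ ‖(R:ℂ) ^ 2‖ + ‖(starRingEnd ℂ) u * z‖ :=
          norm_sub_le _ _
      _ = R ^ 2 + ‖u‖ * ‖z‖ := by
          rw [norm_pow, Complex.norm_real, Real.norm_of_nonneg hR.le, norm_mul, RCLike.norm_conj]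
      _ ≤ R ^ 2 + (R / 2) * (R / 4) := by gcongr
      _ ≤ 2 * R ^ 2 := by nlinarith
  calc ‖(R:ℂ) ^ 2 - (starRingEnd ℂ) u * z‖ / (R * ‖z - u‖) ≤ 2 * R ^ 2 / (R * ‖z - u‖) := by
        gcongr
    _ = 2 * R / ‖z - u‖ := by field_simp

/-- for `x ≥ 1`, `(log x)^2 ≤ 16 √x`. -/
lemma log_sq_le {x : ℝ} (hx : 1 ≤ x) : Real.log x ^ 2 ≤ 16 * x ^ (1/2 : ℝ) := by
  have h0 : 0 ≤ Real.log x := Real.log_nonneg hx
  have h1 : Real.log x ≤ x ^ (1/4 : ℝ) / (1/4 : ℝ) := Real.log_le_rpow_div (by linarith) (by norm_num)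
  have h2 : Real.log x ^ 2 ≤ (x ^ (1/4 : ℝ) / (1/4 : ℝ)) ^ 2 := by gcongr
  have h3 : (x ^ (1/4 : ℝ)) ^ 2 = x ^ (1/2 : ℝ) := by
    rw [← Real.rpow_natCast, ← Real.rpow_mul (by linarith)]
    norm_num
  rw [div_pow, h3] at h2
  calc Real.log x ^ 2 ≤ x ^ (1 / 2 : ℝ) / (1 / 4) ^ 2 := h2
    _ = 16 * x ^ (1/2 : ℝ) := by ring

lemma log_cF_sq_le {R : ℝ} (hR : 0 < R) {u z : ℂ} (hz : ‖z‖ ≤ R / 4) (hu : ‖u‖ < R)
    (hu0 : u ≠ 0) (hzu : z ≠ u) :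
    Real.log ‖canonicalFactor R u z‖ ^ 2
      ≤ Real.log (R / ‖u‖) ^ 2 * (256 + 64 * (2 * R / ‖z - u‖) ^ (1/2 : ℝ)) := by
  have hd : 0 < ‖z - u‖ := norm_pos_iff.2 (sub_ne_zero.2 hzu)
  have hup : 0 < ‖u‖ := norm_pos_iff.2 hu0
  have h0 := log_cF_nonneg hR hzu (by linarith) hu.le
  have hnn : 0 ≤ (2 * R / ‖z - u‖) ^ (1/2 : ℝ) := by positivity
  rcases le_or_gt (R / 2) ‖u‖ with h | h
  · have h1 := log_cF_le_large hR hz hu h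
    calc Real.log ‖canonicalFactor R u z‖ ^ 2 ≤ (16 * Real.log (R / ‖u‖)) ^ 2 := by gcongr
      _ = Real.log (R / ‖u‖) ^ 2 * (256 + 0) := by ring
      _ ≤ _ := by gcongr; positivity
  · have h1 := log_cF_le_small hR hz h hzu
    have h2 : 1 ≤ 2 * R / ‖z - u‖ := by
      rw [one_le_div hd]
      calc ‖z - u‖ ≤ ‖z‖ + ‖u‖ := norm_sub_le _ _
        _ ≤ 2 * R := by linarith
    have h3 : (1/2:ℝ) ≤ Real.log (R / ‖u‖) := by
      have : Real.log 2 ≤ Real.log (R / ‖u‖) := by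
        apply Real.log_le_log (by norm_num)
        rw [le_div_iff₀ hup]; linarith
      have := Real.log_two_gt_d9
      linarith
    calc Real.log ‖canonicalFactor R u z‖ ^ 2 ≤ Real.log (2 * R / ‖z - u‖) ^ 2 := by gcongr
      _ ≤ 16 * (2 * R / ‖z - u‖) ^ (1/2 : ℝ) := log_sq_le h2
      _ = (1/2) ^ 2 * (0 + 64 * (2 * R / ‖z - u‖) ^ (1/2 : ℝ)) := by ring
      _ ≤ Real.log (R / ‖u‖) ^ 2 * (256 + 64 * (2 * R / ‖z - u‖) ^ (1/2 : ℝ)) := by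
          gcongr; norm_num

end Pool.Agent.Helper65_Jessen
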