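import Pool.Agent.Helper65_Jessen.Slice2

set_option autoImplicit false

open Complex Metric Real Set Filter Topology MeasureTheory
open scoped ENNReal

namespace Pool.Agent.Helper65_Jessen

variable {n : ℕ}

lemma continuous_nlog : Continuous nlog := by
  rw [continuous_iff_continuousAt]
  intro w
  by_cases hw : w = 0
  · subst hw
    unfold ContinuousAt
    rw [nlog_zero, ENNReal.tendsto_nhds_top_iff_nnreal]
    intro C
    have hpos : 0 < Real.exp (-((C:ℝ) + 1)) := Real.exp_pos _
    have : ball (0:ℂ) (Real.exp (-((C:ℝ) + 1))) ∈ 𝓝 (0:ℂ) := ball_mem_nhds _ hpos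
    filter_upwards [this] with z hz
    by_cases hz0 : z = 0
    · subst hz0
      rw [nlog_zero]
      exact ENNReal.coe_lt_top
    · rw [nlog_of_ne hz0]
      rw [mem_ball_zero_iff] at hz
      have h1 : Real.log ‖z‖ < -((C:ℝ) + 1) := by
        have := Real.log_lt_log (norm_pos_iff.2 hz0) hz
        rwa [Real.log_exp] at this
      have h2 : (C:ℝ≥0∞) = ENNReal.ofReal (C:ℝ) := by simp
      rw [h2, ENNReal.ofReal_lt_ofReal_iff']
      have hC : (0:ℝ) ≤ C := C.2
      constructor <;> linarith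
  · have h1 : nlog =ᶠ[𝓝 w] fun w => ENNReal.ofReal (-Real.log ‖w‖) := by
      filter_upwards [isOpen_ne.mem_nhds hw] with z hz
      exact nlog_of_ne hz
    rw [continuousAt_congr h1]
    apply ENNReal.continuous_ofReal.continuousAt.comp
    apply ContinuousAt.neg
    exact (Real.continuousAt_log (norm_ne_zero_iff.2 hw)).comp continuous_norm.continuousAt

lemma cube_translate (G : (Fin n → ℝ) → ℝ≥0∞) (v : Fin n → ℝ) (σ : ℝ) :
    ∫⁻ x in cube (0 : Fin n → ℝ) σ, G (x + v) = ∫⁻ x in cube v σ, G x := by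
  rw [← lintegral_indicator (measurableSet_cube _ _), ← lintegral_indicator (measurableSet_cube _ _)]
  rw [← lintegral_add_right_eq_self ((cube v σ).indicator G) v]
  apply lintegral_congr
  intro x
  have h : x + v ∈ cube v σ ↔ x ∈ cube (0 : Fin n → ℝ) σ := by
    simp only [cube, Set.mem_univ_pi, mem_Icc, Pi.add_apply, Pi.zero_apply]
    constructor <;> intro h i <;> constructor <;> linarith [(h i).1, (h i).2]
  by_cases hx : x ∈ cube (0 : Fin n → ℝ) σ
  · rw [indicator_of_mem hx, indicator_of_mem (h.2 hx)]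
  · rw [indicator_of_notMem hx, indicator_of_notMem (fun h' => hx (h.1 h'))]

lemma shift_xiy (v x y : Fin n → ℝ) : shift v (xiy x y) = xiy (x + v) y := by
  ext j
  simp only [shift, xiy, Pi.add_apply]
  push_cast
  ring

lemma mem_cube_zero {x : Fin n → ℝ} {σ : ℝ} : x ∈ cube (0 : Fin n → ℝ) σ ↔ ∀ j, |x j| ≤ σ := by
  simp only [cube, Set.mem_univ_pi, mem_Icc, Pi.zero_apply, abs_le, zero_sub, zero_add]

lemma xiy_mem_kbox {p x : Fin n → ℝ} {r : ℝ} (hr : 0 < r) (hx : ∀ j, |x j| ≤ r / 8) :
    xiy x p ∈ kbox p r (3 * r) := by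
  constructor
  · intro j
    have : (xiy x p j).re = x j := by simp [xiy]
    rw [this]
    exact (hx j).trans (by linarith)
  · intro j
    have : (xiy x p j).im - p j = 0 := by simp [xiy]
    rw [this]
    simp [hr.le]

lemma ae_limit_ne_zero {p : Fin n → ℝ} {r : ℝ} {F : (Fin n → ℂ) → ℂ} (H : Core p r F)
    {xs : ℕ → Fin n → ℝ} {g : (Fin n → ℂ) → ℂ}
    (hlim : ∀ z ∈ kbox p r (3 * r), Tendsto (fun k => F (shift (xs k) z)) atTop (𝓝 (g z))) :
    ∀ᵐ x ∂(volume.restrict (cube (0 : Fin n → ℝ) (r / 8))), g (xiy x p) ≠ 0 := by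
  have hr := H.hr
  obtain ⟨C, hC, hul⟩ := H.ul1
  have hm : ∀ k, Measurable (fun x : Fin n → ℝ => nlog (F (shift (xs k) (xiy x p)))) := by
    intro k
    apply measurable_nlog.comp (H.meas.comp _)
    exact ((continuous_shift (xs k)).comp
      (continuous_xiy.comp (continuous_id.prodMk continuous_const))).measurable
  have h1 : ∫⁻ x in cube (0 : Fin n → ℝ) (r / 8),
      liminf (fun k => nlog (F (shift (xs k) (xiy x p)))) atTop ≤ C := by
    refine (lintegral_liminf_le hm).trans ?_
    have h2 : ∀ k, ∫⁻ x in cube (0 : Fin n → ℝ) (r / 8), nlog (F (shift (xs k) (xiy x p))) ≤ C := by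
      intro k
      simp only [shift_xiy]
      rw [cube_translate (fun x => nlog (F (xiy x p)))]
      apply hul
      intro j
      simp [hr.le]
    calc liminf (fun k => ∫⁻ x in cube (0 : Fin n → ℝ) (r / 8),
          nlog (F (shift (xs k) (xiy x p)))) atTop ≤ liminf (fun _ : ℕ => C) atTop :=
          liminf_le_liminf (Eventually.of_forall h2)
      _ = C := liminf_const C
  have h3 : ∀ᵐ x ∂(volume.restrict (cube (0 : Fin n → ℝ) (r / 8))),
      liminf (fun k => nlog (F (shift (xs k) (xiy x p)))) atTop < ⊤ :=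
    ae_lt_top (Measurable.liminf hm) (ne_top_of_le_ne_top hC h1)
  filter_upwards [h3, ae_restrict_mem (measurableSet_cube _ _)] with x hx hxc h0
  have h4 : Tendsto (fun k => nlog (F (shift (xs k) (xiy x p)))) atTop (𝓝 (nlog (g (xiy x p)))) :=
    (continuous_nlog.tendsto _).comp (hlim _ (xiy_mem_kbox hr (mem_cube_zero.1 hxc)))
  rw [h4.liminf_eq, h0, nlog_zero] at hx
  exact lt_irrefl _ hx

end Pool.Agent.Helper65_Jessen
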