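import Pool.Agent.Helper65_Jessen.Reduce

set_option autoImplicit false

open Complex Metric Real Set Filter Topology MeasureTheory
open scoped ENNReal

namespace Pool.Agent.Helper65_Jessen

variable {n : ℕ}

/-- Conversion of the mean value hypothesis. -/
lemma mean_convert {f : (Fin n → ℂ) → ℂ} {M : ℝ} {p : Fin n → ℝ} {r : ℝ}
    (H : Core p r (normF f M p r)) (hM : 0 < M) {y : Fin n → ℝ} (hy : ∀ j, |y j - p j| ≤ 2 * r)
    {φy : ℝ} (hlim : Tendsto (fun t : ℝ => (1 / (2 * t) ^ n) *
      ∫ x in {x : Fin n → ℝ | ∀ j, |x j| < t}, Real.log ‖f (xiy x y)‖) atTop (𝓝 φy)) :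
    0 ≤ Real.log M - φy ∧ Tendsto (fun t : ℝ => (ENNReal.ofReal (2 * t) ^ n)⁻¹ *
      ∫⁻ x in Qo n t, nlog (normF f M p r (xiy x y))) atTop
      (𝓝 (ENNReal.ofReal (Real.log M - φy))) := by
  have hr := H.hr
  obtain ⟨C, hC, hul⟩ := H.ul1
  have hNm : Measurable (fun x : Fin n → ℝ => nlog (normF f M p r (xiy x y))) :=
    measurable_nlog.comp (H.meas.comp
      (continuous_xiy.comp (continuous_id.prodMk continuous_const)).measurable)
  set I₁ : ℝ → ℝ≥0∞ := fun t => ∫⁻ x in Qo n t, nlog (normF f M p r (xiy x y)) with hI₁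
  have hst : ∀ x : Fin n → ℝ, xiy x y ∈ strip p (4 * r) := by
    intro x j
    have : (xiy x y j).im = y j := by simp [xiy]
    rw [this]
    have := hy j
    linarith
  have hfin : ∀ t : ℝ, r / 8 ≤ t → I₁ t ≠ ⊤ := by
    intro t ht htop
    have h1 := mean_bound hNm (show (0:ℝ) < r / 8 by positivity) (fun x => hul x y hy) ht
    have h2 : (ENNReal.ofReal (2 * t) ^ n)⁻¹ ≠ 0 := by
      rw [Ne, ENNReal.inv_eq_zero]
      exact ENNReal.pow_ne_top ENNReal.ofReal_ne_top
    have h3 : (ENNReal.ofReal (2 * t) ^ n)⁻¹ * I₁ t = ⊤ := by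
      rw [htop, ENNReal.mul_top h2]
    rw [show (∫⁻ x in Qo n t, nlog (normF f M p r (xiy x y))) = I₁ t from rfl, h3] at h1
    have h4 : (ENNReal.ofReal (r / 8) ^ n)⁻¹ * C ≠ ⊤ := by
      apply ENNReal.mul_ne_top _ hC
      rw [Ne, ENNReal.inv_eq_top]
      apply pow_ne_zero
      rw [Ne, ENNReal.ofReal_eq_zero, not_le]
      positivity
    exact h4 (top_le_iff.1 h1)
  have hkey : ∀ t : ℝ, r / 8 ≤ t → (1 / (2 * t) ^ n) *
      ∫ x in {x : Fin n → ℝ | ∀ j, |x j| < t}, Real.log ‖f (xiy x y)‖ =
      Real.log M - (1 / (2 * t) ^ n) * (I₁ t).toReal := by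
    intro t ht
    have ht0 : 0 < t := by linarith
    have hQ : {x : Fin n → ℝ | ∀ j, |x j| < t} = Qo n t := rfl
    rw [hQ]
    have hae : ∀ᵐ x ∂(volume.restrict (Qo n t)), nlog (normF f M p r (xiy x y)) < ⊤ :=
      ae_lt_top hNm (hfin t ht)
    have h1 : ∫ x in Qo n t, Real.log ‖f (xiy x y)‖ =
        ∫ x in Qo n t, (Real.log M - (nlog (normF f M p r (xiy x y))).toReal) := by
      apply integral_congr_ae
      filter_upwards [hae] with x hx
      have hne : normF f M p r (xiy x y) ≠ 0 := by
        intro h0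
        rw [h0, nlog_zero] at hx
        exact lt_irrefl _ hx
      have hfne : f (xiy x y) ≠ 0 := by
        intro h0
        apply hne
        rw [normF_of_mem (hst x), h0, zero_div]
      rw [nlog_of_ne hne, ENNReal.toReal_ofReal]
      · rw [normF_of_mem (hst x), norm_div, Complex.norm_real, Real.norm_eq_abs, abs_of_pos hM,
          Real.log_div (norm_ne_zero_iff.2 hfne) hM.ne']
        ring
      · have := Real.log_nonpos (norm_nonneg _) (H.bdd (xiy x y))
        linarith
    have hvol : (volume : Measure (Fin n → ℝ)).real (Qo n t) = (2 * t) ^ n := by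
      rw [Measure.real, volume_Qo, ← ENNReal.ofReal_pow (by positivity),
        ENNReal.toReal_ofReal (by positivity)]
    have : IsFiniteMeasure ((volume : Measure (Fin n → ℝ)).restrict (Qo n t)) := by
      refine ⟨?_⟩
      rw [Measure.restrict_apply_univ, volume_Qo]
      exact lt_top_iff_ne_top.2 (ENNReal.pow_ne_top ENNReal.ofReal_ne_top)
    rw [h1, integral_sub (integrable_const _)
      (integrable_toReal_of_lintegral_ne_top hNm.aemeasurable (hfin t ht)),
      integral_toReal hNm.aemeasurable hae, setIntegral_const, hvol, smul_eq_mul]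
    have h2t : (2 * t) ^ n ≠ 0 := by positivity
    field_simp
    rfl
  have hlim2 : Tendsto (fun t : ℝ => (1 / (2 * t) ^ n) * (I₁ t).toReal) atTop
      (𝓝 (Real.log M - φy)) := by
    have h1 : Tendsto (fun t : ℝ => Real.log M - (1 / (2 * t) ^ n) *
      ∫ x in {x : Fin n → ℝ | ∀ j, |x j| < t}, Real.log ‖f (xiy x y)‖) atTop
      (𝓝 (Real.log M - φy)) := tendsto_const_nhds.sub hlim
    apply h1.congr'
    filter_upwards [eventually_ge_atTop (r / 8)] with t ht
    rw [hkey t ht]
    ring
  constructor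
  · apply ge_of_tendsto hlim2
    filter_upwards [eventually_ge_atTop (r / 8)] with t ht
    have ht0 : 0 < t := by linarith
    positivity
  · have h1 := (ENNReal.continuous_ofReal.tendsto _).comp hlim2
    apply h1.congr'
    filter_upwards [eventually_ge_atTop (r / 8)] with t ht
    have ht0 : 0 < t := by linarith
    simp only [Function.comp]
    rw [ENNReal.ofReal_mul (by positivity), ENNReal.ofReal_toReal (hfin t ht), one_div,
      ENNReal.ofReal_inv_of_pos (by positivity), ENNReal.ofReal_pow (by positivity)]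

end Pool.Agent.Helper65_Jessen
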