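import Pool.Agent.Helper65_Jessen.Means

set_option autoImplicit false

open Complex Metric Real Set Filter Topology MeasureTheory
open scoped ENNReal

namespace Pool.Agent.Helper65_Jessen

variable {n : ℕ}

/-- The defect of the mean value property in the variable `i₀` over circles of radius `ρ`. -/
noncomputable def Jd (F : (Fin n → ℂ) → ℂ) (i₀ : Fin n) (ρ : ℝ) (x y : Fin n → ℝ) : ℝ≥0∞ :=
  nlog (F (xiy x y)) - cav (fun ζ => F (Function.update (xiy x y) i₀ ζ)) (xiy x y i₀) ρ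

lemma continuous_xiy : Continuous (fun v : (Fin n → ℝ) × (Fin n → ℝ) => xiy v.1 v.2) := by
  unfold xiy
  fun_prop

lemma continuous_updc (i₀ : Fin n) (ρ : ℝ) :
    Continuous (fun v : ((Fin n → ℝ) × (Fin n → ℝ)) × ℝ =>
      Function.update (xiy v.1.1 v.1.2) i₀ (circleMap (xiy v.1.1 v.1.2 i₀) ρ v.2)) := by
  have h1 : Continuous (fun v : ((Fin n → ℝ) × (Fin n → ℝ)) × ℝ => xiy v.1.1 v.1.2) :=
    continuous_xiy.comp continuous_fst
  apply h1.update
  have h2 : Continuous (fun v : ((Fin n → ℝ) × (Fin n → ℝ)) × ℝ => xiy v.1.1 v.1.2 i₀) := by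
    exact (continuous_apply i₀).comp h1
  unfold circleMap
  fun_prop

lemma upd_circle (i₀ : Fin n) (ρ θ : ℝ) (x y : Fin n → ℝ) :
    Function.update (xiy x y) i₀ (circleMap (xiy x y i₀) ρ θ) =
      xiy (Function.update x i₀ (x i₀ + ρ * Real.cos θ))
        (Function.update y i₀ (y i₀ + ρ * Real.sin θ)) := by
  ext j
  by_cases hj : j = i₀
  · subst hj
    simp only [Function.update_self, xiy, circleMap]
    rw [Complex.exp_mul_I]
    push_cast
    ring
  · simp only [Function.update_of_ne hj, xiy]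

lemma measurable_Jd {F : (Fin n → ℂ) → ℂ} (hF : Measurable F) (i₀ : Fin n) (ρ : ℝ) :
    Measurable (fun v : (Fin n → ℝ) × (Fin n → ℝ) => Jd F i₀ ρ v.1 v.2) := by
  unfold Jd cav
  apply Measurable.sub
  · exact measurable_nlog.comp (hF.comp continuous_xiy.measurable)
  · apply Measurable.const_mul
    have h1 : Measurable (fun v : ((Fin n → ℝ) × (Fin n → ℝ)) × ℝ =>
      nlog (F (Function.update (xiy v.1.1 v.1.2) i₀ (circleMap (xiy v.1.1 v.1.2 i₀) ρ v.2)))) :=
      measurable_nlog.comp (hF.comp (continuous_updc i₀ ρ).measurable)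
    exact h1.lintegral_prod_right'

lemma ratio_eq {t s : ℝ} (ht : 0 < t) (hs : 0 ≤ s) :
    (ENNReal.ofReal (2 * t) ^ n)⁻¹ * ENNReal.ofReal (2 * s) ^ n = ENNReal.ofReal ((s / t) ^ n) := by
  rw [← ENNReal.ofReal_pow (by positivity), ← ENNReal.ofReal_pow (by positivity),
    ← ENNReal.ofReal_inv_of_pos (by positivity), ← ENNReal.ofReal_mul (by positivity)]
  congr 1
  rw [mul_pow, mul_pow, div_pow]
  field_simp

/-- Lower limit of the means of the defect. -/
lemma mean_defect {p : Fin n → ℝ} {r : ℝ} {F : (Fin n → ℂ) → ℂ} (H : Core p r F)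
    {m : (Fin n → ℝ) → ℝ}
    (hlim : ∀ y : Fin n → ℝ, (∀ j, |y j - p j| ≤ 2 * r) → Tendsto (fun t : ℝ =>
      (ENNReal.ofReal (2 * t) ^ n)⁻¹ * ∫⁻ x in Qo n t, nlog (F (xiy x y))) atTop
      (𝓝 (ENNReal.ofReal (m y)))) (i₀ : Fin n) {ρ : ℝ} (hρ : 0 < ρ) (hρr : ρ ≤ r)
    {y : Fin n → ℝ} (hy : ∀ j, |y j - p j| ≤ r) {c : ℝ≥0∞}
    (hc : (ENNReal.ofReal (2 * π))⁻¹ * (∫⁻ θ in Ioc 0 (2 * π),
      ENNReal.ofReal (m (Function.update y i₀ (y i₀ + ρ * Real.sin θ)))) + c ≤
        ENNReal.ofReal (m y)) :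
    c ≤ liminf (fun k : ℕ => (ENNReal.ofReal (2 * (k + 1 : ℝ)) ^ n)⁻¹ *
      ∫⁻ x in Qo n (k + 1 : ℝ), Jd F i₀ ρ x y) atTop := by
  have hr := H.hr
  have hr1 := H.hr1
  obtain ⟨C, hC, hul⟩ := H.ul1
  have hy2 : ∀ j, |y j - p j| ≤ 2 * r := fun j => (hy j).trans (by linarith)
  set yθ : ℝ → Fin n → ℝ := fun θ => Function.update y i₀ (y i₀ + ρ * Real.sin θ) with hyθ
  have hyθ2 : ∀ θ j, |yθ θ j - p j| ≤ 2 * r := by
    intro θ j
    by_cases hj : j = i₀
    · subst hj
      simp only [hyθ, Function.update_self]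
      have h1 : |ρ * Real.sin θ| ≤ ρ := by
        rw [abs_mul, abs_of_pos hρ]
        exact mul_le_of_le_one_right hρ.le (Real.abs_sin_le_one θ)
      calc |y j + ρ * Real.sin θ - p j| = |(y j - p j) + ρ * Real.sin θ| := by ring_nf
        _ ≤ |y j - p j| + |ρ * Real.sin θ| := abs_add_le _ _
        _ ≤ r + ρ := add_le_add (hy j) h1
        _ ≤ 2 * r := by linarith
    · simp only [hyθ, Function.update_of_ne hj]
      exact hy2 j
  have hyθc : Continuous yθ := by
    apply continuous_const.update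
    fun_prop
  set b : ℕ → ℝ → ℝ≥0∞ := fun k θ => (ENNReal.ofReal (2 * (k + 1 : ℝ)) ^ n)⁻¹ *
      ∫⁻ x in Qo n ((k + 1 : ℝ) + ρ), nlog (F (xiy x (yθ θ))) with hb
  have hGm : ∀ y : Fin n → ℝ, Measurable (fun x : Fin n → ℝ => nlog (F (xiy x y))) := by
    intro y
    apply measurable_nlog.comp (H.meas.comp _)
    exact (continuous_xiy.comp (continuous_id.prodMk continuous_const)).measurable
  have hbm : ∀ k, Measurable (b k) := by
    intro k
    apply Measurable.const_mul
    have h1 : Measurable (fun v : ℝ × (Fin n → ℝ) => nlog (F (xiy v.2 (yθ v.1)))) := by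
      apply measurable_nlog.comp (H.meas.comp _)
      have : Continuous (fun v : ℝ × (Fin n → ℝ) => xiy v.2 (yθ v.1)) :=
        continuous_xiy.comp (continuous_snd.prodMk (hyθc.comp continuous_fst))
      exact this.measurable
    exact h1.lintegral_prod_right'
  have hbeq : ∀ k θ, b k θ = ENNReal.ofReal ((((k + 1 : ℝ) + ρ) / (k + 1 : ℝ)) ^ n) *
      ((ENNReal.ofReal (2 * ((k + 1 : ℝ) + ρ)) ^ n)⁻¹ *
      ∫⁻ x in Qo n ((k + 1 : ℝ) + ρ), nlog (F (xiy x (yθ θ)))) := by
    intro k θ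
    rw [← ratio_eq (n := n) (t := (k + 1 : ℝ)) (s := (k + 1 : ℝ) + ρ) (by positivity)
      (by positivity)]
    have h0 : ENNReal.ofReal (2 * ((k + 1 : ℝ) + ρ)) ^ n ≠ 0 := by
      apply pow_ne_zero
      rw [Ne, ENNReal.ofReal_eq_zero, not_le]
      positivity
    have ht : ENNReal.ofReal (2 * ((k + 1 : ℝ) + ρ)) ^ n ≠ ⊤ :=
      ENNReal.pow_ne_top ENNReal.ofReal_ne_top
    rw [mul_assoc, ← mul_assoc (ENNReal.ofReal (2 * ((k + 1 : ℝ) + ρ)) ^ n),
      ENNReal.mul_inv_cancel h0 ht, one_mul]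
  have hbbound : ∀ k θ, b k θ ≤ ENNReal.ofReal (2 ^ n) * ((ENNReal.ofReal (r / 8) ^ n)⁻¹ * C) := by
    intro k θ
    rw [hbeq]
    have hk0 : (0:ℝ) ≤ k := Nat.cast_nonneg k
    apply mul_le_mul'
    · apply ENNReal.ofReal_le_ofReal
      apply pow_le_pow_left₀ (by positivity)
      rw [div_le_iff₀ (by positivity)]
      linarith
    · apply mean_bound (hGm _) (by positivity) (fun x => hul x _ (hyθ2 θ))
      linarith
  have hblim : ∀ θ, Tendsto (fun k => b k θ) atTop (𝓝 (ENNReal.ofReal (m (yθ θ)))) := by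
    intro θ
    have h1 : Tendsto (fun k : ℕ => (k + 1 : ℝ) + ρ) atTop atTop := by
      apply tendsto_atTop_add_const_right
      exact tendsto_atTop_add_const_right _ _ tendsto_natCast_atTop_atTop
    have h2 := (hlim (yθ θ) (hyθ2 θ)).comp h1
    have h3 : Tendsto (fun k : ℕ => ENNReal.ofReal ((((k + 1 : ℝ) + ρ) / (k + 1 : ℝ)) ^ n)) atTop
        (𝓝 1) := by
      have h4 : Tendsto (fun k : ℕ => (((k + 1 : ℝ) + ρ) / (k + 1 : ℝ)) ^ n) atTop (𝓝 1) := by
        have h5 : Tendsto (fun k : ℕ => 1 + ρ * (1 / (k + 1 : ℝ))) atTop (𝓝 (1 + ρ * 0)) := by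
          apply Tendsto.const_add
          apply Tendsto.const_mul
          exact tendsto_one_div_add_atTop_nhds_zero_nat
        have h6 := h5.pow n
        simp only [mul_zero, add_zero, one_pow] at h6
        apply h6.congr
        intro k
        congr 1
        field_simp
      have := (ENNReal.continuous_ofReal.tendsto 1).comp h4
      rw [ENNReal.ofReal_one] at this
      exact this
    have h7 := ENNReal.Tendsto.mul h3 (Or.inl one_ne_zero) h2 (Or.inr ENNReal.one_ne_top)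
    rw [one_mul] at h7
    apply h7.congr
    intro k
    rw [hbeq]
    rfl
  -- the upper means of the circle averages
  set v : ℕ → ℝ≥0∞ := fun k => (ENNReal.ofReal (2 * π))⁻¹ * ∫⁻ θ in Ioc 0 (2 * π), b k θ with hv
  have hvlim : Tendsto v atTop (𝓝 ((ENNReal.ofReal (2 * π))⁻¹ * (∫⁻ θ in Ioc 0 (2 * π),
      ENNReal.ofReal (m (yθ θ))))) := by
    apply ENNReal.Tendsto.const_mul _ (Or.inr _)
    · apply tendsto_lintegral_of_dominated_convergence
        (fun _ => ENNReal.ofReal (2 ^ n) * ((ENNReal.ofReal (r / 8) ^ n)⁻¹ * C)) hbm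
      · intro k
        exact Eventually.of_forall (fun θ => hbbound k θ)
      · rw [lintegral_const]
        apply ENNReal.mul_ne_top
        · apply ENNReal.mul_ne_top ENNReal.ofReal_ne_top
          apply ENNReal.mul_ne_top _ hC
          rw [Ne, ENNReal.inv_eq_top]
          apply pow_ne_zero
          rw [Ne, ENNReal.ofReal_eq_zero, not_le]
          positivity
        · rw [Measure.restrict_apply_univ, Real.volume_Ioc]
          exact ENNReal.ofReal_ne_top
      · exact Eventually.of_forall (fun θ => hblim θ)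
    · rw [Ne, ENNReal.inv_eq_top, ENNReal.ofReal_eq_zero, not_le]
      positivity
  set u : ℕ → ℝ≥0∞ := fun k => (ENNReal.ofReal (2 * (k + 1 : ℝ)) ^ n)⁻¹ *
      ∫⁻ x in Qo n (k + 1 : ℝ), nlog (F (xiy x y)) with hu
  have hulim : Tendsto u atTop (𝓝 (ENNReal.ofReal (m y))) := by
    have h1 : Tendsto (fun k : ℕ => (k + 1 : ℝ)) atTop atTop :=
      tendsto_atTop_add_const_right _ _ tendsto_natCast_atTop_atTop
    exact (hlim y hy2).comp h1
  have hsub : Tendsto (fun k => u k - v k) atTop (𝓝 (ENNReal.ofReal (m y) -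
      ((ENNReal.ofReal (2 * π))⁻¹ * (∫⁻ θ in Ioc 0 (2 * π), ENNReal.ofReal (m (yθ θ)))))) :=
    ENNReal.Tendsto.sub hulim hvlim (Or.inl ENNReal.ofReal_ne_top)
  have hfin : (ENNReal.ofReal (2 * π))⁻¹ * (∫⁻ θ in Ioc 0 (2 * π),
      ENNReal.ofReal (m (yθ θ))) ≠ ⊤ :=
    ne_top_of_le_ne_top ENNReal.ofReal_ne_top (le_self_add.trans hc)
  have hcle : c ≤ ENNReal.ofReal (m y) - ((ENNReal.ofReal (2 * π))⁻¹ *
      (∫⁻ θ in Ioc 0 (2 * π), ENNReal.ofReal (m (yθ θ)))) :=
    ENNReal.le_sub_of_add_le_left hfin hc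
  refine hcle.trans ?_
  rw [← hsub.liminf_eq]
  refine liminf_le_liminf (Eventually.of_forall (fun k => ?_))
  · -- pointwise in k
    have hk : (0:ℝ) < k + 1 := by positivity
    have e1 : (∫⁻ x in Qo n (k + 1 : ℝ), nlog (F (xiy x y))) -
        (∫⁻ x in Qo n (k + 1 : ℝ),
          cav (fun ζ => F (Function.update (xiy x y) i₀ ζ)) (xiy x y i₀) ρ) ≤
        ∫⁻ x in Qo n (k + 1 : ℝ), Jd F i₀ ρ x y := by
      apply lintegral_sub_le
      unfold cav
      apply Measurable.const_mul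
      have h1 : Measurable (fun v : (Fin n → ℝ) × ℝ =>
        nlog (F (Function.update (xiy v.1 y) i₀ (circleMap (xiy v.1 y i₀) ρ v.2)))) := by
        apply measurable_nlog.comp (H.meas.comp _)
        have := (continuous_updc (n := n) i₀ ρ).comp
          (f := fun v : (Fin n → ℝ) × ℝ => ((v.1, y), v.2)) (by fun_prop)
        exact this.measurable
      exact h1.lintegral_prod_right'
    have e2 : (∫⁻ x in Qo n (k + 1 : ℝ),
          cav (fun ζ => F (Function.update (xiy x y) i₀ ζ)) (xiy x y i₀) ρ) ≤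
        (ENNReal.ofReal (2 * π))⁻¹ * ∫⁻ θ in Ioc 0 (2 * π), ∫⁻ x in Qo n ((k + 1 : ℝ) + ρ),
          nlog (F (xiy x (yθ θ))) := by
      have h1 : Measurable (fun v : (Fin n → ℝ) × ℝ =>
        nlog (F (Function.update (xiy v.1 y) i₀ (circleMap (xiy v.1 y i₀) ρ v.2)))) := by
        apply measurable_nlog.comp (H.meas.comp _)
        have := (continuous_updc (n := n) i₀ ρ).comp
          (f := fun v : (Fin n → ℝ) × ℝ => ((v.1, y), v.2)) (by fun_prop)
        exact this.measurable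
      unfold cav
      rw [lintegral_const_mul _ h1.lintegral_prod_right']
      gcongr
      rw [lintegral_lintegral_swap (f := fun x θ =>
        nlog (F (Function.update (xiy x y) i₀ (circleMap (xiy x y i₀) ρ θ)))) h1.aemeasurable]
      apply lintegral_mono
      intro θ
      simp only [upd_circle]
      have h2 : |ρ * Real.cos θ| ≤ ρ := by
        rw [abs_mul, abs_of_pos hρ]
        exact mul_le_of_le_one_right hρ.le (Real.abs_cos_le_one θ)
      exact lint_Qo_translate (fun x => nlog (F (xiy x (yθ θ)))) i₀ h2 (k + 1 : ℝ)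
    have e3 : v k = (ENNReal.ofReal (2 * (k + 1 : ℝ)) ^ n)⁻¹ * ((ENNReal.ofReal (2 * π))⁻¹ *
        ∫⁻ θ in Ioc 0 (2 * π), ∫⁻ x in Qo n ((k + 1 : ℝ) + ρ), nlog (F (xiy x (yθ θ)))) := by
      simp only [hv, hb]
      rw [lintegral_const_mul']
      · ring
      · rw [Ne, ENNReal.inv_eq_top]
        apply pow_ne_zero
        rw [Ne, ENNReal.ofReal_eq_zero, not_le]
        positivity
    have hinv : (ENNReal.ofReal (2 * (k + 1 : ℝ)) ^ n)⁻¹ ≠ ⊤ := by
      rw [Ne, ENNReal.inv_eq_top]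
      apply pow_ne_zero
      rw [Ne, ENNReal.ofReal_eq_zero, not_le]
      positivity
    rw [e3]
    simp only [hu]
    rw [← ENNReal.mul_sub (fun _ _ => hinv)]
    gcongr
    exact (tsub_le_tsub_left e2 _).trans e1

end Pool.Agent.Helper65_Jessen
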