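import Pool.Agent.Helper65_Jessen.Core

set_option autoImplicit false

open Complex Metric Real Set Filter Topology MeasureTheory
open scoped ENNReal

namespace Pool.Agent.Helper65_Jessen

variable {n : ℕ}

/-- The open cube `{|x_j| < t}`. -/
def Qo (n : ℕ) (t : ℝ) : Set (Fin n → ℝ) := {x | ∀ j, |x j| < t}

lemma Qo_eq (t : ℝ) : Qo n t = Set.pi univ (fun _ => Ioo (-t) t) := by
  ext x
  simp [Qo, abs_lt]

lemma measurableSet_Qo (t : ℝ) : MeasurableSet (Qo n t) := by
  rw [Qo_eq]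
  exact MeasurableSet.univ_pi (fun _ => measurableSet_Ioo)

lemma volume_Qo (t : ℝ) : volume (Qo n t) = ENNReal.ofReal (2 * t) ^ n := by
  rw [Qo_eq, volume_pi_pi]
  simp only [Real.volume_Ioo]
  have : t - -t = 2 * t := by ring
  simp [this]

lemma volume_cube (x : Fin n → ℝ) (σ : ℝ) : volume (cube x σ) = ENNReal.ofReal (2 * σ) ^ n := by
  unfold cube
  rw [volume_pi_pi]
  simp only [Real.volume_Icc]
  have : ∀ i, x i + σ - (x i - σ) = 2 * σ := fun i => by ring
  simp [this]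

lemma mem_cube_comm {x x' : Fin n → ℝ} {σ : ℝ} : x ∈ cube x' σ ↔ x' ∈ cube x σ := by
  simp only [cube, Set.mem_univ_pi, mem_Icc]
  constructor <;> intro h i <;> constructor <;> linarith [(h i).1, (h i).2]

/-- Averaging over small cubes. -/
lemma cube_avg {G : (Fin n → ℝ) → ℝ≥0∞} (hG : Measurable G) (t σ : ℝ) :
    ENNReal.ofReal (2 * σ) ^ n * ∫⁻ x in Qo n t, G x ≤
      ∫⁻ x in Qo n (t + σ), ∫⁻ x' in cube x σ, G x' := by
  have hS : MeasurableSet {v : (Fin n → ℝ) × (Fin n → ℝ) | v.2 ∈ cube v.1 σ} := by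
    have : {v : (Fin n → ℝ) × (Fin n → ℝ) | v.2 ∈ cube v.1 σ} =
        ⋂ i, {v : (Fin n → ℝ) × (Fin n → ℝ) | v.1 i - σ ≤ v.2 i ∧ v.2 i ≤ v.1 i + σ} := by
      ext v
      simp only [cube, Set.mem_univ_pi, mem_Icc, mem_iInter, mem_ofPred_eq]
    rw [this]
    apply MeasurableSet.iInter
    intro i
    apply MeasurableSet.inter
    · exact measurableSet_le (f := fun v : (Fin n → ℝ) × (Fin n → ℝ) => v.1 i - σ)
        (g := fun v => v.2 i) (by fun_prop) (by fun_prop)
    · exact measurableSet_le (f := fun v : (Fin n → ℝ) × (Fin n → ℝ) => v.2 i)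
        (g := fun v => v.1 i + σ) (by fun_prop) (by fun_prop)
  have h1 : ∀ x : Fin n → ℝ, ∫⁻ x' in cube x σ, G x' =
      ∫⁻ x', {v : (Fin n → ℝ) × (Fin n → ℝ) | v.2 ∈ cube v.1 σ}.indicator (fun v => G v.2) (x, x') := by
    intro x
    rw [← lintegral_indicator (measurableSet_cube x σ)]
    rfl
  simp_rw [h1]
  have hmeas : Measurable ({v : (Fin n → ℝ) × (Fin n → ℝ) | v.2 ∈ cube v.1 σ}.indicator
      (fun v => G v.2)) := (hG.comp measurable_snd).indicator hS
  rw [lintegral_lintegral_swap (f := fun x x' =>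
    {v : (Fin n → ℝ) × (Fin n → ℝ) | v.2 ∈ cube v.1 σ}.indicator (fun v => G v.2) (x, x'))
    hmeas.aemeasurable]
  rw [← lintegral_const_mul _ hG]
  calc ∫⁻ x' in Qo n t, ENNReal.ofReal (2 * σ) ^ n * G x'
      ≤ ∫⁻ x' in Qo n t, ∫⁻ x in Qo n (t + σ),
        {v : (Fin n → ℝ) × (Fin n → ℝ) | v.2 ∈ cube v.1 σ}.indicator (fun v => G v.2) (x, x') := by
        apply setLIntegral_mono' (measurableSet_Qo t)
        intro x' hx'
        have hsub : cube x' σ ⊆ Qo n (t + σ) := by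
          intro x hx j
          have h2 := hx' j
          have h3 := hx j (mem_univ j)
          rw [abs_lt] at h2 ⊢
          constructor <;> linarith [h3.1, h3.2, h2.1, h2.2]
        calc ENNReal.ofReal (2 * σ) ^ n * G x' = ∫⁻ x in cube x' σ, G x' := by
              rw [setLIntegral_const, volume_cube, mul_comm]
          _ = ∫⁻ x in cube x' σ, {v : (Fin n → ℝ) × (Fin n → ℝ) | v.2 ∈ cube v.1 σ}.indicator
                (fun v => G v.2) (x, x') := by
              apply setLIntegral_congr_fun (measurableSet_cube x' σ)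
              intro x hx
              simp only
              rw [indicator_of_mem]
              exact mem_cube_comm.1 hx
          _ ≤ _ := lintegral_mono_set hsub
    _ ≤ _ := setLIntegral_le_lintegral _ _

/-- If local integrals are bounded then so are the means. -/
lemma mean_bound {G : (Fin n → ℝ) → ℝ≥0∞} (hG : Measurable G) {σ : ℝ} (hσ : 0 < σ) {C : ℝ≥0∞}
    (hC : ∀ x, ∫⁻ x' in cube x σ, G x' ≤ C) {t : ℝ} (ht : σ ≤ t) :
    (ENNReal.ofReal (2 * t) ^ n)⁻¹ * ∫⁻ x in Qo n t, G x ≤ (ENNReal.ofReal σ ^ n)⁻¹ * C := by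
  have ht0 : 0 < t := by linarith
  have h1 : ENNReal.ofReal (2 * σ) ^ n * ∫⁻ x in Qo n t, G x ≤ ENNReal.ofReal (4 * t) ^ n * C := by
    calc ENNReal.ofReal (2 * σ) ^ n * ∫⁻ x in Qo n t, G x
        ≤ ∫⁻ x in Qo n (t + σ), ∫⁻ x' in cube x σ, G x' := cube_avg hG t σ
      _ ≤ ∫⁻ x in Qo n (t + σ), C := lintegral_mono (fun x => hC x)
      _ = ENNReal.ofReal (2 * (t + σ)) ^ n * C := by
          rw [setLIntegral_const, volume_Qo, mul_comm]
      _ ≤ ENNReal.ofReal (4 * t) ^ n * C := by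
          gcongr ?_ ^ n * C
          exact ENNReal.ofReal_le_ofReal (by linarith)
  have e1 : ENNReal.ofReal (2 * σ) ^ n = 2 ^ n * ENNReal.ofReal σ ^ n := by
    rw [ENNReal.ofReal_mul (by norm_num), mul_pow]; simp
  have e2 : ENNReal.ofReal (4 * t) ^ n = 2 ^ n * ENNReal.ofReal (2 * t) ^ n := by
    have : 4 * t = 2 * (2 * t) := by ring
    rw [this, ENNReal.ofReal_mul (p := 2) (by norm_num), mul_pow]; simp
  rw [e1, e2] at h1
  have h2n0 : (2:ℝ≥0∞) ^ n ≠ 0 := pow_ne_zero _ (by norm_num)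
  have h2nt : (2:ℝ≥0∞) ^ n ≠ ⊤ := ENNReal.pow_ne_top (by norm_num)
  have hs0 : ENNReal.ofReal σ ^ n ≠ 0 := pow_ne_zero _ (by simpa using hσ)
  have hst : ENNReal.ofReal σ ^ n ≠ ⊤ := ENNReal.pow_ne_top ENNReal.ofReal_ne_top
  have ht0' : ENNReal.ofReal (2 * t) ^ n ≠ 0 := pow_ne_zero _ (by simpa using ht0)
  have htt : ENNReal.ofReal (2 * t) ^ n ≠ ⊤ := ENNReal.pow_ne_top ENNReal.ofReal_ne_top
  rw [mul_assoc, mul_assoc, ENNReal.mul_le_mul_iff_right h2n0 h2nt] at h1
  rw [ENNReal.inv_mul_le_iff ht0' htt, ← mul_assoc, mul_comm (ENNReal.ofReal (2 * t) ^ n),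
    mul_assoc, ← ENNReal.div_eq_inv_mul, ENNReal.le_div_iff_mul_le (Or.inl hs0) (Or.inl hst)]
  rw [mul_comm]
  exact h1

/-- If a mean is large then some local integral is large. -/
lemma exists_cube {G : (Fin n → ℝ) → ℝ≥0∞} (hG : Measurable G) {σ : ℝ} (hσ : 0 < σ) {c : ℝ≥0∞}
    {t : ℝ} (ht : σ ≤ t) (hc : c < (ENNReal.ofReal (2 * t) ^ n)⁻¹ * ∫⁻ x in Qo n t, G x) :
    ∃ x, ENNReal.ofReal σ ^ n * c ≤ ∫⁻ x' in cube x σ, G x' := by
  by_contra hcon
  push Not at hcon
  have h := mean_bound hG hσ (fun x => (hcon x).le) ht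
  have hs0 : ENNReal.ofReal σ ^ n ≠ 0 := pow_ne_zero _ (by simpa using hσ)
  have hst : ENNReal.ofReal σ ^ n ≠ ⊤ := ENNReal.pow_ne_top ENNReal.ofReal_ne_top
  rw [← mul_assoc, ENNReal.inv_mul_cancel hs0 hst, one_mul] at h
  exact absurd hc (not_lt.2 h)

/-- Translation estimate for integrals over large cubes. -/
lemma lint_Qo_translate (G : (Fin n → ℝ) → ℝ≥0∞) (i : Fin n) {a ρ : ℝ}
    (ha : |a| ≤ ρ) (t : ℝ) :
    ∫⁻ x in Qo n t, G (Function.update x i (x i + a)) ≤ ∫⁻ x in Qo n (t + ρ), G x := by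
  have hρ : 0 ≤ ρ := (abs_nonneg a).trans ha
  set v : Fin n → ℝ := Pi.single i a with hv
  have h1 : ∀ x : Fin n → ℝ, Function.update x i (x i + a) = x + v := by
    intro x
    ext j
    by_cases hj : j = i
    · subst hj; simp [hv]
    · simp [hv, Function.update_of_ne hj, Pi.single_eq_of_ne hj]
  simp_rw [h1]
  rw [← lintegral_indicator (measurableSet_Qo t), ← lintegral_indicator (measurableSet_Qo _)]
  rw [← lintegral_add_right_eq_self ((Qo n (t + ρ)).indicator G) v]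
  apply lintegral_mono
  intro x
  simp only
  by_cases hx : x ∈ Qo n t
  · rw [indicator_of_mem hx, indicator_of_mem]
    intro j
    have h2 := hx j
    simp only [Pi.add_apply]
    have h3 : |v j| ≤ ρ := by
      by_cases hj : j = i
      · subst hj; simpa [hv] using ha
      · simp [hv, Pi.single_eq_of_ne hj, hρ]
    calc |x j + v j| ≤ |x j| + |v j| := abs_add_le _ _
      _ < t + ρ := by linarith
  · rw [indicator_of_notMem hx]
    exact bot_le

end Pool.Agent.Helper65_Jessen
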