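import Pool.Agent.Helper65_Jessen.Normal

set_option autoImplicit false

open Complex Metric Real Set Filter Topology MeasureTheory
open scoped ENNReal

namespace Pool.Agent.Helper65_Jessen

variable {n : ℕ}

/-- An open box. -/
def obox (p : Fin n → ℝ) (L ρ : ℝ) : Set (Fin n → ℂ) :=
  {z | (∀ j, |(z j).re| < L) ∧ (∀ j, |(z j).im - p j| < ρ)}

lemma isOpen_obox (p : Fin n → ℝ) (L ρ : ℝ) : IsOpen (obox p L ρ) := by
  have : obox p L ρ = (⋂ j, {z : Fin n → ℂ | |(z j).re| < L}) ∩
      ⋂ j, {z : Fin n → ℂ | |(z j).im - p j| < ρ} := by ext z; simp [obox]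
  rw [this]
  apply IsOpen.inter <;> apply isOpen_iInter_of_finite <;> intro j <;> apply isOpen_lt <;> fun_prop

lemma convex_obox (p : Fin n → ℝ) (L ρ : ℝ) : Convex ℝ (obox p L ρ) := by
  intro z hz w hw a b ha hb hab
  constructor
  · intro j
    have h1 := hz.1 j
    have h2 := hw.1 j
    simp only [Pi.add_apply, Pi.smul_apply, Complex.add_re, Complex.real_smul, Complex.re_ofReal_mul]
    rw [abs_lt] at h1 h2 ⊢
    constructor
    · rcases eq_or_lt_of_le ha with h | h
      · have : b = 1 := by linarith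
        subst this; rw [← h]; linarith [h2.1]
      · nlinarith [mul_lt_mul_of_pos_left h1.1 h, mul_le_mul_of_nonneg_left h2.1.le hb]
    · rcases eq_or_lt_of_le ha with h | h
      · have : b = 1 := by linarith
        subst this; rw [← h]; linarith [h2.2]
      · nlinarith [mul_lt_mul_of_pos_left h1.2 h, mul_le_mul_of_nonneg_left h2.2.le hb]
  · intro j
    have h1 := hz.2 j
    have h2 := hw.2 j
    simp only [Pi.add_apply, Pi.smul_apply, Complex.add_im, Complex.real_smul, Complex.im_ofReal_mul]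
    have h3 : a * (z j).im + b * (w j).im - p j = a * ((z j).im - p j) + b * ((w j).im - p j) := by
      have : b = 1 - a := by linarith
      subst this; ring
    rw [h3]
    rw [abs_lt] at h1 h2 ⊢
    constructor
    · rcases eq_or_lt_of_le ha with h | h
      · have : b = 1 := by linarith
        subst this; rw [← h]; linarith [h2.1]
      · nlinarith [mul_lt_mul_of_pos_left h1.1 h, mul_le_mul_of_nonneg_left h2.1.le hb]
    · rcases eq_or_lt_of_le ha with h | h
      · have : b = 1 := by linarith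
        subst this; rw [← h]; linarith [h2.2]
      · nlinarith [mul_lt_mul_of_pos_left h1.2 h, mul_le_mul_of_nonneg_left h2.2.le hb]

lemma obox_subset_kbox (p : Fin n → ℝ) (L ρ : ℝ) : obox p L ρ ⊆ kbox p L ρ :=
  fun _ hz => ⟨fun j => (hz.1 j).le, fun j => (hz.2 j).le⟩

/-- Identity theorem on a convex open set, for functions holomorphic along complex lines. -/
lemma identity_convex {g : (Fin n → ℂ) → ℂ} {Ω : Set (Fin n → ℂ)} (hΩo : IsOpen Ω)
    (hΩc : Convex ℝ Ω)
    (hg : ∀ a b : Fin n → ℂ, DifferentiableOn ℂ (fun s : ℂ => g (a + s • b)) {s | a + s • b ∈ Ω})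
    {a v : Fin n → ℂ} (ha : a ∈ Ω) (hv : v ∈ Ω) (h0 : ∀ᶠ z in 𝓝 a, g z = 0) : g v = 0 := by
  set U : Set ℂ := {s | a + s • (v - a) ∈ Ω} with hU
  have hcont : Continuous (fun s : ℂ => a + s • (v - a)) := by fun_prop
  have hUo : IsOpen U := hΩo.preimage hcont
  have hUc : Convex ℝ U := by
    intro s hs t ht α β hα hβ hαβ
    have : a + (α • s + β • t) • (v - a) = α • (a + s • (v - a)) + β • (a + t • (v - a)) := by
      have h1 : β = 1 - α := by linarith
      subst h1
      ext j
      simp only [Pi.add_apply, Pi.smul_apply, Pi.sub_apply, Complex.real_smul, smul_eq_mul]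
      push_cast
      ring
    simp only [hU, mem_ofPred_eq]
    rw [this]
    exact hΩc hs ht hα hβ hαβ
  have h0U : (0:ℂ) ∈ U := by simp only [hU, mem_ofPred_eq]; simpa using ha
  have h1U : (1:ℂ) ∈ U := by simp only [hU, mem_ofPred_eq]; simpa using hv
  have han : AnalyticOnNhd ℂ (fun s : ℂ => g (a + s • (v - a))) U :=
    (hg a (v - a)).analyticOnNhd hUo
  have hev : (fun s : ℂ => g (a + s • (v - a))) =ᶠ[𝓝 0] 0 := by
    have h2 : Tendsto (fun s : ℂ => a + s • (v - a)) (𝓝 0) (𝓝 a) := by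
      have := hcont.tendsto 0
      simpa using this
    filter_upwards [h2.eventually h0] with s hs
    simpa using hs
  have := han.eqOn_zero_of_preconnected_of_eventuallyEq_zero hUc.isPreconnected h0U hev h1U
  simpa using this

/-- A uniform limit of translates is holomorphic along holomorphic curves. -/
lemma limit_diff {f g : (Fin n → ℂ) → ℂ} {p : Fin n → ℝ} {r L : ℝ} {x : ℕ → Fin n → ℝ}
    (hr : 0 < r) (hf : DifferentiableOn ℂ f (strip p (4 * r)))
    (hlim : TendstoUniformlyOn (fun k z => f (shift (x k) z)) g atTop (kbox p L (3 * r)))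
    {γ : ℂ → (Fin n → ℂ)} {U : Set ℂ} (hU : IsOpen U) (hγ : DifferentiableOn ℂ γ U)
    (hm : MapsTo γ U (kbox p L (3 * r))) : DifferentiableOn ℂ (fun s => g (γ s)) U := by
  have h1 : TendstoUniformlyOn (fun k s => f (shift (x k) (γ s))) (fun s => g (γ s)) atTop U := by
    have := hlim.comp γ
    exact this.mono hm
  apply h1.tendstoLocallyUniformlyOn.differentiableOn _ hU
  filter_upwards with k
  apply hf.comp ((differentiable_shift (x k)).comp_differentiableOn hγ)
  intro s hs
  refine (shift_mem_strip (x k)).2 ?_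
  intro j
  have := (hm hs).2 j
  linarith

/-- The hypothesis of almost periodicity used below. -/
def APon (p : Fin n → ℝ) (ρ : ℝ) (f : (Fin n → ℂ) → ℂ) : Prop :=
  ∀ ε : ℝ, 0 < ε → ∃ ℓ : ℝ, 0 < ℓ ∧ ∀ a : Fin n → ℝ, ∃ h : Fin n → ℝ, (∀ j, |h j - a j| < ℓ) ∧
      ∀ z ∈ strip p ρ, ‖f (shift h z) - f z‖ < ε

lemma nondeg {f : (Fin n → ℂ) → ℂ} {p : Fin n → ℝ} {r M σ : ℝ} (hr : 0 < r) (hσ : 0 < σ)
    (hf : DifferentiableOn ℂ f (strip p (4 * r))) (hM : ∀ z ∈ strip p (4 * r), ‖f z‖ ≤ M)
    (hap : APon p (3 * r) f) {z₀ : Fin n → ℂ} (hz₀ : z₀ ∈ strip p (3 * r)) (hfz₀ : f z₀ ≠ 0) :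
    ∃ η : ℝ, 0 < η ∧ ∀ (x y : Fin n → ℝ), (∀ j, |y j - p j| ≤ 2 * r) →
      ∃ z' : Fin n → ℂ, (∀ j, ‖z' j - xiy x y j‖ ≤ σ) ∧ η ≤ ‖f z'‖ := by
  by_contra hcon
  push Not at hcon
  have hε : 0 < ‖f z₀‖ / 2 := by positivity
  obtain ⟨ℓ, hℓ, hapℓ⟩ := hap _ hε
  -- sequences
  have hseq : ∀ k : ℕ, ∃ (x y : Fin n → ℝ), (∀ j, |y j - p j| ≤ 2 * r) ∧
      ∀ z' : Fin n → ℂ, (∀ j, ‖z' j - xiy x y j‖ ≤ σ) → ‖f z'‖ < 1 / (k + 1 : ℝ) :=
    fun k => hcon _ (by positivity)
  choose x y hy hxy using hseq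
  have hh : ∀ k : ℕ, ∃ h : Fin n → ℝ, (∀ j, |h j - (x k j - (z₀ j).re)| < ℓ) ∧
      ∀ z ∈ strip p (3 * r), ‖f (shift h z) - f z‖ < ‖f z₀‖ / 2 :=
    fun k => hapℓ (fun j => x k j - (z₀ j).re)
  choose h hh1 hh2 using hh
  set v : ℕ → Fin n → ℂ := fun k j => z₀ j + ((h k j - x k j : ℝ) : ℂ) with hv
  have hvre : ∀ k j, |(v k j).re| ≤ ℓ := by
    intro k j
    have h1 := hh1 k j
    have h2 : (v k j).re = h k j - (x k j - (z₀ j).re) := by simp [hv]; ring
    rw [h2]; exact h1.le
  have hvim : ∀ k j, (v k j).im = (z₀ j).im := by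
    intro k j; simp [hv]
  have hshiftv : ∀ k, shift (x k) (v k) = shift (h k) z₀ := by
    intro k; ext j; simp [shift, hv]; ring
  have hfv : ∀ k, ‖f z₀‖ / 2 ≤ ‖f (shift (x k) (v k))‖ := by
    intro k
    rw [hshiftv k]
    have h1 := hh2 k z₀ hz₀
    have h2 : ‖f z₀‖ ≤ ‖f (shift (h k) z₀)‖ + ‖f (shift (h k) z₀) - f z₀‖ := by
      have := norm_sub_norm_le (f z₀) (f (shift (h k) z₀))
      rw [norm_sub_rev] at this
      linarith
    linarith
  set L := ℓ + 1 with hL
  obtain ⟨φ, g, hφ, hgc, hlim⟩ := normal_seq L hr hf hM x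
  -- compactness of the parameters
  set K := kbox p L (3 * r) with hK
  have hvK : ∀ k, v k ∈ K := fun k =>
    ⟨fun j => (hvre k j).trans (by linarith), fun j => by rw [hvim]; exact (hz₀ j).le⟩
  set Y : Set (Fin n → ℝ) := Set.pi univ (fun j => Icc (p j - 2 * r) (p j + 2 * r)) with hY
  have hYc : IsCompact Y := isCompact_univ_pi (fun _ => isCompact_Icc)
  have hyY : ∀ k, y k ∈ Y := by
    intro k j _
    have := abs_le.1 (hy k j)
    constructor <;> linarith [this.1, this.2]
  obtain ⟨⟨v', y'⟩, hvy', ψ, hψ, hlim2⟩ := ((isCompact_kbox p L (3 * r)).prod hYc).tendsto_subseq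
    (x := fun k => (v (φ k), y (φ k))) (fun k => ⟨hvK _, hyY _⟩)
  have hlv : Tendsto (fun k => v (φ (ψ k))) atTop (𝓝 v') :=
    (continuous_fst.tendsto _).comp hlim2
  have hly : Tendsto (fun k => y (φ (ψ k))) atTop (𝓝 y') :=
    (continuous_snd.tendsto _).comp hlim2
  have hv'K : v' ∈ K := hvy'.1
  have hy'Y : y' ∈ Y := hvy'.2
  -- more precise location of v'
  have hv'obox : v' ∈ obox p L (3 * r) := by
    constructor
    · intro j
      have h1 : Tendsto (fun k => |(v (φ (ψ k)) j).re|) atTop (𝓝 |(v' j).re|) := by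
        have : Continuous (fun z : Fin n → ℂ => |(z j).re|) := by fun_prop
        exact (this.tendsto v').comp hlv
      have h2 := le_of_tendsto h1 (Eventually.of_forall (fun k => hvre (φ (ψ k)) j))
      linarith
    · intro j
      have h1 : Tendsto (fun k => |(v (φ (ψ k)) j).im - p j|) atTop (𝓝 |(v' j).im - p j|) := by
        have : Continuous (fun z : Fin n → ℂ => |(z j).im - p j|) := by fun_prop
        exact (this.tendsto v').comp hlv
      have h2 : |(v' j).im - p j| = |(z₀ j).im - p j| := by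
        apply tendsto_nhds_unique h1
        simp only [hvim]
        exact tendsto_const_nhds
      rw [h2]; exact hz₀ j
  -- g v' ≠ 0
  have hgv : ‖f z₀‖ / 2 ≤ ‖g v'‖ := by
    have h1 : Tendsto (fun k => f (shift (x (φ (ψ k))) (v (φ (ψ k))))) atTop (𝓝 (g v')) := by
      have hlim' : TendstoUniformlyOn (fun k z => f (shift (x (φ (ψ k))) z)) g atTop K := by
        intro u hu
        exact hψ.tendsto_atTop.eventually (hlim u hu)
      apply hlim'.tendsto_comp (hgc v' hv'K) 
      rw [tendsto_nhdsWithin_iff]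
      exact ⟨hlv, Eventually.of_forall (fun k => hvK _)⟩
    exact ge_of_tendsto h1.norm (Eventually.of_forall (fun k => hfv _))
  -- g vanishes near i y'
  set a : Fin n → ℂ := fun j => (y' j : ℂ) * I with ha
  have haobox : a ∈ obox p L (3 * r) := by
    constructor
    · intro j; simp [ha]; linarith
    · intro j
      have := hy'Y j (mem_univ j)
      simp only [ha, Complex.mul_im, Complex.ofReal_re, Complex.I_im, mul_one, Complex.ofReal_im,
        Complex.I_re, mul_zero, add_zero]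
      rw [abs_lt]
      constructor <;> linarith [this.1, this.2]
  have hgzero : ∀ᶠ z in 𝓝 a, g z = 0 := by
    have h1 : ∀ᶠ z in 𝓝 a, z ∈ obox p L (3 * r) := (isOpen_obox _ _ _).mem_nhds haobox
    have h2 : ∀ᶠ z in 𝓝 a, ‖z - a‖ < σ / 2 := by
      have : ball a (σ / 2) ∈ 𝓝 a := ball_mem_nhds _ (by positivity)
      filter_upwards [this] with z hz
      rwa [mem_ball, dist_eq_norm] at hz
    filter_upwards [h1, h2] with z hz1 hz2
    have hzK : z ∈ K := obox_subset_kbox _ _ _ hz1
    have h3 : Tendsto (fun k => f (shift (x (φ (ψ k))) z)) atTop (𝓝 (g z)) :=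
      (hlim.tendsto_at hzK).comp hψ.tendsto_atTop
    have h4 : Tendsto (fun k => f (shift (x (φ (ψ k))) z)) atTop (𝓝 0) := by
      rw [tendsto_zero_iff_norm_tendsto_zero]
      have h5 : Tendsto (fun k : ℕ => 1 / ((φ (ψ k) : ℕ) + 1 : ℝ)) atTop (𝓝 0) :=
        (tendsto_one_div_add_atTop_nhds_zero_nat (𝕜 := ℝ)).comp
          (hφ.tendsto_atTop.comp hψ.tendsto_atTop)
      apply squeeze_zero' (Eventually.of_forall (fun k => norm_nonneg _)) _ h5
      have h6 : ∀ᶠ k in atTop, ‖y (φ (ψ k)) - y'‖ < σ / 2 := by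
        have := (tendsto_iff_norm_sub_tendsto_zero.1 hly)
        exact this.eventually (gt_mem_nhds (by positivity))
      filter_upwards [h6] with k hk
      apply (hxy (φ (ψ k)) _ _).le
      intro j
      have h7 : shift (x (φ (ψ k))) z j - xiy (x (φ (ψ k))) (y (φ (ψ k))) j
          = (z j - a j) - ((y (φ (ψ k)) j - y' j : ℝ) : ℂ) * I := by
        simp only [shift, xiy, ha]; push_cast; ring
      rw [h7]
      calc ‖(z j - a j) - ((y (φ (ψ k)) j - y' j : ℝ) : ℂ) * I‖
          ≤ ‖z j - a j‖ + ‖((y (φ (ψ k)) j - y' j : ℝ) : ℂ) * I‖ := norm_sub_le _ _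
        _ ≤ σ / 2 + σ / 2 := by
            gcongr
            · exact (norm_le_pi_norm (z - a) j).trans hz2.le
            · rw [norm_mul, Complex.norm_I, mul_one, Complex.norm_real]
              exact (norm_le_pi_norm (y (φ (ψ k)) - y') j).trans hk.le
        _ = σ := by ring
    exact tendsto_nhds_unique h3 h4
  have hfinal : g v' = 0 := by
    apply identity_convex (isOpen_obox p L (3 * r)) (convex_obox p L (3 * r)) _ haobox hv'obox
      hgzero
    intro b c
    have hUo : IsOpen {s : ℂ | b + s • c ∈ obox p L (3 * r)} :=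
      (isOpen_obox _ _ _).preimage (by fun_prop)
    have := limit_diff hr hf (x := fun k => x (φ k)) hlim hUo (γ := fun s : ℂ => b + s • c)
      (by fun_prop) (fun s hs => obox_subset_kbox _ _ _ hs)
    exact this
  rw [hfinal, norm_zero] at hgv
  linarith

end Pool.Agent.Helper65_Jessen
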