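import Pool.Agent.Helper65_Jessen.Defs

set_option autoImplicit false

open Complex Metric Real Set Filter Topology MeasureTheory
open scoped ENNReal BoundedContinuousFunction

namespace Pool.Agent.Helper65_Jessen

variable {n : ℕ}

/-- An open strip around `p`. -/
def strip (p : Fin n → ℝ) (ρ : ℝ) : Set (Fin n → ℂ) := {z | ∀ j, |(z j).im - p j| < ρ}

/-- A compact box. -/
def kbox (p : Fin n → ℝ) (L ρ : ℝ) : Set (Fin n → ℂ) :=
  {z | (∀ j, |(z j).re| ≤ L) ∧ (∀ j, |(z j).im - p j| ≤ ρ)}

lemma isOpen_strip (p : Fin n → ℝ) (ρ : ℝ) : IsOpen (strip p ρ) := by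
  have : strip p ρ = ⋂ j, {z : Fin n → ℂ | |(z j).im - p j| < ρ} := by ext z; simp [strip]
  rw [this]
  apply isOpen_iInter_of_finite
  intro j
  apply isOpen_lt <;> fun_prop

lemma isClosed_kbox (p : Fin n → ℝ) (L ρ : ℝ) : IsClosed (kbox p L ρ) := by
  have : kbox p L ρ = (⋂ j, {z : Fin n → ℂ | |(z j).re| ≤ L}) ∩
      ⋂ j, {z : Fin n → ℂ | |(z j).im - p j| ≤ ρ} := by ext z; simp [kbox]
  rw [this]
  apply IsClosed.inter <;> apply isClosed_iInter <;> intro j <;> apply isClosed_le <;> fun_prop

lemma isCompact_kbox (p : Fin n → ℝ) (L ρ : ℝ) : IsCompact (kbox p L ρ) := by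
  apply Metric.isCompact_of_isClosed_isBounded (isClosed_kbox p L ρ)
  have hsub : kbox p L ρ ⊆ Set.pi univ (fun j => closedBall (0:ℂ) (L + |p j| + ρ)) := by
    intro z hz j _
    rw [mem_closedBall_zero_iff]
    calc ‖z j‖ ≤ |(z j).re| + |(z j).im| := Complex.norm_le_abs_re_add_abs_im _
      _ ≤ L + (|p j| + ρ) := by
          gcongr
          · exact hz.1 j
          · calc |(z j).im| = |p j + ((z j).im - p j)| := by ring_nf
              _ ≤ |p j| + |(z j).im - p j| := abs_add_le _ _
              _ ≤ |p j| + ρ := by gcongr; exact hz.2 j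
      _ = _ := by ring
  exact (Bornology.IsBounded.pi (fun j => isBounded_closedBall)).subset hsub

lemma norm_re_le (z : Fin n → ℂ) (j : Fin n) : |(z j).re| ≤ ‖z‖ :=
  (Complex.abs_re_le_norm _).trans (norm_le_pi_norm z j)

lemma norm_im_le (z : Fin n → ℂ) (j : Fin n) : |(z j).im| ≤ ‖z‖ :=
  (Complex.abs_im_le_norm _).trans (norm_le_pi_norm z j)

/-- Lipschitz bound for a bounded holomorphic function on a strip. -/
lemma lipschitz_strip {f : (Fin n → ℂ) → ℂ} {p : Fin n → ℝ} {r M : ℝ} (hr : 0 < r)
    (hf : DifferentiableOn ℂ f (strip p (4 * r))) (hM : ∀ z ∈ strip p (4 * r), ‖f z‖ ≤ M)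
    {z z' : Fin n → ℂ} (hz : ∀ j, |(z j).im - p j| ≤ 3 * r) (hz' : ∀ j, |(z' j).im - p j| ≤ 3 * r) :
    ‖f z' - f z‖ ≤ (2 * M / r) * ‖z' - z‖ := by
  have hzs : z ∈ strip p (4 * r) := fun j => by have := hz j; linarith
  have hzs' : z' ∈ strip p (4 * r) := fun j => by have := hz' j; linarith
  have hM0 : 0 ≤ M := (norm_nonneg _).trans (hM z hzs)
  rcases lt_or_ge ‖z' - z‖ r with h | h
  · have hsub : ball z r ⊆ strip p (4 * r) := by
      intro w hw j
      rw [mem_ball, dist_eq_norm] at hw
      have h1 := (norm_im_le (w - z) j).trans_lt hw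
      have h2 := hz j
      simp only [Pi.sub_apply, Complex.sub_im] at h1
      calc |(w j).im - p j| = |((w j).im - (z j).im) + ((z j).im - p j)| := by ring_nf
        _ ≤ |(w j).im - (z j).im| + |(z j).im - p j| := abs_add_le _ _
        _ < r + 3 * r := by linarith
        _ = 4 * r := by ring
    have h3 : MapsTo f (ball z r) (closedBall (f z) (2 * M)) := by
      intro w hw
      rw [mem_closedBall, dist_eq_norm]
      calc ‖f w - f z‖ ≤ ‖f w‖ + ‖f z‖ := norm_sub_le _ _
        _ ≤ M + M := add_le_add (hM w (hsub hw)) (hM z hzs)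
        _ = 2 * M := by ring
    have h4 := Complex.dist_le_div_mul_dist_of_mapsTo_ball (hf.mono hsub) h3
      (show z' ∈ ball z r by rw [mem_ball, dist_eq_norm]; exact h)
    rwa [dist_eq_norm, dist_eq_norm] at h4
  · calc ‖f z' - f z‖ ≤ ‖f z'‖ + ‖f z‖ := norm_sub_le _ _
      _ ≤ M + M := add_le_add (hM z' hzs') (hM z hzs)
      _ = (2 * M / r) * r := by field_simp; ring
      _ ≤ (2 * M / r) * ‖z' - z‖ := by gcongr

lemma shift_im (h : Fin n → ℝ) (z : Fin n → ℂ) (j : Fin n) : (shift h z j).im = (z j).im := by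
  simp [shift]

lemma shift_re (h : Fin n → ℝ) (z : Fin n → ℂ) (j : Fin n) : (shift h z j).re = (z j).re + h j := by
  simp [shift]

lemma shift_mem_strip {p : Fin n → ℝ} {ρ : ℝ} {z : Fin n → ℂ} (h : Fin n → ℝ) :
    shift h z ∈ strip p ρ ↔ z ∈ strip p ρ := by
  simp [strip, shift_im]

lemma continuous_shift (h : Fin n → ℝ) : Continuous (shift (n := n) h) := by
  unfold shift
  fun_prop

lemma differentiable_shift (h : Fin n → ℝ) : Differentiable ℂ (shift (n := n) h) := by
  unfold shift
  fun_prop

/-- A sequence of real translates of a bounded holomorphic function on a strip has a subsequence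
converging uniformly on a given compact box. -/
lemma normal_seq {f : (Fin n → ℂ) → ℂ} {p : Fin n → ℝ} {r M : ℝ} (L : ℝ) (hr : 0 < r)
    (hf : DifferentiableOn ℂ f (strip p (4 * r))) (hM : ∀ z ∈ strip p (4 * r), ‖f z‖ ≤ M)
    (x : ℕ → Fin n → ℝ) :
    ∃ (φ : ℕ → ℕ) (g : (Fin n → ℂ) → ℂ), StrictMono φ ∧ ContinuousOn g (kbox p L (3 * r)) ∧
      TendstoUniformlyOn (fun k z => f (shift (x (φ k)) z)) g atTop (kbox p L (3 * r)) := by
  set K := kbox p L (3 * r) with hK
  have hcK : CompactSpace K := isCompact_iff_compactSpace.1 (isCompact_kbox p L (3 * r))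
  rcases isEmpty_or_nonempty K with hem | hne
  · refine ⟨id, fun _ => 0, strictMono_id, continuousOn_const, ?_⟩
    have : K = ∅ := Set.isEmpty_coe_sort.1 hem
    rw [this]
    exact tendstoUniformlyOn_empty
  have hKs : ∀ z ∈ K, z ∈ strip p (4 * r) := fun z hz j => by have := hz.2 j; linarith
  obtain ⟨w₀⟩ := hne
  have hM0 : 0 ≤ M := (norm_nonneg _).trans (hM w₀ (hKs _ w₀.2))
  set A : Set (K →ᵇ ℂ) := {u | (∀ z, ‖u z‖ ≤ M) ∧
    ∀ z z' : K, dist (u z) (u z') ≤ (2 * M / r) * dist z z'} with hA
  have hAc : IsClosed A := by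
    have : A = (⋂ z, {u : K →ᵇ ℂ | ‖u z‖ ≤ M}) ∩
        ⋂ z, ⋂ z', {u : K →ᵇ ℂ | dist (u z) (u z') ≤ (2 * M / r) * dist z z'} := by
      ext u; simp [hA]
    rw [this]
    apply IsClosed.inter
    · apply isClosed_iInter
      intro z
      exact isClosed_le (continuous_eval_const z).norm continuous_const
    · apply isClosed_iInter; intro z
      apply isClosed_iInter; intro z'
      exact isClosed_le ((continuous_eval_const z).dist (continuous_eval_const z'))
        continuous_const
  have hcompact : IsCompact A := by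
    apply BoundedContinuousFunction.arzela_ascoli₂ (closedBall (0:ℂ) M) (isCompact_closedBall _ _)
      A hAc
    · intro u z hu
      rw [mem_closedBall_zero_iff]
      exact hu.1 z
    · have hL : ∀ u : A, LipschitzWith (Real.toNNReal (2 * M / r)) (u : K → ℂ) := by
        intro u
        apply LipschitzWith.of_dist_le_mul
        intro z z'
        rw [Real.coe_toNNReal _ (by positivity)]
        exact u.2.2 z z'
      exact (LipschitzWith.uniformEquicontinuous _ _ hL).equicontinuous
  -- the sequence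
  have hcont : ∀ k, Continuous (fun z : K => f (shift (x k) z)) := by
    intro k
    have h1 : ContinuousOn (fun z => f (shift (x k) z)) K := by
      apply (hf.continuousOn).comp (continuous_shift _).continuousOn
      intro z hz
      exact (shift_mem_strip _).2 (hKs z hz)
    exact h1.comp_continuous continuous_subtype_val (fun z => z.2)
  set u : ℕ → (K →ᵇ ℂ) := fun k => BoundedContinuousFunction.mkOfCompact ⟨_, hcont k⟩ with hu
  have huA : ∀ k, u k ∈ A := by
    intro k
    constructor
    · intro z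
      simp only [hu, BoundedContinuousFunction.mkOfCompact_apply, ContinuousMap.coe_mk]
      exact hM _ ((shift_mem_strip _).2 (hKs z z.2))
    · intro z z'
      simp only [hu, BoundedContinuousFunction.mkOfCompact_apply, ContinuousMap.coe_mk]
      rw [dist_eq_norm]
      have h1 := lipschitz_strip hr hf hM (z := shift (x k) (z' : Fin n → ℂ))
        (z' := shift (x k) (z : Fin n → ℂ)) (fun j => by rw [shift_im]; exact z'.2.2 j)
        (fun j => by rw [shift_im]; exact z.2.2 j)
      refine h1.trans (le_of_eq ?_)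
      congr 1
      rw [Subtype.dist_eq, dist_eq_norm]
      congr 1
      ext j
      simp [shift]
  obtain ⟨v, hvA, φ, hφ, hlim⟩ := hcompact.tendsto_subseq huA
  classical
  refine ⟨φ, fun z => if h : z ∈ K then v ⟨z, h⟩ else 0, hφ, ?_, ?_⟩
  · rw [continuousOn_iff_continuous_domRestrict]
    have : K.domRestrict (fun z => if h : z ∈ K then v ⟨z, h⟩ else 0) = v := by
      ext z
      simp [Set.domRestrict]
    rw [this]
    exact v.continuous
  · rw [BoundedContinuousFunction.tendsto_iff_tendstoUniformly] at hlim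
    rw [Metric.tendstoUniformlyOn_iff]
    rw [Metric.tendstoUniformly_iff] at hlim
    intro ε hε
    filter_upwards [hlim ε hε] with k hk z hz
    have := hk ⟨z, hz⟩
    simp only [hz, dif_pos]
    exact this

end Pool.Agent.Helper65_Jessen
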