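import Pool.Agent.Helper65_Jessen.MeanConv

set_option autoImplicit false

open Complex Metric Real Set Filter Topology MeasureTheory
open scoped ENNReal

namespace Pool.Agent.Helper65_Jessen

variable {n : ℕ}

/-- The convex function `∑ y_j² + max (0, (y_{i₀} - p_{i₀}) + (y_{i₁} - p_{i₁})²)`. -/
noncomputable def phi (p : Fin n → ℝ) (i₀ i₁ : Fin n) (y : Fin n → ℝ) : ℝ :=
  ∑ j, (y j) ^ 2 + max 0 ((y i₀ - p i₀) + (y i₁ - p i₁) ^ 2)

lemma phi_yc (p : Fin n → ℝ) {i₀ i₁ : Fin n} (hne : i₀ ≠ i₁) (τ : ℝ) :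
    phi p i₀ i₁ (yc p i₀ i₁ τ) = ∑ j, (yc p i₀ i₁ τ j) ^ 2 := by
  unfold phi
  rw [yc_i₀, yc_i₁ p hne]
  have : p i₀ - τ ^ 2 - p i₀ + (p i₁ + τ - p i₁) ^ 2 = 0 := by ring
  rw [this, max_self, add_zero]

lemma phi_upd_ge (p : Fin n → ℝ) {i₀ i₁ : Fin n} (hne : i₀ ≠ i₁) (τ : ℝ) {ρ : ℝ} (hρ : 0 < ρ)
    (θ : ℝ) :
    phi p i₀ i₁ (yc p i₀ i₁ τ) + 2 * (yc p i₀ i₁ τ i₀) * ρ * Real.sin θ + ρ * max 0 (Real.sin θ) ≤
      phi p i₀ i₁ (Function.update (yc p i₀ i₁ τ) i₀ (yc p i₀ i₁ τ i₀ + ρ * Real.sin θ)) := by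
  rw [phi_yc p hne]
  unfold phi
  rw [Function.update_self, Function.update_of_ne hne.symm, yc_i₁ p hne]
  have h1 : ∑ j, (Function.update (yc p i₀ i₁ τ) i₀ (yc p i₀ i₁ τ i₀ + ρ * Real.sin θ) j) ^ 2 =
      ∑ j, (yc p i₀ i₁ τ j) ^ 2 + (2 * (yc p i₀ i₁ τ i₀) * ρ * Real.sin θ + ρ ^ 2 * Real.sin θ ^ 2) := by
    rw [← Finset.add_sum_erase _ _ (Finset.mem_univ i₀),
      ← Finset.add_sum_erase _ (fun j => (yc p i₀ i₁ τ j) ^ 2) (Finset.mem_univ i₀),
      Function.update_self]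
    have h2 : ∑ j ∈ Finset.univ.erase i₀,
        (Function.update (yc p i₀ i₁ τ) i₀ (yc p i₀ i₁ τ i₀ + ρ * Real.sin θ) j) ^ 2 =
        ∑ j ∈ Finset.univ.erase i₀, (yc p i₀ i₁ τ j) ^ 2 := by
      apply Finset.sum_congr rfl
      intro j hj
      rw [Function.update_of_ne (Finset.ne_of_mem_erase hj)]
    rw [h2]
    ring
  rw [h1]
  have h3 : yc p i₀ i₁ τ i₀ + ρ * Real.sin θ - p i₀ + (p i₁ + τ - p i₁) ^ 2 = ρ * Real.sin θ := by
    rw [yc_i₀]; ring
  rw [h3]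
  have h4 : max 0 (ρ * Real.sin θ) = ρ * max 0 (Real.sin θ) := by
    rw [mul_max_of_nonneg _ _ hρ.le, mul_zero]
  rw [h4]
  have : 0 ≤ ρ ^ 2 * Real.sin θ ^ 2 := by positivity
  linarith

lemma integral_max_sin : ∫ θ in (0:ℝ)..(2 * π), max 0 (Real.sin θ) = 2 := by
  have hc : Continuous (fun θ : ℝ => max 0 (Real.sin θ)) := by fun_prop
  have h0 : ∫ θ in (0:ℝ)..(2 * π), max 0 (Real.sin θ) =
      (∫ θ in (0:ℝ)..π, max 0 (Real.sin θ)) + ∫ θ in π..(2 * π), max 0 (Real.sin θ) :=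
    (intervalIntegral.integral_add_adjacent_intervals (hc.intervalIntegrable _ _)
      (hc.intervalIntegrable _ _)).symm
  rw [h0]
  have h1 : ∫ θ in (0:ℝ)..π, max 0 (Real.sin θ) = ∫ θ in (0:ℝ)..π, Real.sin θ := by
    apply intervalIntegral.integral_congr
    intro θ hθ
    rw [uIcc_of_le Real.pi_pos.le] at hθ
    exact max_eq_right (Real.sin_nonneg_of_nonneg_of_le_pi hθ.1 hθ.2)
  have h2 : ∫ θ in π..(2 * π), max 0 (Real.sin θ) = ∫ θ in π..(2 * π), (0:ℝ) := by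
    apply intervalIntegral.integral_congr
    intro θ hθ
    rw [uIcc_of_le (by linarith [Real.pi_pos])] at hθ
    apply max_eq_left
    have h3 : Real.sin θ = Real.sin (θ - 2 * π) := by rw [Real.sin_sub_two_pi]
    rw [h3]
    apply Real.sin_nonpos_of_nonpos_of_neg_pi_le <;> linarith [hθ.1, hθ.2]
  rw [h1, h2, integral_sin, intervalIntegral.integral_zero, Real.cos_zero, Real.cos_pi]
  norm_num

lemma hc_phi {p : Fin n → ℝ} {i₀ i₁ : Fin n} (hne : i₀ ≠ i₁) {r A : ℝ} (hr : 0 < r) (hr1 : r ≤ 1)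
    (hA : ∀ y : Fin n → ℝ, (∀ j, |y j - p j| ≤ 2 * r) → 0 ≤ A - phi p i₀ i₁ y)
    {ρ : ℝ} (hρ : 0 < ρ) (hρr : ρ ≤ r / 4) {τ : ℝ} (hτ : τ ∈ Icc (-r) r) :
    (ENNReal.ofReal (2 * π))⁻¹ * (∫⁻ θ in Ioc 0 (2 * π),
      ENNReal.ofReal (A - phi p i₀ i₁ (Function.update (yc p i₀ i₁ τ) i₀
        (yc p i₀ i₁ τ i₀ + ρ * Real.sin θ)))) + ENNReal.ofReal (ρ / π) ≤
        ENNReal.ofReal (A - phi p i₀ i₁ (yc p i₀ i₁ τ)) := by
  have hπ := Real.pi_pos
  set b := yc p i₀ i₁ τ i₀ with hb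
  set m₀ := A - phi p i₀ i₁ (yc p i₀ i₁ τ) with hm₀
  set q : ℝ → ℝ := fun θ => m₀ - 2 * b * ρ * Real.sin θ - ρ * max 0 (Real.sin θ) with hq
  have hqc : Continuous q := by simp only [hq]; fun_prop
  have hle : ∀ θ, A - phi p i₀ i₁ (Function.update (yc p i₀ i₁ τ) i₀ (b + ρ * Real.sin θ)) ≤ q θ := by
    intro θ
    have := phi_upd_ge p hne τ hρ θ
    simp only [hq, hm₀]
    linarith
  have hnn : ∀ θ, 0 ≤ A - phi p i₀ i₁ (Function.update (yc p i₀ i₁ τ) i₀ (b + ρ * Real.sin θ)) := by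
    intro θ
    apply hA
    intro j
    have hτ' : |τ| ≤ r := abs_le.2 ⟨by linarith [hτ.1], hτ.2⟩
    by_cases hj : j = i₀
    · subst hj
      rw [Function.update_self]
      have h1 : |ρ * Real.sin θ| ≤ ρ := by
        rw [abs_mul, abs_of_pos hρ]
        exact mul_le_of_le_one_right hρ.le (Real.abs_sin_le_one θ)
      calc |b + ρ * Real.sin θ - p j| = |(b - p j) + ρ * Real.sin θ| := by ring_nf
        _ ≤ |b - p j| + |ρ * Real.sin θ| := abs_add_le _ _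
        _ ≤ r + ρ := add_le_add (yc_near p j i₁ hr hr1 hτ' j) h1
        _ ≤ 2 * r := by linarith
    · rw [Function.update_of_ne hj]
      exact (yc_near p i₀ i₁ hr hr1 hτ' j).trans (by linarith)
  have hq0 : ∀ θ, 0 ≤ q θ := fun θ => (hnn θ).trans (hle θ)
  have hint : ∫ θ in (0:ℝ)..(2 * π), q θ = 2 * π * m₀ - 2 * ρ := by
    simp only [hq]
    rw [intervalIntegral.integral_sub, intervalIntegral.integral_sub,
      intervalIntegral.integral_const, intervalIntegral.integral_const_mul,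
      intervalIntegral.integral_const_mul, integral_max_sin, integral_sin]
    · simp
      ring
    · exact (continuous_const).intervalIntegrable _ _
    · exact (by fun_prop : Continuous (fun θ : ℝ => 2 * b * ρ * Real.sin θ)).intervalIntegrable _ _
    · exact (by fun_prop : Continuous (fun θ : ℝ => m₀ - 2 * b * ρ * Real.sin θ)).intervalIntegrable
        _ _
    · exact (by fun_prop : Continuous (fun θ : ℝ => ρ * max 0 (Real.sin θ))).intervalIntegrable _ _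
  have hlint : ∫⁻ θ in Ioc 0 (2 * π), ENNReal.ofReal (q θ) = ENNReal.ofReal (2 * π * m₀ - 2 * ρ) := by
    rw [← hint, intervalIntegral.integral_of_le (by positivity),
      ofReal_integral_eq_lintegral_ofReal]
    · exact hqc.integrableOn_Ioc
    · exact Eventually.of_forall hq0
  have hpos : 0 ≤ 2 * π * m₀ - 2 * ρ := by
    rw [← hint]
    exact intervalIntegral.integral_nonneg (by positivity) (fun θ _ => hq0 θ)
  have hm₀ρ : 0 ≤ m₀ - ρ / π := by
    have : m₀ - ρ / π = (2 * π * m₀ - 2 * ρ) / (2 * π) := by field_simp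
    rw [this]
    positivity
  calc (ENNReal.ofReal (2 * π))⁻¹ * (∫⁻ θ in Ioc 0 (2 * π),
      ENNReal.ofReal (A - phi p i₀ i₁ (Function.update (yc p i₀ i₁ τ) i₀
        (b + ρ * Real.sin θ)))) + ENNReal.ofReal (ρ / π)
      ≤ (ENNReal.ofReal (2 * π))⁻¹ * (∫⁻ θ in Ioc 0 (2 * π), ENNReal.ofReal (q θ)) +
        ENNReal.ofReal (ρ / π) := by
        gcongr with θ
        exact hle θ
    _ = ENNReal.ofReal (m₀ - ρ / π) + ENNReal.ofReal (ρ / π) := by
        rw [hlint, ← ENNReal.ofReal_inv_of_pos (by positivity), ← ENNReal.ofReal_mul (by positivity)]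
        congr 2
        field_simp
    _ = ENNReal.ofReal m₀ := by
        rw [← ENNReal.ofReal_add hm₀ρ (by positivity)]
        congr 1
        ring

/-- `phi` is not a Jessen function. -/
theorem phi_not_jessen {G : Set (Fin n → ℝ)} (hGo : IsOpen G) (hGc : Convex ℝ G) {p : Fin n → ℝ}
    (hp : p ∈ G) {i₀ i₁ : Fin n} (hne : i₀ ≠ i₁) : ¬ IsJessenFunction G (phi p i₀ i₁) := by
  rintro ⟨f, hf, hap, hnz, hlim⟩
  obtain ⟨R, hR, hRG⟩ := Metric.nhds_basis_closedBall.mem_iff.1 (hGo.mem_nhds hp)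
  set r : ℝ := min 1 (R / 4) with hr
  have hr0 : 0 < r := by positivity
  have hr1 : r ≤ 1 := min_le_left _ _
  have hrR : 4 * r ≤ R := by
    have : r ≤ R / 4 := min_le_right _ _
    linarith
  have hsub : closedBall p (4 * r) ⊆ G := (closedBall_subset_closedBall hrR).trans hRG
  obtain ⟨M, hM, hMf⟩ := ap_bounded hf hap (show (0:ℝ) < 4 * r by positivity) hsub
  have H := normF_core hGo hGc hf hap hnz hr0 hr1 hsub hM hMf
  have hyG : ∀ y : Fin n → ℝ, (∀ j, |y j - p j| ≤ 2 * r) → y ∈ G := by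
    intro y hy
    apply hsub
    rw [mem_closedBall, dist_pi_le_iff (by positivity)]
    intro j
    rw [Real.dist_eq]
    exact (hy j).trans (by linarith)
  have hconv := fun (y : Fin n → ℝ) (hy : ∀ j, |y j - p j| ≤ 2 * r) =>
    mean_convert H hM hy (hlim y (hyG y hy))
  exact core_false H (m := fun y => Real.log M - phi p i₀ i₁ y) (fun y hy => (hconv y hy).2) hne
    (fun ρ hρ hρr τ hτ => hc_phi hne hr0 hr1 (fun y hy => (hconv y hy).1) hρ hρr hτ)

end Pool.Agent.Helper65_Jessen
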