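import Mathlib

set_option autoImplicit false

open Complex MeromorphicOn Metric Real Set Filter Topology MeasureTheory InnerProductSpace

namespace Pool.Agent.Helper65_Jessen

/-- A function analytic on a neighbourhood of a closed disc and not vanishing at one point has
finite order everywhere on the disc. -/
lemma order_ne_top {f : ℂ → ℂ} {c : ℂ} {R : ℝ} (hR : 0 ≤ R)
    (hf : AnalyticOnNhd ℂ f (closedBall c R)) {w : ℂ} (hw : w ∈ closedBall c R) (hfw : f w ≠ 0) :
    ∀ u : (closedBall c R), meromorphicOrderAt f u ≠ ⊤ := by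
  rw [← hf.meromorphicOn.exists_meromorphicOrderAt_ne_top_iff_forall
    (Metric.isConnected_closedBall hR)]
  refine ⟨⟨w, hw⟩, ?_⟩
  have : meromorphicOrderAt f w = 0 :=
    (hf w hw).meromorphicNFAt.meromorphicOrderAt_eq_zero_iff.2 hfw
  simp [this]

lemma poissonKernel_continuousOn {R : ℝ} {w : ℂ} (hw : w ∈ ball 0 R) :
    ContinuousOn (poissonKernel 0 w) (sphere 0 |R|) := by
  rw [poissonKernel_eq_re_herglotzRieszKernel]
  exact Complex.continuous_re.comp_continuousOn (continuousOn_herglotzRieszKernel_sphere hw)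

lemma circleIntegrable_poisson_mul {g : ℂ → ℝ} {R : ℝ} {w : ℂ} (hw : w ∈ ball 0 R)
    (hg : CircleIntegrable g 0 R) :
    CircleIntegrable (fun z => poissonKernel 0 w z * g z) 0 R := by
  unfold CircleIntegrable at *
  apply hg.continuousOn_mul
  apply Continuous.continuousOn
  have h := poissonKernel_continuousOn hw
  exact h.comp_continuous (continuous_circleMap 0 R) (fun x => circleMap_mem_sphere' 0 R x)

/-- The Poisson-Jensen formula for functions analytic on a closed disc. -/
theorem poissonJensen {f : ℂ → ℂ} {R : ℝ} {w : ℂ} (hR : 0 < R)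
    (hf : AnalyticOnNhd ℂ f (closedBall 0 R)) (hw : w ∈ ball 0 R) (hfw : f w ≠ 0) :
    Real.log ‖f w‖ = circleAverage (fun z => poissonKernel 0 w z * Real.log ‖f z‖) 0 R
      - ∑ᶠ i, (divisor f (ball 0 R) i : ℝ) * Real.log ‖canonicalFactor R i w‖ := by
  have hw' : w ∈ closedBall 0 R := ball_subset_closedBall hw
  have htop := order_ne_top hR.le hf hw' hfw
  obtain ⟨h, D⟩ := hf.meromorphicOn.exists_ecanonicalDecomp htop
  have hord : ∀ z ∈ closedBall 0 R, f z ≠ 0 → meromorphicOrderAt f z = 0 := fun z hz hfz =>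
    (hf z hz).meromorphicNFAt.meromorphicOrderAt_eq_zero_iff.2 hfz
  have h1 := D.log_norm_eq hw' (hord w hw' hfw) hR
  have htc : meromorphicTrailingCoeffAt f w = f w :=
    (hf w hw').meromorphicTrailingCoeffAt_of_ne_zero hfw
  rw [htc] at h1
  -- the sphere divisor has finite support
  have hfin : (divisor f (sphere 0 R)).support.Finite := divisor_sphere_support_finite
  set S := hfin.toFinset with hS
  have hsum : ∀ L : ℂ → ℝ, ∑ᶠ i, ((divisor f (sphere 0 R) i : ℝ) * L i)
      = ∑ i ∈ S, ((divisor f (sphere 0 R) i : ℝ) * L i) := by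
    intro L
    apply finsum_eq_sum_of_support_subset
    intro i hi
    simp only [hS, Finite.coe_toFinset, Function.mem_support]
    intro h0
    apply hi
    simp [h0]
  -- Poisson formula for log ‖h‖
  have hharm : HarmonicOnNhd (fun z => Real.log ‖h z‖) (closedBall 0 R) :=
    fun x hx => (D.analyticOnNhd x hx).harmonicAt_log_norm (D.ne_zero x hx)
  have h2 := hharm.circleAverage_poissonKernel_smul hw
  -- a.e. identity on the circle
  have hzeros : ∀ z ∈ sphere (0:ℂ) R, f z ≠ 0 →
      Real.log ‖h z‖ = Real.log ‖f z‖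
        - ∑ i ∈ S, ((divisor f (sphere 0 R) i : ℝ) * Real.log ‖z - i‖) := by
    intro z hz hfz
    have hz' : z ∈ closedBall 0 R := sphere_subset_closedBall hz
    have h3 := D.log_norm_eq hz' (hord z hz' hfz) hR
    rw [(hf z hz').meromorphicTrailingCoeffAt_of_ne_zero hfz] at h3
    rw [h3]
    have : ∑ᶠ i, ((divisor f (ball 0 R) i : ℝ) * Real.log ‖canonicalFactor R i z‖) = 0 := by
      apply finsum_eq_zero_of_forall_eq_zero
      intro i
      by_cases hi : i ∈ ball 0 R
      · rw [norm_canonicalFactor_eval_circle_eq_one hi hz]; simp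
      · simp [hi]
    rw [this, hsum (fun i => Real.log ‖z - i‖)]; ring
  have hcod : ∀ᶠ z in codiscreteWithin (sphere (0:ℂ) |R|),
      (poissonKernel 0 w • fun z => Real.log ‖h z‖) z
      = poissonKernel 0 w z * Real.log ‖f z‖
        - ∑ i ∈ S, (divisor f (sphere 0 R) i : ℝ) * (poissonKernel 0 w z * Real.log ‖z - i‖) := by
    rw [abs_of_pos hR]
    have e1 : ∀ᶠ z in codiscreteWithin (sphere (0:ℂ) R), f z ≠ 0 := by
      have := hf.preimage_zero_mem_codiscreteWithin hfw hw' (isConnected_closedBall hR.le)
      exact codiscreteWithin_mono sphere_subset_closedBall this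
    filter_upwards [e1, self_mem_codiscreteWithin (sphere (0:ℂ) R)] with z hz1 hz2
    simp only [Pi.smul_apply', smul_eq_mul]
    rw [hzeros z hz2 hz1, mul_sub, Finset.mul_sum]
    congr 1
    apply Finset.sum_congr rfl
    intro i _
    ring
  rw [circleAverage_congr_codiscreteWithin hcod hR.ne'] at h2
  have hint1 : CircleIntegrable (fun z => poissonKernel 0 w z * Real.log ‖f z‖) 0 R := by
    apply circleIntegrable_poisson_mul hw
    apply MeromorphicOn.circleIntegrable_log_norm
    rw [abs_of_pos hR]
    exact (hf.mono sphere_subset_closedBall).meromorphicOn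
  have hint2 : ∀ i, CircleIntegrable (fun z => poissonKernel 0 w z * Real.log ‖z - i‖) 0 R := by
    intro i
    apply circleIntegrable_poisson_mul hw
    exact circleIntegrable_log_norm_sub_const R
  have hint3 : ∀ i ∈ S, CircleIntegrable
      (fun z => (divisor f (sphere 0 R) i : ℝ) * (poissonKernel 0 w z * Real.log ‖z - i‖)) 0 R := by
    intro i _
    exact IntervalIntegrable.const_mul (hint2 i) _
  rw [circleAverage_fun_sub hint1 (CircleIntegrable.fun_sum S hint3),
    circleAverage_fun_sum hint3] at h2
  have h4 : ∀ i ∈ S, circleAverage (fun z => (divisor f (sphere 0 R) i : ℝ) *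
      (poissonKernel 0 w z * Real.log ‖z - i‖)) 0 R
      = (divisor f (sphere 0 R) i : ℝ) * Real.log ‖w - i‖ := by
    intro i hi
    have hi' : i ∈ sphere 0 R := by
      by_contra hcon
      have : divisor f (sphere 0 R) i = 0 :=
        Function.locallyFinsuppWithin.apply_eq_zero_of_notMem _ hcon
      simp [hS, this] at hi
    have h5 := circleAverage_re_herglotzRieszKernel_mul_log hi' hw
    rw [← poissonKernel_eq_re_herglotzRieszKernel] at h5
    rw [← h5]
    rw [← smul_eq_mul, ← circleAverage_fun_smul]
    rfl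
  rw [Finset.sum_congr rfl h4] at h2
  rw [hsum] at h1
  linarith

end Pool.Agent.Helper65_Jessen
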