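import Pool.Agent.Helper65_Jessen.Contra

set_option autoImplicit false

open Complex Metric Real Set Filter Topology MeasureTheory
open scoped ENNReal

namespace Pool.Agent.Helper65_Jessen

variable {n : ℕ}

lemma isOpen_tube {G : Set (Fin n → ℝ)} (hG : IsOpen G) : IsOpen (tube G) := by
  apply hG.preimage
  fun_prop

lemma convex_tube {G : Set (Fin n → ℝ)} (hG : Convex ℝ G) : Convex ℝ (tube G) := by
  intro z hz w hw a b ha hb hab
  have h1 := hG hz hw ha hb hab
  simp only [tube, mem_ofPred_eq]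
  convert h1 using 1
  ext j
  simp

lemma strip_subset_tube {p : Fin n → ℝ} {ρ : ℝ} (hρ : 0 < ρ) :
    strip p ρ ⊆ tube (closedBall p ρ) := by
  intro z hz
  simp only [tube, mem_ofPred_eq]
  rw [mem_closedBall, dist_pi_le_iff hρ.le]
  intro j
  rw [Real.dist_eq]
  exact (hz j).le

/-- An almost periodic holomorphic function is bounded on smaller tubes. -/
lemma ap_bounded {G : Set (Fin n → ℝ)} {f : (Fin n → ℂ) → ℂ} (hf : DifferentiableOn ℂ f (tube G))
    (hap : AlmostPeriodic G f) {p : Fin n → ℝ} {ρ : ℝ} (hρ : 0 < ρ) (hsub : closedBall p ρ ⊆ G) :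
    ∃ M : ℝ, 0 < M ∧ ∀ z ∈ tube (closedBall p ρ), ‖f z‖ ≤ M := by
  obtain ⟨ℓ, hℓ, h⟩ := hap 1 one_pos (closedBall p ρ)
    (by rw [isClosed_closedBall.closure_eq]; exact isCompact_closedBall p ρ)
    (by rw [isClosed_closedBall.closure_eq]; exact hsub)
  have hK : IsCompact (kbox p ℓ ρ) := isCompact_kbox p ℓ ρ
  have hKG : kbox p ℓ ρ ⊆ tube G := by
    intro z hz
    apply hsub
    rw [mem_closedBall, dist_pi_le_iff hρ.le]
    intro j
    rw [Real.dist_eq]
    exact hz.2 j
  obtain ⟨M₁, hM₁⟩ := hK.exists_bound_of_continuousOn (hf.continuousOn.mono hKG)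
  refine ⟨max M₁ 0 + 1, by positivity, ?_⟩
  intro z hz
  obtain ⟨h₀, hh₀, δ, hδ, hδ2⟩ := h (fun j => - (z j).re)
  have h1 := hδ2 z hz
  have hmem : shift h₀ z ∈ kbox p ℓ ρ := by
    constructor
    · intro j
      rw [shift_re]
      have := hh₀ j
      have e : (z j).re + h₀ j = h₀ j - -(z j).re := by ring
      rw [e]
      exact this.le
    · intro j
      rw [shift_im]
      have hz' : (fun j => (z j).im) ∈ closedBall p ρ := hz
      rw [mem_closedBall, dist_pi_le_iff hρ.le] at hz'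
      have := hz' j
      rwa [Real.dist_eq] at this
  have h2 := hM₁ _ hmem
  calc ‖f z‖ = ‖f (shift h₀ z) - (f (shift h₀ z) - f z)‖ := by congr 1; ring
    _ ≤ ‖f (shift h₀ z)‖ + ‖f (shift h₀ z) - f z‖ := norm_sub_le _ _
    _ ≤ max M₁ 0 + 1 := add_le_add (h2.trans (le_max_left _ _)) (h1.trans hδ.le)

/-- The normalised function. -/
noncomputable def normF (f : (Fin n → ℂ) → ℂ) (M : ℝ) (p : Fin n → ℝ) (r : ℝ) :
    (Fin n → ℂ) → ℂ := by
  classical
  exact (strip p (4 * r)).piecewise (fun z => f z / (M : ℂ)) (fun _ => 1)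

lemma normF_of_mem {f : (Fin n → ℂ) → ℂ} {M : ℝ} {p : Fin n → ℝ} {r : ℝ} {z : Fin n → ℂ}
    (hz : z ∈ strip p (4 * r)) : normF f M p r z = f z / (M : ℂ) := by
  classical
  unfold normF
  rw [Set.piecewise_eq_of_mem _ _ _ hz]

lemma normF_of_notMem {f : (Fin n → ℂ) → ℂ} {M : ℝ} {p : Fin n → ℝ} {r : ℝ} {z : Fin n → ℂ}
    (hz : z ∉ strip p (4 * r)) : normF f M p r z = 1 := by
  classical
  unfold normF
  rw [Set.piecewise_eq_of_notMem _ _ _ hz]

lemma normF_core {G : Set (Fin n → ℝ)} (hGo : IsOpen G) (hGc : Convex ℝ G)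
    {f : (Fin n → ℂ) → ℂ} (hf : DifferentiableOn ℂ f (tube G))
    (hap : AlmostPeriodic G f) (hnz : ∃ z ∈ tube G, f z ≠ 0) {p : Fin n → ℝ} {r : ℝ}
    (hr : 0 < r) (hr1 : r ≤ 1) (hsub : closedBall p (4 * r) ⊆ G) {M : ℝ} (hM : 0 < M)
    (hMf : ∀ z ∈ tube (closedBall p (4 * r)), ‖f z‖ ≤ M) : Core p r (normF f M p r) := by
  have hst : strip p (4 * r) ⊆ tube G := by
    intro z hz
    exact hsub (strip_subset_tube (by positivity) hz)
  have hfs : DifferentiableOn ℂ f (strip p (4 * r)) := hf.mono hst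
  have hMs : ∀ z ∈ strip p (4 * r), ‖f z‖ ≤ M := fun z hz =>
    hMf z (strip_subset_tube (by positivity) hz)
  have hMc : (M : ℂ) ≠ 0 := by exact_mod_cast hM.ne'
  have h34 : ∀ z ∈ strip p (3 * r), z ∈ strip p (4 * r) := fun z hz j => by
    have := hz j
    linarith
  refine ⟨hr, hr1, ?_, ?_, ?_, ?_, ?_⟩
  · classical
    unfold normF
    apply ContinuousOn.measurable_piecewise
    · exact (hfs.continuousOn).div_const _
    · exact continuousOn_const
    · exact (isOpen_strip p (4 * r)).measurableSet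
  · refine (hfs.mul_const ((M : ℂ)⁻¹)).congr ?_
    intro z hz
    rw [normF_of_mem hz, div_eq_mul_inv]
  · intro z
    by_cases hz : z ∈ strip p (4 * r)
    · rw [normF_of_mem hz, norm_div, Complex.norm_real, Real.norm_eq_abs, abs_of_pos hM,
        div_le_one hM]
      exact hMs z hz
    · rw [normF_of_notMem hz]
      simp
  · intro ε hε
    obtain ⟨ℓ, hℓ, h⟩ := hap (ε * M) (by positivity) (closedBall p (4 * r))
      (by rw [isClosed_closedBall.closure_eq]; exact isCompact_closedBall p _)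
      (by rw [isClosed_closedBall.closure_eq]; exact hsub)
    refine ⟨ℓ, hℓ, ?_⟩
    intro a
    obtain ⟨h₀, hh₀, δ, hδ, hδ2⟩ := h a
    refine ⟨h₀, hh₀, ?_⟩
    intro z hz
    have hz4 := h34 z hz
    have hz4' : shift h₀ z ∈ strip p (4 * r) := (shift_mem_strip h₀).2 hz4
    rw [normF_of_mem hz4, normF_of_mem hz4', ← sub_div, norm_div, Complex.norm_real,
      Real.norm_eq_abs, abs_of_pos hM, div_lt_iff₀ hM]
    exact (hδ2 z (strip_subset_tube (by positivity) hz4)).trans_lt hδ
  · by_contra hcon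
    push Not at hcon
    obtain ⟨v, hv, hfv⟩ := hnz
    apply hfv
    set a : Fin n → ℂ := fun j => (p j : ℂ) * I with ha
    have ha3 : a ∈ strip p (3 * r) := by
      intro j
      have : (a j).im - p j = 0 := by simp [ha]
      rw [this, abs_zero]
      positivity
    apply identity_convex (isOpen_tube hGo) (convex_tube hGc) _ (hst (h34 a ha3)) hv
    · filter_upwards [(isOpen_strip p (3 * r)).mem_nhds ha3] with z hz
      have h1 := hcon z hz
      rw [normF_of_mem (h34 z hz), div_eq_zero_iff] at h1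
      rcases h1 with h1 | h1
      · exact h1
      · exact absurd h1 hMc
    · intro b c
      apply hf.comp (t := tube G)
      · fun_prop
      · intro s hs
        exact hs

end Pool.Agent.Helper65_Jessen
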