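import Pool.Agent.Helper65_Jessen.Kernel

set_option autoImplicit false

open Complex MeromorphicOn Metric Real Set Filter Topology MeasureTheory InnerProductSpace

namespace Pool.Agent.Helper65_Jessen

/-- The zeros of `f` in the open disc `ball 0 R` as a finite set. -/
lemma divisor_support_finite {f : ℂ → ℂ} {R : ℝ} (hf : AnalyticOnNhd ℂ f (closedBall 0 R)) :
    (divisor f (ball 0 R)).support.Finite :=
  divisor_ball_support_finite hf.meromorphicOn

lemma pointwise_L2 {f : ℂ → ℂ} {R : ℝ} (hR : 0 < R)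
    (hf : AnalyticOnNhd ℂ f (closedBall 0 R)) (hb : ∀ z ∈ closedBall (0:ℂ) R, ‖f z‖ ≤ 1)
    (hf0 : f 0 ≠ 0) :
    ∃ (S : Finset ℂ) (e : ℂ → ℝ), (∀ i, 0 ≤ e i) ∧ (∀ i ∈ S, i ∈ ball (0:ℂ) R) ∧
      (∀ z ∈ ball (0:ℂ) R, f z = 0 → z ∈ S) ∧ (∑ i ∈ S, e i ≤ - Real.log ‖f 0‖) ∧
      ∀ z : ℂ, ‖z‖ ≤ R / 4 → f z ≠ 0 →
      (- Real.log ‖f z‖) ^ 2 ≤ 6 * (- Real.log ‖f 0‖) ^ 2
        + 2 * (- Real.log ‖f 0‖) *
          ∑ i ∈ S, e i * (256 + 64 * (2 * R / ‖z - i‖) ^ (1/2 : ℝ)) := by
  have hfin := divisor_support_finite hf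
  set S := hfin.toFinset with hS
  set d : ℂ → ℝ := fun i => (divisor f (ball 0 R) i : ℝ) with hd
  have hfball : AnalyticOnNhd ℂ f (ball 0 R) := hf.mono ball_subset_closedBall
  have hdnn : ∀ i, 0 ≤ d i := by
    intro i
    have := (AnalyticOnNhd.divisor_nonneg hfball) i
    simp only [hd]
    exact_mod_cast this
  have hmem : ∀ i, i ∈ S → i ∈ ball (0:ℂ) R ∧ f i = 0 := by
    intro i hi
    have hi1 : divisor f (ball 0 R) i ≠ 0 := by simpa [hS] using hi
    have hi2 : i ∈ ball (0:ℂ) R := by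
      by_contra hcon
      exact hi1 (Function.locallyFinsuppWithin.apply_eq_zero_of_notMem _ hcon)
    refine ⟨hi2, ?_⟩
    by_contra hcon
    apply hi1
    rw [hfball.divisor_apply hi2, (hfball i hi2).analyticOrderAt_eq_zero.2 hcon]
    simp
  have hmem' : ∀ z ∈ ball (0:ℂ) R, f z = 0 → z ∈ S := by
    intro z hz hfz
    have htop := order_ne_top hR.le hf (mem_closedBall_self hR.le) hf0
      ⟨z, ball_subset_closedBall hz⟩
    have h1 : meromorphicOrderAt f z ≠ 0 := by
      intro h
      exact (hf z (ball_subset_closedBall hz)).meromorphicNFAt.meromorphicOrderAt_eq_zero_iff.1 h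
        hfz
    have h2 : divisor f (ball 0 R) z ≠ 0 := by
      rw [divisor_apply hfball.meromorphicOn hz]
      intro h3
      rcases (WithTop.untop₀_eq_zero).1 h3 with h4 | h4
      · exact h1 h4
      · exact htop h4
    simpa [hS] using h2
  have hsum : ∀ L : ℂ → ℝ, ∑ᶠ i, ((divisor f (ball 0 R) i : ℝ) * L i) = ∑ i ∈ S, d i * L i := by
    intro L
    apply finsum_eq_sum_of_support_subset
    intro i hi
    simp only [hS, Finite.coe_toFinset, Function.mem_support]
    intro h0
    apply hi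
    simp [h0]
  have hci : CircleIntegrable (fun z => - Real.log ‖f z‖) 0 R := by
    have : CircleIntegrable (fun z => Real.log ‖f z‖) 0 R := by
      apply MeromorphicOn.circleIntegrable_log_norm
      rw [abs_of_pos hR]
      exact (hf.mono sphere_subset_closedBall).meromorphicOn
    exact this.neg
  have hnn : ∀ z ∈ closedBall (0:ℂ) R, 0 ≤ - Real.log ‖f z‖ := by
    intro z hz
    have := Real.log_nonpos (norm_nonneg _) (hb z hz)
    linarith
  set A := circleAverage (fun z => - Real.log ‖f z‖) 0 R with hA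
  have hAnn : 0 ≤ A := by
    apply circleAverage_nonneg_of_nonneg
    intro x hx
    rw [abs_of_pos hR] at hx
    exact hnn x (sphere_subset_closedBall hx)
  -- formula at a general point
  have hPJ : ∀ z : ℂ, ‖z‖ ≤ R / 4 → f z ≠ 0 →
      - Real.log ‖f z‖ ≤ (5/3) * A + ∑ i ∈ S, d i * Real.log ‖canonicalFactor R i z‖ := by
    intro z hz hfz
    have hz' : z ∈ ball (0:ℂ) R := by
      rw [mem_ball_zero_iff]; linarith
    have h1 := poissonJensen hR hf hz' hfz
    rw [hsum] at h1
    have h2 : circleAverage (fun ζ => poissonKernel 0 z ζ * Real.log ‖f ζ‖) 0 R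
        = - circleAverage (fun ζ => poissonKernel 0 z ζ * (- Real.log ‖f ζ‖)) 0 R := by
      have : (fun ζ => poissonKernel 0 z ζ * (- Real.log ‖f ζ‖))
          = (fun ζ => (-1:ℝ) • (poissonKernel 0 z ζ * Real.log ‖f ζ‖)) := by
        ext ζ; simp
      rw [this, circleAverage_fun_smul]; simp
    have h3 : circleAverage (fun ζ => poissonKernel 0 z ζ * (- Real.log ‖f ζ‖)) 0 R
        ≤ circleAverage (fun ζ => (5/3 : ℝ) • (- Real.log ‖f ζ‖)) 0 R := by
      apply circleAverage_mono (circleIntegrable_poisson_mul hz' hci)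
      · exact IntervalIntegrable.const_mul hci _
      · intro x hx
        rw [abs_of_pos hR] at hx
        have hx2 := hnn x (sphere_subset_closedBall hx)
        have h4 : poissonKernel 0 z x ≤ 5/3 := by
          have h5 := re_herglotzRieszKernel_le hx hz'
          rw [poissonKernel_eq_re_herglotzRieszKernel]
          simp only [Function.comp_apply, herglotzRieszKernel_def]
          refine h5.trans ?_
          rw [sub_zero, div_le_div_iff₀ (by linarith) (by norm_num)]
          linarith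
        rw [smul_eq_mul]
        gcongr
    rw [circleAverage_fun_smul, smul_eq_mul] at h3
    linarith
  have hPJ0 : - Real.log ‖f 0‖ = A + ∑ i ∈ S, d i * Real.log (R / ‖i‖) := by
    have h1 := poissonJensen hR hf (mem_ball_self hR) hf0
    rw [hsum] at h1
    have h2 : circleAverage (fun ζ => poissonKernel 0 0 ζ * Real.log ‖f ζ‖) 0 R = - A := by
      have h3 : circleAverage (fun ζ => poissonKernel 0 0 ζ * Real.log ‖f ζ‖) 0 R
          = circleAverage (fun ζ => (-1:ℝ) • (- Real.log ‖f ζ‖)) 0 R := by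
        apply circleAverage_congr_sphere
        intro x hx
        rw [abs_of_pos hR, mem_sphere_zero_iff_norm] at hx
        simp only [poissonKernel_def, sub_zero, norm_zero]
        rw [hx]
        have : R ≠ 0 := hR.ne'
        field_simp
        simp
      rw [h3, circleAverage_fun_smul]; simp [hA]
    have h4 : ∀ i ∈ S, d i * Real.log ‖canonicalFactor R i 0‖ = d i * Real.log (R / ‖i‖) := by
      intro i hi
      have hi0 : i ≠ 0 := by
        rintro rfl
        exact hf0 (hmem 0 hi).2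
      have hip : 0 < ‖i‖ := norm_pos_iff.2 hi0
      congr 2
      rw [norm_canonicalFactor R hR]
      simp only [mul_zero, sub_zero, zero_sub, norm_neg, norm_pow, Complex.norm_real,
        Real.norm_of_nonneg hR.le]
      field_simp
    rw [Finset.sum_congr rfl h4] at h1
    linarith
  have hell : ∀ i ∈ S, 0 ≤ Real.log (R / ‖i‖) := by
    intro i hi
    have h1 := (hmem i hi).1
    rw [mem_ball_zero_iff] at h1
    have hi0 : i ≠ 0 := by
      rintro rfl
      exact hf0 (hmem 0 hi).2
    have hip : 0 < ‖i‖ := norm_pos_iff.2 hi0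
    apply Real.log_nonneg
    rw [one_le_div hip]; exact h1.le
  refine ⟨S, fun i => if i ∈ S then d i * Real.log (R / ‖i‖) else 0, ?_,
    fun i hi => (hmem i hi).1, hmem', ?_, ?_⟩
  · intro i
    by_cases hi : i ∈ S
    · simp only [hi, if_true]; exact mul_nonneg (hdnn i) (hell i hi)
    · simp [hi]
  · rw [Finset.sum_congr rfl (fun i hi => if_pos hi)]
    linarith
  · intro z hz hfz
    have hrw : ∑ i ∈ S, (fun i => if i ∈ S then d i * Real.log (R / ‖i‖) else 0) i *
        (256 + 64 * (2 * R / ‖z - i‖) ^ (1/2 : ℝ))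
        = ∑ i ∈ S, d i * Real.log (R / ‖i‖) * (256 + 64 * (2 * R / ‖z - i‖) ^ (1/2 : ℝ)) := by
      apply Finset.sum_congr rfl
      intro i hi
      simp only [hi, if_true]
    rw [hrw]
    have h1 := hPJ z hz hfz
    have hz1 : z ∈ closedBall (0:ℂ) R := by rw [mem_closedBall_zero_iff]; linarith
    have h2 : 0 ≤ - Real.log ‖f z‖ := hnn z hz1
    set B := ∑ i ∈ S, d i * Real.log ‖canonicalFactor R i z‖ with hB
    have h3 : B ^ 2 ≤ (∑ i ∈ S, d i * Real.log (R / ‖i‖)) *
        ∑ i ∈ S, d i * Real.log (R / ‖i‖) * (256 + 64 * (2 * R / ‖z - i‖) ^ (1/2 : ℝ)) := by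
      apply Finset.sum_sq_le_sum_mul_sum_of_sq_le_mul
      · intro i hi; exact mul_nonneg (hdnn i) (hell i hi)
      · intro i hi
        apply mul_nonneg (mul_nonneg (hdnn i) (hell i hi))
        positivity
      · intro i hi
        have hi1 := (hmem i hi).1
        rw [mem_ball_zero_iff] at hi1
        have hi0 : i ≠ 0 := by
          rintro rfl
          exact hf0 (hmem 0 hi).2
        have hzi : z ≠ i := by
          rintro rfl
          exact hfz (hmem z hi).2
        have h4 := log_cF_sq_le hR hz hi1 hi0 hzi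
        calc (d i * Real.log ‖canonicalFactor R i z‖) ^ 2
            = d i ^ 2 * Real.log ‖canonicalFactor R i z‖ ^ 2 := by ring
          _ ≤ d i ^ 2 * (Real.log (R / ‖i‖) ^ 2 * (256 + 64 * (2 * R / ‖z - i‖) ^ (1/2 : ℝ))) := by
              gcongr
          _ = _ := by ring
    have h5 : (∑ i ∈ S, d i * Real.log (R / ‖i‖)) ≤ - Real.log ‖f 0‖ := by linarith
    have h6 : A ≤ - Real.log ‖f 0‖ := by
      have : 0 ≤ ∑ i ∈ S, d i * Real.log (R / ‖i‖) :=
        Finset.sum_nonneg (fun i hi => mul_nonneg (hdnn i) (hell i hi))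
      linarith
    set C := ∑ i ∈ S, d i * Real.log (R / ‖i‖) * (256 + 64 * (2 * R / ‖z - i‖) ^ (1/2 : ℝ)) with hC
    have hCnn : 0 ≤ C := by
      apply Finset.sum_nonneg
      intro i hi
      apply mul_nonneg (mul_nonneg (hdnn i) (hell i hi))
      positivity
    have h7 : B ^ 2 ≤ (- Real.log ‖f 0‖) * C := h3.trans (by gcongr)
    calc (- Real.log ‖f z‖) ^ 2 ≤ ((5/3) * A + B) ^ 2 := by gcongr
      _ ≤ 2 * ((5/3) * A) ^ 2 + 2 * B ^ 2 := by nlinarith [sq_nonneg ((5/3) * A - B)]
      _ ≤ 2 * ((5/3) * (- Real.log ‖f 0‖)) ^ 2 + 2 * ((- Real.log ‖f 0‖) * C) := by gcongr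
      _ ≤ 6 * (- Real.log ‖f 0‖) ^ 2 + 2 * (- Real.log ‖f 0‖) * C := by nlinarith [sq_nonneg (Real.log ‖f 0‖)]

end Pool.Agent.Helper65_Jessen
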