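import Mathlib

set_option autoImplicit false

open Real Set Filter Topology MeasureTheory
open scoped ENNReal

namespace Pool.Agent.Helper65_Jessen

lemma lint_sqrt_pos {K r : ℝ} (hK : 0 < K) (hr : 0 < r) :
    ∫⁻ t in Ioc 0 r, ENNReal.ofReal ((K / |t|) ^ (1/2 : ℝ)) = ENNReal.ofReal (2 * √K * √r) := by
  have h1 : ∀ t ∈ Ioc 0 r, (K / |t|) ^ (1/2 : ℝ) = √K * t ^ (-(1/2) : ℝ) := by
    intro t ht
    rw [abs_of_pos ht.1, Real.div_rpow hK.le ht.1.le, ← Real.sqrt_eq_rpow,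
      Real.rpow_neg ht.1.le, div_eq_mul_inv]
  have h2 : ∫⁻ t in Ioc 0 r, ENNReal.ofReal ((K / |t|) ^ (1/2 : ℝ))
      = ∫⁻ t in Ioc 0 r, ENNReal.ofReal (√K * t ^ (-(1/2) : ℝ)) := by
    apply setLIntegral_congr_fun measurableSet_Ioc
    intro t ht
    simp only
    rw [h1 t ht]
  rw [h2]
  have hint : IntervalIntegrable (fun t : ℝ => √K * t ^ (-(1/2) : ℝ)) volume 0 r := by
    apply IntervalIntegrable.const_mul
    exact intervalIntegral.intervalIntegrable_rpow' (by norm_num)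
  rw [← ofReal_integral_eq_lintegral_ofReal]
  · congr 1
    rw [← intervalIntegral.integral_of_le hr.le, intervalIntegral.integral_const_mul,
      integral_rpow (Or.inl (by norm_num))]
    rw [Real.sqrt_eq_rpow r]
    have : (-(1/2) : ℝ) + 1 = 1/2 := by norm_num
    rw [this, Real.zero_rpow (by norm_num)]
    ring
  · exact (intervalIntegrable_iff_integrableOn_Ioc_of_le hr.le).1 hint
  · filter_upwards [self_mem_ae_restrict measurableSet_Ioc] with t ht
    have := ht.1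
    positivity

lemma lint_sqrt_Icc {K r : ℝ} (hK : 0 < K) (hr : 0 < r) :
    ∫⁻ t in Icc (-r) r, ENNReal.ofReal ((K / |t|) ^ (1/2 : ℝ)) ≤ ENNReal.ofReal (4 * √K * √r) := by
  have hsub : Icc (-r) r ⊆ Ico (-r) 0 ∪ Icc 0 r := by
    intro t ht
    rcases lt_or_ge t 0 with h | h
    · left; exact ⟨ht.1, h⟩
    · right; exact ⟨h, ht.2⟩
  have h3 : ∫⁻ t in Ico (-r) 0, ENNReal.ofReal ((K / |t|) ^ (1/2 : ℝ))
      = ENNReal.ofReal (2 * √K * √r) := by
    rw [← lint_sqrt_pos hK hr, ← lintegral_indicator measurableSet_Ico,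
      ← lintegral_indicator measurableSet_Ioc, ← lintegral_neg_eq_self]
    apply lintegral_congr
    intro t
    by_cases ht : t ∈ Ioc 0 r
    · have ht2 : -t ∈ Ico (-r) 0 := ⟨by linarith [ht.2], by linarith [ht.1]⟩
      rw [indicator_of_mem ht, indicator_of_mem ht2, abs_neg]
    · have ht2 : -t ∉ Ico (-r) 0 := by
        intro h
        exact ht ⟨by linarith [h.2], by linarith [h.1]⟩
      rw [indicator_of_notMem ht, indicator_of_notMem ht2]
  calc ∫⁻ t in Icc (-r) r, ENNReal.ofReal ((K / |t|) ^ (1/2 : ℝ))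
      ≤ ∫⁻ t in Ico (-r) 0 ∪ Icc 0 r, ENNReal.ofReal ((K / |t|) ^ (1/2 : ℝ)) :=
        lintegral_mono_set hsub
    _ ≤ (∫⁻ t in Ico (-r) 0, ENNReal.ofReal ((K / |t|) ^ (1/2 : ℝ)))
        + (∫⁻ t in Icc 0 r, ENNReal.ofReal ((K / |t|) ^ (1/2 : ℝ))) := lintegral_union_le _ _ _
    _ = ENNReal.ofReal (2 * √K * √r) + ENNReal.ofReal (2 * √K * √r) := by
        rw [h3, Measure.restrict_congr_set Ioc_ae_eq_Icc.symm, lint_sqrt_pos hK hr]
    _ = ENNReal.ofReal (4 * √K * √r) := by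
        rw [← ENNReal.ofReal_add (by positivity) (by positivity)]
        congr 1; ring

/-- translated version -/
lemma lint_sqrt_translate {K r a α β : ℝ} (hK : 0 < K) (hr : 0 < r)
    (h : ∀ s ∈ Icc α β, |s - a| ≤ r) :
    ∫⁻ s in Icc α β, ENNReal.ofReal ((K / |s - a|) ^ (1/2 : ℝ)) ≤ ENNReal.ofReal (4 * √K * √r) := by
  refine le_trans ?_ (lint_sqrt_Icc hK hr)
  rw [← lintegral_indicator measurableSet_Icc, ← lintegral_indicator measurableSet_Icc,
    ← lintegral_sub_right_eq_self (fun t => (Icc (-r) r).indicator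
      (fun t => ENNReal.ofReal ((K / |t|) ^ (1/2 : ℝ))) t) a]
  apply lintegral_mono
  intro s
  by_cases hs : s ∈ Icc α β
  · have h2 : s - a ∈ Icc (-r) r := abs_le.1 (h s hs)
    simp only
    rw [indicator_of_mem hs, indicator_of_mem h2]
  · rw [indicator_of_notMem hs]
    exact bot_le

end Pool.Agent.Helper65_Jessen
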