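import Pool.Agent.Helper65_Jessen.Segment
import Pool.Agent.Helper65_Jessen.SqrtInt

set_option autoImplicit false

open Complex MeromorphicOn Metric Real Set Filter Topology MeasureTheory InnerProductSpace
open scoped ENNReal

namespace Pool.Agent.Helper65_Jessen

/-- `-log |w|` as an extended nonnegative real number, equal to `∞` at `w = 0` (and truncated to
`0` for `|w| > 1`). -/
noncomputable def nlog (w : ℂ) : ℝ≥0∞ := if w = 0 then ⊤ else ENNReal.ofReal (-Real.log ‖w‖)

lemma nlog_zero : nlog 0 = ⊤ := by simp [nlog]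

lemma nlog_of_ne {w : ℂ} (hw : w ≠ 0) : nlog w = ENNReal.ofReal (-Real.log ‖w‖) := by
  simp [nlog, hw]

lemma measurable_nlog : Measurable nlog := by
  unfold nlog
  apply Measurable.ite (measurableSet_eq) measurable_const
  fun_prop

lemma L2_segment {R : ℝ} (hR : 0 < R) : ∃ K : ℝ≥0∞, K ≠ 0 ∧ K ≠ ⊤ ∧
    ∀ (f : ℂ → ℂ) (c : ℂ) (b α β : ℝ), AnalyticOnNhd ℂ f (closedBall c R) →
      (∀ z ∈ closedBall c R, ‖f z‖ ≤ 1) →
      (∀ s ∈ Icc α β, ((s:ℂ) + b * I) ∈ closedBall c (R/4)) →
      ∫⁻ s in Icc α β, (nlog (f ((s:ℂ) + b * I))) ^ 2 ≤ K * (nlog (f c)) ^ 2 := by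
  set V : ℝ≥0∞ := ENNReal.ofReal R with hV
  set W : ℝ≥0∞ := 256 * V + 64 * ENNReal.ofReal (4 * √(2 * R) * √(2 * R)) with hW
  have hVtop : V ≠ ⊤ := ENNReal.ofReal_ne_top
  have hWtop : W ≠ ⊤ := by
    apply ENNReal.add_ne_top.2
    constructor
    · exact ENNReal.mul_ne_top (by simp) hVtop
    · exact ENNReal.mul_ne_top (by simp) ENNReal.ofReal_ne_top
  refine ⟨1 + 6 * V + 2 * W, by simp, ?_, ?_⟩
  · apply ENNReal.add_ne_top.2
    constructor
    · apply ENNReal.add_ne_top.2
      exact ⟨by simp, ENNReal.mul_ne_top (by simp) hVtop⟩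
    · exact ENNReal.mul_ne_top (by simp) hWtop
  intro f c b α β hf hb hseg
  by_cases hfc : f c = 0
  · rw [hfc, nlog_zero]
    have : (1 + 6 * V + 2 * W) * (⊤:ℝ≥0∞) ^ 2 = ⊤ := by
      rw [ENNReal.top_pow (by norm_num)]
      exact ENNReal.mul_top (by simp)
    rw [this]
    exact le_top
  -- recentre
  set F : ℂ → ℂ := fun z => f (z + c) with hF
  have hFan : AnalyticOnNhd ℂ F (closedBall 0 R) := by
    intro z hz
    have hz' : z + c ∈ closedBall c R := by
      rw [mem_closedBall_zero_iff] at hz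
      rw [mem_closedBall, dist_eq_norm]; simpa using hz
    have h1 : AnalyticAt ℂ f (z + c) := hf _ hz'
    exact AnalyticAt.fun_comp h1 (by fun_prop)
  have hFb : ∀ z ∈ closedBall (0:ℂ) R, ‖F z‖ ≤ 1 := by
    intro z hz
    apply hb
    rw [mem_closedBall_zero_iff] at hz
    rw [mem_closedBall, dist_eq_norm]; simpa using hz
  have hF0 : F 0 ≠ 0 := by simpa [hF] using hfc
  obtain ⟨S, e, he0, heball, hezero, hesum, hmain⟩ := pointwise_L2 hR hFan hFb hF0
  set L0 := - Real.log ‖F 0‖ with hL0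
  have hL0nn : 0 ≤ L0 := by
    have := Real.log_nonpos (norm_nonneg _) (hFb 0 (mem_closedBall_self hR.le))
    linarith
  -- a.e. bound
  have hnull : ∀ᵐ s ∂(volume : Measure ℝ), ∀ i ∈ S, s - c.re ≠ i.re := by
    rw [Finset.eventually_all]
    intro i _
    have : {s : ℝ | ¬ (s - c.re ≠ i.re)} = {i.re + c.re} := by
      ext s
      simp only [ne_eq, not_not, mem_ofPred_eq, mem_singleton_iff]
      constructor <;> intro h <;> linarith
    rw [ae_iff, this]
    simp
  have hbound : ∀ᵐ (s : ℝ) ∂(volume.restrict (Icc α β)), (nlog (f ((s:ℂ) + b * I))) ^ 2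
      ≤ ENNReal.ofReal (6 * L0 ^ 2) + ∑ i ∈ S, ENNReal.ofReal (2 * L0 * e i) *
        (256 + 64 * ENNReal.ofReal ((2 * R / |(s:ℝ) - (c.re + i.re)|) ^ (1/2 : ℝ))) := by
    filter_upwards [ae_restrict_of_ae hnull, self_mem_ae_restrict measurableSet_Icc] with s hs1 hs2
    set z : ℂ := (s:ℂ) + b * I - c with hz
    have hzball : ‖z‖ ≤ R / 4 := by
      have := hseg s hs2
      rwa [mem_closedBall, dist_eq_norm] at this
    have hzre : z.re = s - c.re := by simp [hz]
    have hFz : F z = f ((s:ℂ) + b * I) := by simp [hF, hz]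
    have hFz0 : F z ≠ 0 := by
      intro h0
      have hzS := hezero z (by rw [mem_ball_zero_iff]; linarith) h0
      exact hs1 z hzS hzre.symm
    have h1 := hmain z hzball hFz0
    rw [← hFz, nlog_of_ne hFz0, ← ENNReal.ofReal_pow]
    swap
    · have := Real.log_nonpos (norm_nonneg _)
        (hFb z (by rw [mem_closedBall_zero_iff]; linarith))
      linarith
    have h2 : (- Real.log ‖F z‖) ^ 2 ≤ 6 * L0 ^ 2 + ∑ i ∈ S, (2 * L0 * e i) *
        (256 + 64 * (2 * R / |s - (c.re + i.re)|) ^ (1/2 : ℝ)) := by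
      refine h1.trans ?_
      rw [Finset.mul_sum]
      apply add_le_add le_rfl
      apply Finset.sum_le_sum
      intro i hi
      have hi1 := hs1 i hi
      have h3 : 0 < |s - (c.re + i.re)| := by
        rw [abs_pos]
        intro h
        apply hi1
        linarith
      have h4 : |s - (c.re + i.re)| ≤ ‖z - i‖ := by
        have := abs_re_le_norm (z - i)
        rw [Complex.sub_re, hzre] at this
        convert this using 2
        ring
      have h5 : (2 * R / ‖z - i‖) ^ (1/2 : ℝ) ≤ (2 * R / |s - (c.re + i.re)|) ^ (1/2 : ℝ) := by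
        gcongr
      calc 2 * L0 * (e i * (256 + 64 * (2 * R / ‖z - i‖) ^ (1/2 : ℝ)))
          = (2 * L0 * e i) * (256 + 64 * (2 * R / ‖z - i‖) ^ (1/2 : ℝ)) := by ring
        _ ≤ _ := by
            have := he0 i
            gcongr
    refine (ENNReal.ofReal_le_ofReal h2).trans ?_
    refine (ENNReal.ofReal_add_le).trans ?_
    gcongr
    rw [ENNReal.ofReal_sum_of_nonneg]
    swap
    · intro i _
      have := he0 i
      positivity
    apply Finset.sum_le_sum
    intro i hi
    rw [ENNReal.ofReal_mul (by have := he0 i; positivity)]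
    gcongr
    refine (ENNReal.ofReal_add_le).trans ?_
    gcongr
    · simp
    · rw [ENNReal.ofReal_mul (by norm_num)]
      gcongr
      simp
  refine (lintegral_mono_ae hbound).trans ?_
  -- compute the integral of the bound
  have hvol : volume (Icc α β) ≤ V := by
    rw [Real.volume_Icc, hV]
    apply ENNReal.ofReal_le_ofReal
    rcases le_or_gt α β with h | h
    · have h1 := hseg α (left_mem_Icc.2 h)
      have h2 := hseg β (right_mem_Icc.2 h)
      rw [mem_closedBall, dist_eq_norm] at h1 h2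
      have h3 := abs_re_le_norm (((α:ℂ) + b * I) - c)
      have h4 := abs_re_le_norm (((β:ℂ) + b * I) - c)
      simp at h3 h4
      have h5 := abs_le.1 (h3.trans h1)
      have h6 := abs_le.1 (h4.trans h2)
      linarith [h5.1, h6.2]
    · linarith
  have hmeas : ∀ i : ℂ, Measurable (fun s : ℝ =>
      ENNReal.ofReal ((2 * R / |s - (c.re + i.re)|) ^ (1/2 : ℝ))) := by
    intro i; fun_prop
  rw [lintegral_add_left measurable_const, lintegral_finsetSum]
  swap
  · intro i _; fun_prop
  have hterm : ∀ i ∈ S, ∫⁻ s in Icc α β, ENNReal.ofReal (2 * L0 * e i) *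
        (256 + 64 * ENNReal.ofReal ((2 * R / |s - (c.re + i.re)|) ^ (1/2 : ℝ)))
        ≤ ENNReal.ofReal (2 * L0 * e i) * W := by
    intro i hi
    rw [lintegral_const_mul _ (by fun_prop)]
    gcongr
    rw [lintegral_add_left measurable_const, lintegral_const_mul _ (hmeas i), hW]
    gcongr
    · rw [lintegral_const]
      gcongr
      rw [Measure.restrict_apply_univ]; exact hvol
    · apply lint_sqrt_translate (by positivity) (by positivity)
      intro s hs
      have h1 := hseg s hs
      rw [mem_closedBall, dist_eq_norm] at h1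
      have h2 := heball i hi
      rw [mem_ball_zero_iff] at h2
      have h3 := abs_re_le_norm ((s:ℂ) + b * I - c - i)
      have h4 : ((s:ℂ) + b * I - c - i).re = s - (c.re + i.re) := by simp; ring
      rw [h4] at h3
      calc |s - (c.re + i.re)| ≤ ‖(s:ℂ) + b * I - c - i‖ := h3
        _ ≤ ‖(s:ℂ) + b * I - c‖ + ‖i‖ := norm_sub_le _ _
        _ ≤ 2 * R := by linarith
  calc (∫⁻ s in Icc α β, ENNReal.ofReal (6 * L0 ^ 2)) +
        ∑ i ∈ S, (∫⁻ s in Icc α β, ENNReal.ofReal (2 * L0 * e i) *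
        (256 + 64 * ENNReal.ofReal ((2 * R / |s - (c.re + i.re)|) ^ (1/2 : ℝ))))
      ≤ ENNReal.ofReal (6 * L0 ^ 2) * V + ∑ i ∈ S, ENNReal.ofReal (2 * L0 * e i) * W := by
        gcongr with i hi
        · rw [lintegral_const]
          gcongr
          rw [Measure.restrict_apply_univ]; exact hvol
        · exact hterm i hi
    _ = ENNReal.ofReal (6 * L0 ^ 2) * V + ENNReal.ofReal (2 * L0 * ∑ i ∈ S, e i) * W := by
        rw [← Finset.sum_mul, Finset.mul_sum, ENNReal.ofReal_sum_of_nonneg]
        intro i _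
        have := he0 i
        positivity
    _ ≤ ENNReal.ofReal (6 * L0 ^ 2) * V + ENNReal.ofReal (2 * L0 * L0) * W := by
        gcongr
    _ = 6 * ENNReal.ofReal (L0 ^ 2) * V + 2 * ENNReal.ofReal (L0 ^ 2) * W := by
        rw [ENNReal.ofReal_mul (by norm_num), mul_assoc 2 L0 L0, ENNReal.ofReal_mul (by norm_num),
          ← pow_two]
        simp
    _ = (6 * V + 2 * W) * ENNReal.ofReal (L0 ^ 2) := by ring
    _ ≤ (1 + 6 * V + 2 * W) * ENNReal.ofReal (L0 ^ 2) := by
        gcongr
        exact le_add_self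
    _ = (1 + 6 * V + 2 * W) * (nlog (f c)) ^ 2 := by
        have h1 : f c = F 0 := by simp [hF]
        rw [h1, nlog_of_ne hF0, ← ENNReal.ofReal_pow hL0nn]

end Pool.Agent.Helper65_Jessen
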