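import Mathlib

set_option autoImplicit false

open Complex Metric Real Set Filter Topology MeasureTheory

namespace Pool.Agent.Helper65_Jessen

/-- A function of two complex variables, jointly continuous and separately holomorphic. -/
structure SepHol (D₀ D₁ : Set ℂ) (h : ℂ → ℂ → ℂ) : Prop where
  cont : ContinuousOn (Function.uncurry h) (D₀ ×ˢ D₁)
  d1 : ∀ w ∈ D₁, DifferentiableOn ℂ (fun ζ => h ζ w) D₀
  d2 : ∀ ζ ∈ D₀, DifferentiableOn ℂ (fun w => h ζ w) D₁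

lemma SepHol.swap {D₀ D₁ : Set ℂ} {h : ℂ → ℂ → ℂ} (H : SepHol D₀ D₁ h) :
    SepHol D₁ D₀ (fun w ζ => h ζ w) := by
  refine ⟨?_, H.d2, H.d1⟩
  have : Function.uncurry (fun w ζ => h ζ w) = Function.uncurry h ∘ Prod.swap := by
    ext ⟨a, b⟩; rfl
  rw [this]
  exact H.cont.comp continuous_swap.continuousOn (fun p hp => ⟨hp.2, hp.1⟩)

/-- Joint continuity of the partial derivative. -/
lemma SepHol.cont_deriv {D₀ D₁ : Set ℂ} (hD₀ : IsOpen D₀) (hD₁ : IsOpen D₁) {h : ℂ → ℂ → ℂ}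
    (H : SepHol D₀ D₁ h) :
    ContinuousOn (Function.uncurry (fun ζ w => deriv (fun ξ => h ξ w) ζ)) (D₀ ×ˢ D₁) := by
  rintro ⟨ζ₀, w₀⟩ ⟨hζ₀, hw₀⟩
  simp only at hζ₀ hw₀
  -- locally uniform convergence h(·,w) → h(·,w₀)
  have hloc : TendstoLocallyUniformlyOn (fun w ζ => h ζ w) (fun ζ => h ζ w₀) (𝓝 w₀) D₀ := by
    rw [tendstoLocallyUniformlyOn_iff_forall_isCompact hD₀]
    intro K hK hKc
    rw [Metric.tendstoUniformlyOn_iff]
    intro ε hε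
    have hc : ContinuousOn (Function.uncurry (fun w ζ => h ζ w)) (D₁ ×ˢ K) :=
      H.swap.cont.mono (Set.prod_mono le_rfl hK)
    obtain ⟨v, hv, hv2⟩ := hKc.mem_uniformity_of_prod hc hw₀ (Metric.dist_mem_uniformity hε)
    rw [hD₁.nhdsWithin_eq hw₀] at hv
    filter_upwards [hv] with w hw ζ hζ
    rw [dist_comm]
    exact hv2 w hw ζ hζ
  have hder := hloc.deriv (by
    filter_upwards [hD₁.mem_nhds hw₀] with w hw
    exact H.d1 w hw) hD₀
  have hcont0 : ContinuousAt (deriv (fun ζ => h ζ w₀)) ζ₀ :=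
    ((H.d1 w₀ hw₀).deriv hD₀).continuousOn.continuousAt (hD₀.mem_nhds hζ₀)
  apply ContinuousAt.continuousWithinAt
  have h1 : Tendsto (fun q : ℂ × ℂ => (deriv ∘ fun w ζ => h ζ w) q.2 q.1) (𝓝 (ζ₀, w₀))
      (𝓝 (deriv (fun ζ => h ζ w₀) ζ₀)) := by
    apply tendsto_comp_of_locally_uniform_limit (F := fun (q : ℂ × ℂ) ζ =>
      (deriv ∘ fun w ζ => h ζ w) q.2 ζ) hcont0 (g := fun q : ℂ × ℂ => q.1)
    · exact continuous_fst.tendsto (ζ₀, w₀)
    · intro u hu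
      obtain ⟨t, ht, ht2⟩ := hder u hu ζ₀ hζ₀
      rw [hD₀.nhdsWithin_eq hζ₀] at ht
      refine ⟨t, ht, ?_⟩
      have h3 : Tendsto (fun q : ℂ × ℂ => q.2) (𝓝 (ζ₀, w₀)) (𝓝 w₀) := continuous_snd.tendsto (ζ₀, w₀)
      exact h3.eventually ht2
  exact h1

/-- The partial derivative of a separately holomorphic function is separately holomorphic. -/
lemma SepHol.deriv1 {D₀ D₁ : Set ℂ} (hD₀ : IsOpen D₀) (hD₁ : IsOpen D₁) {h : ℂ → ℂ → ℂ}
    (H : SepHol D₀ D₁ h) : SepHol D₀ D₁ (fun ζ w => deriv (fun ξ => h ξ w) ζ) := by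
  refine ⟨H.cont_deriv hD₀ hD₁, fun w hw => (H.d1 w hw).deriv hD₀, ?_⟩
  intro ζ₀ hζ₀
  have hcd := H.cont_deriv hD₀ hD₁
  have hlu : TendstoLocallyUniformlyOn (fun (t : ℂ) w => t⁻¹ * (h (ζ₀ + t) w - h ζ₀ w))
      (fun w => deriv (fun ξ => h ξ w) ζ₀) (𝓝[≠] 0) D₁ := by
    rw [tendstoLocallyUniformlyOn_iff_forall_isCompact hD₁]
    intro K hK hKc
    rw [Metric.tendstoUniformlyOn_iff]
    intro ε hε
    have hc : ContinuousOn (Function.uncurry (fun ζ w => deriv (fun ξ => h ξ w) ζ)) (D₀ ×ˢ K) :=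
      hcd.mono (Set.prod_mono le_rfl hK)
    obtain ⟨v, hv, hv2⟩ := hKc.mem_uniformity_of_prod hc hζ₀ (Metric.dist_mem_uniformity
      (half_pos hε))
    rw [hD₀.nhdsWithin_eq hζ₀] at hv
    obtain ⟨δ, hδ, hδ2⟩ := Metric.mem_nhds_iff.1 (inter_mem hv (hD₀.mem_nhds hζ₀))
    have hmem : ∀ᶠ t : ℂ in 𝓝[≠] 0, t ≠ 0 ∧ ‖t‖ < δ := by
      rw [eventually_nhdsWithin_iff]
      have : ball (0:ℂ) δ ∈ 𝓝 (0:ℂ) := ball_mem_nhds _ hδ
      filter_upwards [this] with t ht ht2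
      exact ⟨ht2, by rwa [mem_ball_zero_iff] at ht⟩
    filter_upwards [hmem] with t ht w hw
    set c := deriv (fun ξ => h ξ w) ζ₀ with hc
    have h1 : ‖(h (ζ₀ + t) w - (ζ₀ + t) * c) - (h ζ₀ w - ζ₀ * c)‖ ≤ (ε / 2) * ‖(ζ₀ + t) - ζ₀‖ := by
      apply Convex.norm_image_sub_le_of_norm_hasDerivWithin_le (𝕜 := ℂ)
        (f := fun ζ => h ζ w - ζ * c) (f' := fun ζ => deriv (fun ξ => h ξ w) ζ - c)
        (s := ball ζ₀ δ) _ _ (convex_ball ζ₀ δ)
      · exact mem_ball_self hδ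
      · rw [mem_ball, dist_eq_norm]; simpa using ht.2
      · intro ζ hζ
        have hζD : ζ ∈ D₀ := (hδ2 hζ).2
        have h2 : HasDerivAt (fun ξ => h ξ w) (deriv (fun ξ => h ξ w) ζ) ζ :=
          ((H.d1 w (hK hw)).differentiableAt (hD₀.mem_nhds hζD)).hasDerivAt
        have h3 : HasDerivAt (fun ζ : ℂ => ζ * c) c ζ := by
          simpa using (hasDerivAt_id ζ).mul_const c
        exact (h2.sub h3).hasDerivWithinAt
      · intro ζ hζ
        have := hv2 ζ (hδ2 hζ).1 w hw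
        simp only [mem_ofPred_eq] at this
        rw [← dist_eq_norm]
        exact this.le
    have h4 : ‖t⁻¹ * (h (ζ₀ + t) w - h ζ₀ w) - c‖ ≤ ε / 2 := by
      have h5 : t⁻¹ * (h (ζ₀ + t) w - h ζ₀ w) - c
          = t⁻¹ * ((h (ζ₀ + t) w - (ζ₀ + t) * c) - (h ζ₀ w - ζ₀ * c)) := by
        have := ht.1
        field_simp
        ring
      rw [h5, norm_mul, norm_inv]
      have h6 : (0:ℝ) < ‖t‖ := norm_pos_iff.2 ht.1
      rw [inv_mul_le_iff₀ h6]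
      calc _ ≤ (ε / 2) * ‖(ζ₀ + t) - ζ₀‖ := h1
        _ = ‖t‖ * (ε / 2) := by rw [add_sub_cancel_left]; ring
    rw [dist_comm, dist_eq_norm]
    linarith
  apply hlu.differentiableOn _ hD₁
  have hmem : ∀ᶠ t : ℂ in 𝓝[≠] 0, ζ₀ + t ∈ D₀ := by
    apply eventually_nhdsWithin_of_eventually_nhds
    have : Tendsto (fun t : ℂ => ζ₀ + t) (𝓝 0) (𝓝 ζ₀) := by
      have : Continuous (fun t : ℂ => ζ₀ + t) := by fun_prop
      simpa using this.tendsto 0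
    exact this.eventually (hD₀.mem_nhds hζ₀)
  filter_upwards [hmem] with t ht
  exact ((H.d2 _ ht).sub (H.d2 _ hζ₀)).const_mul _

end Pool.Agent.Helper65_Jessen
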