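import Pool.Agent.Helper65_Jessen.BadMeasure
import Pool.Agent.Helper65_Jessen.GlobalNull

set_option autoImplicit false

open Complex Metric Real Set Filter Topology MeasureTheory
open scoped ENNReal

namespace Pool.Agent.Helper65_Jessen

variable {n : ℕ}

/-- An open rectangle in the complex plane. -/
def crect (L a R : ℝ) : Set ℂ := {ζ | |ζ.re| < L ∧ |ζ.im - a| < R}

lemma isOpen_crect (L a R : ℝ) : IsOpen (crect L a R) := by
  apply IsOpen.inter
  · exact isOpen_lt (f := fun ζ : ℂ => |ζ.re|) (g := fun _ => L) (by fun_prop) (by fun_prop)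
  · exact isOpen_lt (f := fun ζ : ℂ => |ζ.im - a|) (g := fun _ => R) (by fun_prop) (by fun_prop)

lemma convex_crect (L a R : ℝ) : Convex ℝ (crect L a R) := by
  have h1 : crect L a R = Complex.reLm ⁻¹' (Ioo (-L) L) ∩ Complex.imLm ⁻¹' (Ioo (a - R) (a + R)) := by
    ext ζ
    simp only [crect, mem_ofPred_eq, abs_lt, mem_inter_iff, mem_preimage, Complex.reLm_coe,
      Complex.imLm_coe, mem_Ioo]
    constructor
    · rintro ⟨⟨h1, h2⟩, h3, h4⟩
      exact ⟨⟨h1, h2⟩, by linarith, by linarith⟩
    · rintro ⟨⟨h1, h2⟩, h3, h4⟩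
      exact ⟨⟨h1, h2⟩, by linarith, by linarith⟩
  rw [h1]
  exact ((convex_Ioo _ _).linear_preimage _).inter ((convex_Ioo _ _).linear_preimage _)

/-- Two-variable slices of the limit function. -/
lemma slice_null {f g : (Fin n → ℂ) → ℂ} {p : Fin n → ℝ} {r : ℝ} {xs : ℕ → Fin n → ℝ}
    (hr : 0 < r) (hf : DifferentiableOn ℂ f (strip p (4 * r)))
    (hgc : ContinuousOn g (kbox p r (3 * r)))
    (hlim : TendstoUniformlyOn (fun k z => f (shift (xs k) z)) g atTop (kbox p r (3 * r)))
    {i₀ i₁ : Fin n} (hne : i₀ ≠ i₁) {x : Fin n → ℝ} (hx : ∀ j, |x j| ≤ r / 8)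
    (hgx : g (xiy x p) ≠ 0) :
    volume {q : ℝ × ℝ | |q.1| ≤ r / 8 ∧ |q.2| ≤ r ∧ ∃ ζ : ℂ, |ζ.re| ≤ r / 2 ∧
      ζ.im = p i₀ - q.2 ^ 2 ∧ |q.2 ^ 2| ≤ r ∧
      g (Function.update (xiy (Function.update x i₁ q.1) (yc p i₀ i₁ q.2)) i₀ ζ) = 0} = 0 := by
  set Γ : ℂ → ℂ → (Fin n → ℂ) := fun ζ w =>
    Function.update (Function.update (xiy x p) i₀ ζ) i₁ (w + (p i₁ : ℂ) * I) with hΓ
  set h : ℂ → ℂ → ℂ := fun ζ w => g (Γ ζ w) with hh
  have hΓbox : ∀ ζ ∈ crect r (p i₀) (3 * r), ∀ w ∈ crect r 0 (3 * r), Γ ζ w ∈ kbox p r (3 * r) := by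
    intro ζ hζ w hw
    constructor
    · intro j
      by_cases hj1 : j = i₁
      · subst hj1
        simp only [hΓ, Function.update_self]
        have : (w + (p j : ℂ) * I).re = w.re := by simp
        rw [this]
        exact hw.1.le
      · by_cases hj0 : j = i₀
        · subst hj0
          simp only [hΓ, Function.update_of_ne hj1, Function.update_self]
          exact hζ.1.le
        · simp only [hΓ, Function.update_of_ne hj1, Function.update_of_ne hj0, xiy]
          have : ((x j : ℂ) + (p j : ℂ) * I).re = x j := by simp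
          rw [this]
          exact (hx j).trans (by linarith)
    · intro j
      by_cases hj1 : j = i₁
      · subst hj1
        simp only [hΓ, Function.update_self]
        have : (w + (p j : ℂ) * I).im - p j = w.im - 0 := by simp
        rw [this]
        exact hw.2.le
      · by_cases hj0 : j = i₀
        · subst hj0
          simp only [hΓ, Function.update_of_ne hj1, Function.update_self]
          exact hζ.2.le
        · simp only [hΓ, Function.update_of_ne hj1, Function.update_of_ne hj0, xiy]
          have : ((x j : ℂ) + (p j : ℂ) * I).im - p j = 0 := by simp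
          rw [this]
          simp [hr.le]
  have hΓc : Continuous (fun v : ℂ × ℂ => Γ v.1 v.2) := by
    simp only [hΓ]
    apply Continuous.update
    · exact continuous_const.update i₀ continuous_fst
    · fun_prop
  have H : SepHol (crect r (p i₀) (3 * r)) (crect r 0 (3 * r)) h := by
    refine ⟨?_, ?_, ?_⟩
    · have : Function.uncurry h = fun v : ℂ × ℂ => g (Γ v.1 v.2) := by ext v; rfl
      rw [this]
      exact hgc.comp hΓc.continuousOn (fun v hv => hΓbox v.1 hv.1 v.2 hv.2)
    · intro w hw
      apply limit_diff hr hf hlim (isOpen_crect _ _ _) (γ := fun ζ => Γ ζ w)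
      · apply Differentiable.differentiableOn
        rw [differentiable_pi]
        intro j
        by_cases hj1 : j = i₁
        · subst hj1
          simp only [hΓ, Function.update_self]
          fun_prop
        · by_cases hj0 : j = i₀
          · subst hj0
            simp only [hΓ, Function.update_of_ne hj1, Function.update_self]
            fun_prop
          · simp only [hΓ, Function.update_of_ne hj1, Function.update_of_ne hj0]
            fun_prop
      · intro ζ hζ
        exact hΓbox ζ hζ w hw
    · intro ζ hζ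
      apply limit_diff hr hf hlim (isOpen_crect _ _ _) (γ := fun w => Γ ζ w)
      · apply Differentiable.differentiableOn
        rw [differentiable_pi]
        intro j
        by_cases hj1 : j = i₁
        · subst hj1
          simp only [hΓ, Function.update_self]
          fun_prop
        · simp only [hΓ, Function.update_of_ne hj1]
          fun_prop
      · intro w hw
        exact hΓbox ζ hζ w hw
  have hζ₁ : (x i₀ : ℂ) + (p i₀ : ℂ) * I ∈ crect r (p i₀) (3 * r) := by
    constructor
    · have : ((x i₀ : ℂ) + (p i₀ : ℂ) * I).re = x i₀ := by simp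
      rw [this]
      have := hx i₀
      linarith
    · have : ((x i₀ : ℂ) + (p i₀ : ℂ) * I).im - p i₀ = 0 := by simp
      rw [this, abs_zero]
      positivity
  have hw₁ : (x i₁ : ℂ) ∈ crect r 0 (3 * r) := by
    constructor
    · rw [Complex.ofReal_re]
      have := hx i₁
      linarith
    · rw [Complex.ofReal_im]
      simp [hr]
  have hne0 : h ((x i₀ : ℂ) + (p i₀ : ℂ) * I) (x i₁ : ℂ) ≠ 0 := by
    have : Γ ((x i₀ : ℂ) + (p i₀ : ℂ) * I) (x i₁ : ℂ) = xiy x p := by
      ext j
      by_cases hj1 : j = i₁
      · subst hj1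
        simp only [hΓ, Function.update_self, xiy]
      · by_cases hj0 : j = i₀
        · subst hj0
          simp only [hΓ, Function.update_of_ne hj1, Function.update_self, xiy]
        · simp only [hΓ, Function.update_of_ne hj1, Function.update_of_ne hj0]
    simp only [hh]
    rw [this]
    exact hgx
  have hnull := global_null (isOpen_crect _ _ _) (isOpen_crect _ _ _)
    (convex_crect _ _ _).isPreconnected (convex_crect _ _ _).isPreconnected H hζ₁ hw₁ hne0 (p i₀) 0
  refine measure_mono_null ?_ hnull
  rintro q ⟨h1, h2, ζ, h3, h4, h5, h6⟩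
  refine ⟨?_, ζ, ?_, ?_, ?_⟩
  · constructor
    · have : ((q.1:ℂ) + (q.2:ℂ) * I).re = q.1 := by simp
      rw [this]; linarith
    · have : ((q.1:ℂ) + (q.2:ℂ) * I).im - 0 = q.2 := by simp
      rw [this]; linarith
  · constructor
    · linarith
    · rw [h4]
      have : p i₀ - q.2 ^ 2 - p i₀ = - q.2 ^ 2 := by ring
      rw [this, abs_neg]
      linarith
  · rw [h4]; ring
  · simp only [hh]
    have : Γ ζ ((q.1:ℂ) + (q.2:ℂ) * I) =
        Function.update (xiy (Function.update x i₁ q.1) (yc p i₀ i₁ q.2)) i₀ ζ := by
      ext j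
      by_cases hj1 : j = i₁
      · subst hj1
        simp only [hΓ, Function.update_self, Function.update_of_ne hne.symm, xiy, yc_i₁ p hne]
        push_cast
        ring
      · by_cases hj0 : j = i₀
        · subst hj0
          simp only [hΓ, Function.update_of_ne hj1, Function.update_self]
        · simp only [hΓ, Function.update_of_ne hj1, Function.update_of_ne hj0, xiy,
            yc_of_ne p hj0 hj1]
    rw [this]
    exact h6

end Pool.Agent.Helper65_Jessen
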