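import Pool.Agent.Helper65_Jessen.GraphNull

set_option autoImplicit false

open Complex Metric Real Set Filter Topology MeasureTheory

namespace Pool.Agent.Helper65_Jessen

lemma span_invertible {c : ℂ} (hc : c ≠ 0) :
    (ContinuousLinearMap.toSpanSingleton ℂ c : ℂ →L[ℂ] ℂ).IsInvertible := by
  apply ContinuousLinearMap.IsInvertible.of_inverse
    (g := (ContinuousLinearMap.toSpanSingleton ℂ c⁻¹ : ℂ →L[ℂ] ℂ))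
  · ext
    simp [ContinuousLinearMap.toSpanSingleton_apply, hc]
  · ext
    simp [ContinuousLinearMap.toSpanSingleton_apply, hc]

/-- Near a point where `k` has a simple zero in the first variable, the set of `w` over which a
zero of `k` lies on the hypersurface is null. -/
lemma local_null {D₀ D₁ : Set ℂ} (hD₀ : IsOpen D₀) (hD₁ : IsOpen D₁) {k : ℂ → ℂ → ℂ}
    (H : SepHol D₀ D₁ k) {ζ₀ w₀ : ℂ} (hζ₀ : ζ₀ ∈ D₀) (hw₀ : w₀ ∈ D₁) (hk0 : k ζ₀ w₀ = 0)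
    (hk1 : deriv (fun ξ => k ξ w₀) ζ₀ ≠ 0) (p₀ p₁ : ℝ) :
    ∃ O ∈ 𝓝 (ζ₀, w₀), volume {q : ℝ × ℝ | ∃ ζ : ℂ, (ζ, (q.1:ℂ) + (q.2:ℂ) * I) ∈ O ∧
      ζ.im = p₀ - (q.2 - p₁) ^ 2 ∧ k ζ ((q.1:ℂ) + (q.2:ℂ) * I) = 0} = 0 := by
  -- bivariate functions, first variable `w`, second variable `ζ`
  set f : ℂ → ℂ → ℂ := fun w ζ => k ζ w with hf
  set f₁ : ℂ → ℂ → ℂ →L[ℂ] ℂ := fun w ζ =>
    ContinuousLinearMap.toSpanSingleton ℂ (deriv (fun w' => k ζ w') w) with hf₁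
  set f₂ : ℂ → ℂ → ℂ →L[ℂ] ℂ := fun w ζ =>
    ContinuousLinearMap.toSpanSingleton ℂ (deriv (fun ξ => k ξ w) ζ) with hf₂
  have hc1 : ContinuousOn (Function.uncurry (fun w ζ => deriv (fun w' => k ζ w') w)) (D₁ ×ˢ D₀) :=
    H.swap.cont_deriv hD₁ hD₀
  have hc2 : ContinuousOn (Function.uncurry (fun w ζ => deriv (fun ξ => k ξ w) ζ)) (D₁ ×ˢ D₀) :=
    (H.deriv1 hD₀ hD₁).swap.cont
  have hDo : IsOpen (D₁ ×ˢ D₀) := hD₁.prod hD₀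
  have hdf₁ : ∀ v ∈ D₁ ×ˢ D₀, HasFDerivAt (f · v.2) (f₁ v.1 v.2) v.1 := by
    intro v hv
    exact ((H.d2 v.2 hv.2).differentiableAt (hD₁.mem_nhds hv.1)).hasDerivAt.hasFDerivAt
  have hdf₂ : ∀ v ∈ D₁ ×ˢ D₀, HasFDerivAt (f v.1 ·) (f₂ v.1 v.2) v.2 := by
    intro v hv
    exact ((H.d1 v.1 hv.1).differentiableAt (hD₀.mem_nhds hv.2)).hasDerivAt.hasFDerivAt
  have hspan : Continuous (fun c : ℂ => (ContinuousLinearMap.toSpanSingleton ℂ c : ℂ →L[ℂ] ℂ)) :=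
    (ContinuousLinearMap.toSpanSingletonLIE ℂ ℂ).continuous
  have hcf₁ : ∀ v ∈ D₁ ×ˢ D₀, ContinuousAt (Function.uncurry f₁) v := by
    intro v hv
    exact hspan.continuousAt.comp (hc1.continuousAt (hDo.mem_nhds hv))
  have hcf₂ : ∀ v ∈ D₁ ×ˢ D₀, ContinuousAt (Function.uncurry f₂) v := by
    intro v hv
    exact hspan.continuousAt.comp (hc2.continuousAt (hDo.mem_nhds hv))
  have hdf₁e : ∀ u ∈ D₁ ×ˢ D₀, ∀ᶠ v in 𝓝 u, HasFDerivAt (f · v.2) (f₁ v.1 v.2) v.1 := fun u hu =>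
    (hDo.mem_nhds hu |> fun h => by filter_upwards [h] with v hv using hdf₁ v hv)
  have hdf₂e : ∀ u ∈ D₁ ×ˢ D₀, ∀ᶠ v in 𝓝 u, HasFDerivAt (f v.1 ·) (f₂ v.1 v.2) v.2 := fun u hu =>
    (hDo.mem_nhds hu |> fun h => by filter_upwards [h] with v hv using hdf₂ v hv)
  -- general statement at a point u
  have hgen : ∀ u ∈ D₁ ×ˢ D₀, f u.1 u.2 = 0 → deriv (fun ξ => k ξ u.1) u.2 ≠ 0 →
      ∃ ψ : ℂ → ℂ, Tendsto ψ (𝓝 u.1) (𝓝 u.2) ∧ (∀ᶠ x in 𝓝 u.1, f x (ψ x) = 0) ∧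
        (∀ᶠ v in 𝓝 u, f v.1 v.2 = 0 ↔ ψ v.1 = v.2) ∧ DifferentiableAt ℂ ψ u.1 := by
    intro u hu hu0 hu1
    have hinv : (f₂ u.1 u.2).IsInvertible := span_invertible hu1
    have e1 := tendsto_implicitFunctionOfBivariate (hdf₁e u hu) (hdf₂e u hu) (hcf₁ u hu) (hcf₂ u hu)
      hinv
    have e2 := eventually_apply_implicitFunctionOfBivariate (hdf₁e u hu) (hdf₂e u hu) (hcf₁ u hu)
      (hcf₂ u hu) hinv
    have e3 := eventually_apply_eq_iff_implicitFunctionOfBivariate (hdf₁e u hu) (hdf₂e u hu)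
      (hcf₁ u hu) (hcf₂ u hu) hinv
    have e4 := hasStrictFDerivAt_implicitFunctionOfBivariate (hdf₁e u hu) (hdf₂e u hu)
      (hcf₁ u hu) (hcf₂ u hu) hinv
    rw [hu0] at e2 e3
    exact ⟨_, e1, e2, e3, e4.hasFDerivAt.differentiableAt⟩
  have hu₀ : ((w₀, ζ₀) : ℂ × ℂ) ∈ D₁ ×ˢ D₀ := ⟨hw₀, hζ₀⟩
  obtain ⟨ψ, hψ1, hψ2, hψ3, hψ4⟩ := hgen (w₀, ζ₀) hu₀ hk0 hk1
  simp only at hψ1 hψ2
  -- a product neighbourhood on which everything holds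
  have hev : ∀ᶠ v : ℂ × ℂ in 𝓝 (w₀, ζ₀), (f v.1 v.2 = 0 ↔ ψ v.1 = v.2) ∧ v ∈ D₁ ×ˢ D₀ ∧
      deriv (fun ξ => k ξ v.1) v.2 ≠ 0 := by
    have h1 : ContinuousAt (Function.uncurry (fun w ζ => deriv (fun ξ => k ξ w) ζ)) (w₀, ζ₀) :=
      hc2.continuousAt (hDo.mem_nhds hu₀)
    have h2 : ∀ᶠ v : ℂ × ℂ in 𝓝 (w₀, ζ₀), deriv (fun ξ => k ξ v.1) v.2 ≠ 0 :=
      h1.eventually_ne hk1
    filter_upwards [hψ3, hDo.mem_nhds hu₀, h2] with v a b c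
    exact ⟨a, b, c⟩
  rw [nhds_prod_eq] at hev
  obtain ⟨O₁, hO₁, O₂, hO₂, hO⟩ := Filter.mem_prod_iff.1 hev
  obtain ⟨O₁', hO₁'s, hO₁'o, hO₁'m⟩ := _root_.mem_nhds_iff.1 hO₁
  obtain ⟨O₂', hO₂'s, hO₂'o, hO₂'m⟩ := _root_.mem_nhds_iff.1 hO₂
  have hO' : ∀ w ∈ O₁', ∀ ζ ∈ O₂', (f w ζ = 0 ↔ ψ w = ζ) ∧ ((w, ζ) : ℂ × ℂ) ∈ D₁ ×ˢ D₀ ∧
      deriv (fun ξ => k ξ w) ζ ≠ 0 := fun w hw ζ hζ =>
    hO (show ((w, ζ) : ℂ × ℂ) ∈ O₁ ×ˢ O₂ from ⟨hO₁'s hw, hO₂'s hζ⟩)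
  -- neighbourhood V of w₀ mapped into O₂'
  have hV1 : ∀ᶠ w in 𝓝 w₀, w ∈ O₁' ∧ ψ w ∈ O₂' := by
    filter_upwards [hO₁'o.mem_nhds hO₁'m, hψ1.eventually (hO₂'o.mem_nhds hO₂'m)] with w a b
    exact ⟨a, b⟩
  obtain ⟨V, hVs, hVo, hVm⟩ := _root_.mem_nhds_iff.1 hV1
  have hψd : DifferentiableOn ℂ ψ V := by
    intro w₁ hw₁
    apply DifferentiableAt.differentiableWithinAt
    have hw₁1 : w₁ ∈ O₁' := (hVs hw₁).1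
    have hw₁2 : ψ w₁ ∈ O₂' := (hVs hw₁).2
    obtain ⟨h1, h2, h3⟩ := hO' w₁ hw₁1 (ψ w₁) hw₁2
    obtain ⟨ψ₁, hψ₁1, hψ₁2, hψ₁3, hψ₁4⟩ := hgen (w₁, ψ w₁) h2 (h1.2 rfl) h3
    simp only at hψ₁1 hψ₁2 hψ₁4
    have heq : ψ =ᶠ[𝓝 w₁] ψ₁ := by
      filter_upwards [hO₁'o.mem_nhds hw₁1, hψ₁1.eventually (hO₂'o.mem_nhds hw₁2), hψ₁2]
        with w a b c
      exact (hO' w a (ψ₁ w) b).1.1 c
    exact heq.differentiableAt_iff.2 hψ₁4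
  -- choose a rectangle
  have hcont : Continuous (fun q : ℝ × ℝ => (q.1:ℂ) + (q.2:ℂ) * I) := by fun_prop
  have hpre : (fun q : ℝ × ℝ => (q.1:ℂ) + (q.2:ℂ) * I) ⁻¹' V ∈ 𝓝 (w₀.re, w₀.im) := by
    apply (hVo.preimage hcont).mem_nhds
    simpa using hVm
  rw [nhds_prod_eq] at hpre
  obtain ⟨A₁, hA₁, A₂, hA₂, hA⟩ := Filter.mem_prod_iff.1 hpre
  obtain ⟨a, b, ha, hb⟩ := mem_nhds_iff_exists_Ioo_subset.1 hA₁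
  obtain ⟨c, d, hc, hd⟩ := mem_nhds_iff_exists_Ioo_subset.1 hA₂
  have hsub : ∀ s ∈ Ioo a b, ∀ t ∈ Ioo c d, (s:ℂ) + (t:ℂ) * I ∈ V := fun s hs t ht =>
    hA (show ((s, t) : ℝ × ℝ) ∈ A₁ ×ˢ A₂ from ⟨hb hs, hd ht⟩)
  refine ⟨{v : ℂ × ℂ | v.2 ∈ O₁' ∧ v.1 ∈ O₂' ∧ v.2.re ∈ Ioo a b ∧ v.2.im ∈ Ioo c d}, ?_, ?_⟩
  · have h1 : IsOpen {v : ℂ × ℂ | v.2 ∈ O₁' ∧ v.1 ∈ O₂' ∧ v.2.re ∈ Ioo a b ∧ v.2.im ∈ Ioo c d} := by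
      apply (hO₁'o.preimage continuous_snd).inter
      apply (hO₂'o.preimage continuous_fst).inter
      apply (isOpen_Ioo.preimage (Complex.continuous_re.comp continuous_snd)).inter
      exact isOpen_Ioo.preimage (Complex.continuous_im.comp continuous_snd)
    exact h1.mem_nhds ⟨hO₁'m, hO₂'m, ha, hc⟩
  · refine measure_mono_null ?_ (graph_null (p₀ := p₀) (p₁ := p₁) (ha.1.trans ha.2)
      (hc.1.trans hc.2) hVo hψd hsub)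
    rintro q ⟨ζ, ⟨h1, h2, h3, h4⟩, h5, h6⟩
    simp only [Complex.add_re, Complex.ofReal_re, Complex.mul_re, Complex.I_re, mul_zero,
      Complex.ofReal_im, Complex.I_im, mul_one, sub_self, add_zero, Complex.add_im, Complex.mul_im,
      zero_add] at h3 h4
    refine ⟨h3, h4, ?_⟩
    rw [(hO' _ h1 ζ h2).1.1 h6]
    exact h5

end Pool.Agent.Helper65_Jessen
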